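import Mathlib

set_option autoImplicit false

/-!
# The twisted convolution algebra `C_c(ℤ, C(X))` and covariant representations
-/

namespace Pool.Agent.H907Z.LpX

variable {X : Type} [TopologicalSpace X]

/-- `h` is minimal: every orbit is dense. -/
def IsMinimal (h : X ≃ₜ X) : Prop := ∀ x : X, Dense (Set.range fun n : ℤ => (h ^ n) x)

/-- `alpha h n f = f ∘ h^{-n}`, the `n`-th power of `α(f) = f ∘ h⁻¹`. -/
noncomputable def alpha (h : X ≃ₜ X) (n : ℤ) (f : C(X, ℂ)) : C(X, ℂ) :=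
  f.comp ((h ^ (-n) : X ≃ₜ X) : C(X, X))

lemma alpha_apply (h : X ≃ₜ X) (n : ℤ) (f : C(X, ℂ)) (x : X) :
    alpha h n f x = f ((h ^ (-n)) x) := rfl

lemma alpha_add (h : X ≃ₜ X) (m n : ℤ) (f : C(X, ℂ)) :
    alpha h (m + n) f = alpha h m (alpha h n f) := by
  ext x
  simp only [alpha_apply]
  rw [← Homeomorph.mul_apply, ← zpow_add]
  congr 3
  ring

lemma alpha_zero (h : X ≃ₜ X) (f : C(X, ℂ)) : alpha h 0 f = f := by
  ext x; simp [alpha_apply]

/-- The ring `C(X)`, tagged with the homeomorphism `h`. -/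
def Coef (_h : X ≃ₜ X) : Type := C(X, ℂ)

noncomputable instance instCommRingCoef (h : X ≃ₜ X) : CommRing (Coef h) :=
  (inferInstance : CommRing C(X, ℂ))

noncomputable instance instAlgebraCoef (h : X ≃ₜ X) : Algebra ℂ (Coef h) :=
  (inferInstance : Algebra ℂ C(X, ℂ))

/-- `ℤ` acts on `C(X)` through the powers of `α`. -/
noncomputable instance instActCoef (h : X ≃ₜ X) :
    MulSemiringAction (Multiplicative ℤ) (Coef h) where
  smul n f := alpha h n.toAdd f
  one_smul f := alpha_zero h f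
  mul_smul m n f := alpha_add h m.toAdd n.toAdd f
  smul_zero _ := rfl
  smul_add _ _ _ := rfl
  smul_one _ := rfl
  smul_mul _ _ _ := rfl

instance instCommCoef (h : X ≃ₜ X) : SMulCommClass (Multiplicative ℤ) ℂ (Coef h) :=
  ⟨fun _ _ _ => rfl⟩

/-- The complex algebra `C_c(ℤ, C(X), α)` of finite sums `∑ a_n u^n`, with
`(a u^m) (b u^n) = a α^m(b) u^(m+n)`. -/
abbrev Alg (h : X ≃ₜ X) : Type := SkewMonoidAlgebra (Coef h) (Multiplicative ℤ)

variable [CompactSpace X]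

/-- Unital (equivalently, nondegenerate) contractive homomorphisms `π : C(X) → L(V)`. -/
def Rep (X : Type) [TopologicalSpace X] [CompactSpace X]
    (V : Type) [NormedAddCommGroup V] [NormedSpace ℂ V] : Type :=
  {π : C(X, ℂ) →ₐ[ℂ] (V →L[ℂ] V) // ∀ f, ‖π f‖ ≤ ‖f‖}

variable {V : Type} [NormedAddCommGroup V] [NormedSpace ℂ V] {h : X ≃ₜ X}

/-- The operator `π(f)`. -/
noncomputable def Rep.op (π : Rep X V) (f : C(X, ℂ)) : V →L[ℂ] V := π.1 f

/-- The operator `v^n` for an invertible isometry `v` and an integer `n`. -/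
noncomputable def isoPow (v : V ≃ₗᵢ[ℂ] V) (n : ℤ) : V →L[ℂ] V :=
  ((v ^ n : V ≃ₗᵢ[ℂ] V) : V →L[ℂ] V)

/-- Contractive covariant representations `(π, v)` on `V`: `v` is an invertible isometry with
`v π(f) v⁻¹ = π(α(f))`. -/
structure CovRep (h : X ≃ₜ X) (V : Type) [NormedAddCommGroup V] [NormedSpace ℂ V] : Type where
  /-- the representation of `C(X)` -/
  rep : Rep X V
  /-- the invertible isometry -/
  v : V ≃ₗᵢ[ℂ] V
  cov : ∀ f : C(X, ℂ), isoPow v 1 * rep.op f * isoPow v (-1) = rep.op (alpha h 1 f)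

/-- The integrated form `∑_n π(a_n) v^n`. -/
noncomputable def intForm (R : CovRep h V) (a : Alg h) : V →L[ℂ] V :=
  ∑ m ∈ a.support, R.rep.op (a.coeff m) * isoPow R.v m.toAdd

/-- The operator norm of the integrated form. -/
noncomputable def intNorm (R : CovRep h V) (a : Alg h) : ℝ := ‖intForm R a‖

/-- `(T ξ)(n) = ∑_m π₀(α^{-n}(a_m)) ξ(n - m)`: the action of `T = ∑_m π(a_m) v^m` on a sequence `ξ`,
where `(π(f) ξ)(n) = π₀(α^{-n}(f)) ξ(n)` and `(v ξ)(n) = ξ(n - 1)`. -/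
noncomputable def regApply (π : Rep X V) (h : X ≃ₜ X) (a : Alg h) (ξ : ℤ → V) (n : ℤ) : V :=
  ∑ m ∈ a.support, π.op (alpha h (-n) (a.coeff m)) (ξ (n - m.toAdd))

/-- The operator norm of `∑_m π(a_m) v^m` on `ℓ^p(ℤ, V)` in the regular representation. -/
noncomputable def regNorm (p : ENNReal) (π : Rep X V) (h : X ≃ₜ X) (a : Alg h) : ℝ :=
  sSup {r : ℝ | ∃ ξ η : lp (fun _ : ℤ => V) p, ‖ξ‖ ≤ 1 ∧ (∀ n, η n = regApply π h a ξ n) ∧ r = ‖η‖}

end Pool.Agent.H907Z.LpX
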