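import Mathlib

set_option autoImplicit false

/-!
# Gliding humps in `ℓ^q(ℤ)`
-/

namespace Pool.Agent.H907Z.LpX

open Filter Topology Finset
open scoped ENNReal

lemma grow {a b A B D : ℝ} (hab : b < a) (hb : 0 ≤ b) (hA : 0 < A)
    (H : ∀ N : ℕ, 1 ≤ N → A * (N : ℝ) ^ a ≤ B * (N : ℝ) ^ b + D) : False := by
  have h1 : Tendsto (fun N : ℕ => (N : ℝ) ^ (a - b)) atTop atTop :=
    (tendsto_rpow_atTop (sub_pos.mpr hab)).comp tendsto_natCast_atTop_atTop
  obtain ⟨N, hN, hN1⟩ := ((h1.eventually_gt_atTop ((|B| + |D|) / A)).and (eventually_ge_atTop 1)).exists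
  have hN0 : (1 : ℝ) ≤ N := by exact_mod_cast hN1
  have hpos : (0 : ℝ) < N := by linarith
  have h2 : 1 ≤ (N : ℝ) ^ b := Real.one_le_rpow hN0 hb
  have h3 : (N : ℝ) ^ a = (N : ℝ) ^ (a - b) * (N : ℝ) ^ b := by
    rw [← Real.rpow_add hpos]; congr 1; ring
  have h4 := H N hN1
  rw [div_lt_iff₀ hA] at hN
  rw [h3] at h4
  have h5 : B * (N : ℝ) ^ b ≤ |B| * (N : ℝ) ^ b :=
    mul_le_mul_of_nonneg_right (le_abs_self B) (by linarith)
  have h6 : D ≤ |D| * (N : ℝ) ^ b := (le_abs_self D).trans (le_mul_of_one_le_right (abs_nonneg D) h2)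
  have h7 : (|B| + |D|) * (N : ℝ) ^ b < ((N : ℝ) ^ (a - b) * A) * (N : ℝ) ^ b :=
    mul_lt_mul_of_pos_right hN (by linarith)
  nlinarith

lemma norm_sum_rpow_of_disjoint {ι : Type*} (F : Finset ι) (a : ι → ℂ) {r : ℝ} (hr : 0 < r)
    (H : ∀ i ∈ F, ∀ j ∈ F, i ≠ j → a i = 0 ∨ a j = 0) :
    ‖∑ i ∈ F, a i‖ ^ r = ∑ i ∈ F, ‖a i‖ ^ r := by
  by_cases h : ∃ i ∈ F, a i ≠ 0
  · obtain ⟨i, hi, hai⟩ := h
    have h0 : ∀ j ∈ F, j ≠ i → a j = 0 := fun j hj hji => (H j hj i hi hji).resolve_right hai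
    rw [Finset.sum_eq_single_of_mem i hi h0, Finset.sum_eq_single_of_mem i hi]
    intro j hj hji
    rw [h0 j hj hji, norm_zero, Real.zero_rpow hr.ne']
  · push Not at h
    rw [Finset.sum_eq_zero h, Finset.sum_eq_zero fun i hi => by
      rw [h i hi, norm_zero, Real.zero_rpow hr.ne'], norm_zero, Real.zero_rpow hr.ne']

/-- `ℓ^q(ℤ)` -/
abbrev Ell (q : ℝ≥0∞) : Type := lp (fun _ : ℤ => ℂ) q

variable {q : ℝ≥0∞} [Fact (1 ≤ q)]

lemma toReal_pos (hq : q ≠ ⊤) : 0 < q.toReal :=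
  ENNReal.toReal_pos (zero_lt_one.trans_le Fact.out).ne' hq

lemma one_le_toReal (hq : q ≠ ⊤) : 1 ≤ q.toReal := by
  have := ENNReal.toReal_mono hq (Fact.out : 1 ≤ q)
  simpa using this

lemma q_ne_zero : q ≠ 0 := (zero_lt_one.trans_le Fact.out).ne'

/-- restriction to a finite set of coordinates -/
noncomputable def res (S : Finset ℤ) : Ell q →L[ℂ] Ell q :=
  ∑ k ∈ S, (lp.singleContinuousLinearMap ℂ (fun _ : ℤ => ℂ) q k).comp
    (lp.evalCLM ℂ (fun _ : ℤ => ℂ) q k)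

lemma res_eq (S : Finset ℤ) (x : Ell q) : res S x = ∑ k ∈ S, lp.single q k (x k) := by
  rw [res, _root_.sum_apply]
  rfl

lemma res_apply (S : Finset ℤ) (x : Ell q) (k : ℤ) : res S x k = if k ∈ S then x k else 0 := by
  rw [res_eq, lp.coeFn_sum, Finset.sum_apply]
  simp [lp.single_apply, Pi.single_apply]

lemma norm_le_of_pt {x y : Ell q} (H : ∀ k, ‖x k‖ ≤ ‖y k‖) : ‖x‖ ≤ ‖y‖ :=
  lp.norm_mono q_ne_zero H

lemma norm_res_le (S : Finset ℤ) (x : Ell q) : ‖res S x‖ ≤ ‖x‖ :=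
  norm_le_of_pt fun k => by
    rw [res_apply]; split_ifs <;> simp

lemma norm_sum_disjoint (hq : q ≠ ⊤) {ι : Type*} (F : Finset ι) (w : ι → Ell q)
    (H : ∀ k, ∀ i ∈ F, ∀ j ∈ F, i ≠ j → w i k = 0 ∨ w j k = 0) :
    ‖∑ i ∈ F, w i‖ ^ q.toReal = ∑ i ∈ F, ‖w i‖ ^ q.toReal := by
  have h1 := lp.hasSum_norm (toReal_pos hq) (∑ i ∈ F, w i)
  have h2 := hasSum_sum (s := F) fun i _ => lp.hasSum_norm (toReal_pos hq) (w i)
  refine h1.unique ?_
  convert h2 using 2 with k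
  rw [lp.coeFn_sum, Finset.sum_apply]
  exact norm_sum_rpow_of_disjoint F _ (toReal_pos hq) (H k)

lemma hump_step (hq : q ≠ ⊤) (y : ℕ → Ell q) (hy : ∀ k, Tendsto (fun j => y j k) atTop (𝓝 0))
    {η : ℝ} (hη : 0 < η) (m : ℕ) (U : Finset ℤ) :
    ∃ j, m < j ∧ ∃ T : Finset ℤ, Disjoint T U ∧ ‖y j - res T (y j)‖ ≤ η := by
  have h1 : Tendsto (fun j => res U (y j)) atTop (𝓝 0) := by
    simp only [res_eq]
    have : (0 : Ell q) = ∑ k ∈ U, 0 := by simp
    rw [this]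
    refine tendsto_finsetSum _ fun k _ => ?_
    rw [tendsto_zero_iff_norm_tendsto_zero]
    simp only [lp.norm_single (pos_iff_ne_zero.mpr (q_ne_zero (q := q)))]
    exact tendsto_zero_iff_norm_tendsto_zero.mp (hy k)
  have h2 := (tendsto_zero_iff_norm_tendsto_zero.mp h1).eventually (gt_mem_nhds (half_pos hη))
  obtain ⟨j, hj, hmj⟩ := (h2.and (eventually_gt_atTop m)).exists
  have h3 := lp.hasSum_single hq (y j)
  have h4 : ∀ᶠ T : Finset ℤ in atTop, dist (∑ k ∈ T, lp.single q k (y j k)) (y j) < η / 2 :=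
    Metric.tendsto_nhds.mp h3 _ (half_pos hη)
  obtain ⟨T, hT⟩ := h4.exists
  refine ⟨j, hmj, T \ U, Finset.sdiff_disjoint, ?_⟩
  have e : y j - res (T \ U) (y j) = (y j - res T (y j)) + res (T ∩ U) (y j) := by
    refine lp.ext (funext fun k => ?_)
    simp only [lp.coeFn_sub, lp.coeFn_add, Pi.sub_apply, Pi.add_apply, res_apply, Finset.mem_sdiff,
      Finset.mem_inter]
    by_cases h1 : k ∈ T <;> by_cases h2 : k ∈ U <;> simp [h1, h2]
  have h5 : ‖res (T ∩ U) (y j)‖ ≤ ‖res U (y j)‖ := norm_le_of_pt fun k => by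
    simp only [res_apply, Finset.mem_inter]
    by_cases h1 : k ∈ T <;> by_cases h2 : k ∈ U <;> simp [h1, h2]
  rw [← res_eq, dist_comm, dist_eq_norm] at hT
  rw [e]
  exact (norm_add_le _ _).trans (by linarith)

lemma hump (hq : q ≠ ⊤) (y : ℕ → Ell q) (hy : ∀ k, Tendsto (fun j => y j k) atTop (𝓝 0))
    {η : ℝ} (hη : 0 < η) :
    ∃ n : ℕ → ℕ, StrictMono n ∧ ∃ S : ℕ → Finset ℤ, (∀ i j, i ≠ j → Disjoint (S i) (S j)) ∧
      ∀ i, ‖y (n i) - res (S i) (y (n i))‖ ≤ η := by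
  choose J hJ T hT hT' using hump_step hq y hy hη
  let st : ℕ → ℕ × Finset ℤ := fun i =>
    Nat.rec (0, ∅) (fun _ s => (J s.1 s.2, s.2 ∪ T s.1 s.2)) i
  have hst : ∀ i, st (i + 1) = (J (st i).1 (st i).2, (st i).2 ∪ T (st i).1 (st i).2) := fun _ => rfl
  have hmono : Monotone fun i => (st i).2 := monotone_nat_of_le_succ fun i => by
    simp only [hst]; exact Finset.subset_union_left
  have hd : ∀ i j, i < j → Disjoint (T (st i).1 (st i).2) (T (st j).1 (st j).2) := by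
    intro i j hij
    have h1 : T (st i).1 (st i).2 ⊆ (st (i + 1)).2 := by
      simp only [hst]; exact Finset.subset_union_right
    exact ((hT _ _).mono_right (h1.trans (hmono (Nat.succ_le_of_lt hij)))).symm
  refine ⟨fun i => J (st i).1 (st i).2, strictMono_nat_of_lt_succ fun i => ?_,
    fun i => T (st i).1 (st i).2, fun i j hij => ?_, fun i => hT' _ _⟩
  · have := hJ (st (i + 1)).1 (st (i + 1)).2
    exact this
  · rcases lt_or_gt_of_ne hij with h | h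
    · exact hd i j h
    · exact (hd j i h).symm

lemma rpow_bounds {r : ℝ} (hr : 0 < r) (N : ℕ) (w : ℕ → ℝ) {x c K : ℝ} (hx : 0 ≤ x) (hc : 0 ≤ c)
    (hlo : ∀ i, c ≤ w i) (hhi : ∀ i, w i ≤ K) (H : x ^ r = ∑ i ∈ range N, w i ^ r) :
    c * (N : ℝ) ^ (1 / r) ≤ x ∧ x ≤ K * (N : ℝ) ^ (1 / r) := by
  have hK : 0 ≤ K := hc.trans ((hlo 0).trans (hhi 0))
  have key : ∀ d : ℝ, 0 ≤ d → (d * (N : ℝ) ^ (1 / r)) ^ r = ∑ _i ∈ range N, d ^ r := by
    intro d hd
    rw [Real.mul_rpow hd (by positivity), ← Real.rpow_mul (Nat.cast_nonneg N), one_div_mul_cancel hr.ne',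
      Real.rpow_one, Finset.sum_const, Finset.card_range, nsmul_eq_mul, mul_comm]
  constructor
  · rw [← Real.rpow_le_rpow_iff (by positivity) hx hr, key c hc, H]
    exact Finset.sum_le_sum fun i _ => Real.rpow_le_rpow hc (hlo i) hr.le
  · rw [← Real.rpow_le_rpow_iff hx (by positivity) hr, key K hK, H]
    exact Finset.sum_le_sum fun i _ => Real.rpow_le_rpow (hc.trans (hlo i)) (hhi i) hr.le

lemma hump_est (hq : q ≠ ⊤) (y : ℕ → Ell q) (hy : ∀ k, Tendsto (fun j => y j k) atTop (𝓝 0))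
    {c K : ℝ} (hc : 0 < c) (hlo : ∀ j, c ≤ ‖y j‖) (hhi : ∀ j, ‖y j‖ ≤ K) (N : ℕ) :
    ∃ n : ℕ → ℕ, StrictMono n ∧ ∃ S : ℕ → Finset ℤ, (∀ i j, i ≠ j → Disjoint (S i) (S j)) ∧
      c / 2 * (N : ℝ) ^ (1 / q.toReal) ≤ ‖∑ i ∈ range N, res (S i) (y (n i))‖ ∧
      ∀ a : ℕ → ℂ, (∀ i, ‖a i‖ = 1) →
        c / 2 * (N : ℝ) ^ (1 / q.toReal) - 1 ≤ ‖∑ i ∈ range N, a i • y (n i)‖ ∧
        ‖∑ i ∈ range N, a i • y (n i)‖ ≤ K * (N : ℝ) ^ (1 / q.toReal) + 1 := by
  have hη : 0 < min (c / 2) (1 / ((N : ℝ) + 1)) := lt_min (half_pos hc) (by positivity)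
  obtain ⟨n, hn, S, hS, H⟩ := hump hq y hy hη
  have key : ∀ a : ℕ → ℂ, (∀ i, ‖a i‖ = 1) →
      c / 2 * (N : ℝ) ^ (1 / q.toReal) ≤ ‖∑ i ∈ range N, a i • res (S i) (y (n i))‖ ∧
      ‖∑ i ∈ range N, a i • res (S i) (y (n i))‖ ≤ K * (N : ℝ) ^ (1 / q.toReal) := by
    intro a ha
    refine rpow_bounds (toReal_pos hq) N (fun i => ‖a i • res (S i) (y (n i))‖) (norm_nonneg _)
      (half_pos hc).le (fun i => ?_) (fun i => ?_) (norm_sum_disjoint hq _ _ ?_)
    · rw [norm_smul, ha, one_mul]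
      have h1 := (H i).trans (min_le_left _ _)
      have h2 := norm_sub_norm_le (y (n i)) (res (S i) (y (n i)))
      linarith [hlo (n i)]
    · rw [norm_smul, ha, one_mul]
      exact (norm_res_le _ _).trans (hhi _)
    · intro k i _ j _ hij
      simp only [lp.coeFn_smul, Pi.smul_apply, res_apply]
      by_cases h1 : k ∈ S i
      · right
        rw [if_neg (Finset.disjoint_left.mp (hS i j hij) h1), smul_zero]
      · left
        rw [if_neg h1, smul_zero]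
  refine ⟨n, hn, S, hS, by simpa using (key (fun _ => 1) (fun _ => norm_one)).1, fun a ha => ?_⟩
  have h1 : ‖∑ i ∈ range N, a i • y (n i) - ∑ i ∈ range N, a i • res (S i) (y (n i))‖ ≤ 1 := by
    rw [← Finset.sum_sub_distrib]
    refine (norm_sum_le_of_le (range N) (n := fun _ => 1 / ((N : ℝ) + 1)) fun i _ => ?_).trans ?_
    · rw [← smul_sub, norm_smul, ha, one_mul]
      exact (H i).trans (min_le_right _ _)
    · rw [Finset.sum_const, Finset.card_range, nsmul_eq_mul, mul_one_div, div_le_one (by positivity)]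
      linarith
  obtain ⟨k1, k2⟩ := key a ha
  have h2 := abs_norm_sub_norm_le (∑ i ∈ range N, a i • y (n i))
    (∑ i ∈ range N, a i • res (S i) (y (n i)))
  rw [abs_le] at h2
  constructor <;> linarith [h2.1, h2.2]

/-- A weakly unconditionally Cauchy sequence in `ℓ^q` cannot be bounded below. -/
lemma not_wuc (hq : q ≠ ⊤) (y : ℕ → Ell q) {c M : ℝ} (hc : 0 < c) (hlo : ∀ j, c ≤ ‖y j‖)
    (H : ∀ (F : Finset ℕ) (a : ℕ → ℂ), (∀ i, ‖a i‖ = 1) → ‖∑ i ∈ F, a i • y i‖ ≤ M) : False := by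
  have hy : ∀ k, Tendsto (fun j => y j k) atTop (𝓝 0) := by
    intro k
    have hs : Summable fun j => ‖y j k‖ := by
      refine summable_of_sum_le (c := M) (fun _ => norm_nonneg _) fun F => ?_
      have hex : ∀ j, ∃ a : ℂ, ‖a‖ = 1 ∧ a * y j k = (‖y j k‖ : ℝ) := fun j => by
        by_cases h0 : y j k = 0
        · exact ⟨1, norm_one, by simp [h0]⟩
        · refine ⟨(‖y j k‖ : ℝ) / y j k, ?_, div_mul_cancel₀ _ h0⟩
          rw [norm_div, Complex.norm_real, norm_norm, div_self (norm_ne_zero_iff.mpr h0)]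
      choose a ha ha' using hex
      have h1 := (lp.norm_apply_le_norm q_ne_zero (∑ i ∈ F, a i • y i) k).trans (H F a ha)
      rw [lp.coeFn_sum, Finset.sum_apply] at h1
      simp only [lp.coeFn_smul, Pi.smul_apply, smul_eq_mul, ha'] at h1
      rw [← Complex.ofReal_sum, Complex.norm_real] at h1
      exact (le_abs_self _).trans h1
    exact tendsto_zero_iff_norm_tendsto_zero.mpr hs.tendsto_atTop_zero
  have hhi : ∀ j, ‖y j‖ ≤ M := fun j => by simpa using H {j} (fun _ => 1) fun _ => norm_one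
  refine grow (a := 1 / q.toReal) (b := 0) (A := c / 2) (B := 0) (D := M + 1)
    (one_div_pos.mpr (toReal_pos hq)) le_rfl (half_pos hc) fun N _ => ?_
  obtain ⟨n, hn, S, -, -, h⟩ := hump_est hq y hy hc hlo hhi N
  have h1 := (h (fun _ => 1) fun _ => norm_one).1
  have h2 := H ((range N).map ⟨n, hn.injective⟩) (fun _ => 1) fun _ => norm_one
  rw [Finset.sum_map] at h2
  simp only [Function.Embedding.coeFn_mk] at h2
  linarith

end Pool.Agent.H907Z.LpX
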