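import Mathlib
import Pool.Agent.H907Z.LpX.Alg

set_option autoImplicit false

/-!
# Integrated forms as algebra homomorphisms; the regular covariant representation (proofs only)
-/

namespace Pool.Agent.H907Z.LpX

open scoped ENNReal

variable {X : Type} [TopologicalSpace X]

/-- `f u^n` -/
noncomputable def sg (h : X ≃ₜ X) (n : ℤ) (f : C(X, ℂ)) : Alg h :=
  SkewMonoidAlgebra.single (Multiplicative.ofAdd n) (show Coef h from f)

lemma sg_mul (h : X ≃ₜ X) (m n : ℤ) (f g : C(X, ℂ)) :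
    sg h m f * sg h n g = sg h (m + n) (f * alpha h m g) :=
  SkewMonoidAlgebra.single_mul_single

lemma sg_add (h : X ≃ₜ X) (n : ℤ) (f g : C(X, ℂ)) : sg h n (f + g) = sg h n f + sg h n g :=
  SkewMonoidAlgebra.single_add _ _ _

lemma sg_smul (h : X ≃ₜ X) (n : ℤ) (c : ℂ) (f : C(X, ℂ)) : sg h n (c • f) = c • sg h n f :=
  (SkewMonoidAlgebra.smul_single (G := Multiplicative ℤ) (k := Coef h) c
    (Multiplicative.ofAdd n) (show Coef h from f)).symm

lemma sg_zero (h : X ≃ₜ X) (n : ℤ) : sg h n 0 = 0 := SkewMonoidAlgebra.single_zero _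

lemma sg_one (h : X ≃ₜ X) : sg h 0 1 = 1 := rfl

lemma alpha_one (h : X ≃ₜ X) (n : ℤ) : alpha h n 1 = 1 := rfl

lemma alpha_mul (h : X ≃ₜ X) (n : ℤ) (f g : C(X, ℂ)) :
    alpha h n (f * g) = alpha h n f * alpha h n g := rfl

lemma alpha_zero' (h : X ≃ₜ X) (n : ℤ) : alpha h n 0 = 0 := rfl

lemma eq_sum_sg (h : X ≃ₜ X) (a : Alg h) :
    a = ∑ m ∈ a.support, sg h m.toAdd (a.coeff m) := by
  conv_lhs => rw [← a.sum_single, SkewMonoidAlgebra.sum_def']
  rfl

variable [CompactSpace X]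

lemma norm_alpha_le (h : X ≃ₜ X) (n : ℤ) (f : C(X, ℂ)) : ‖alpha h n f‖ ≤ ‖f‖ :=
  (ContinuousMap.norm_le _ (norm_nonneg f)).mpr fun _ => f.norm_coe_le_norm _

section generic

variable {V : Type} [NormedAddCommGroup V] [NormedSpace ℂ V] {h : X ≃ₜ X}

/-- `v^n` as an operator -/
noncomputable def CovRep.vp (R : CovRep h V) (n : ℤ) : V →L[ℂ] V := isoPow R.v n

lemma CovRep.vp_apply (R : CovRep h V) (n : ℤ) (ξ : V) : R.vp n ξ = (R.v ^ n) ξ := rfl

lemma CovRep.norm_vp_apply (R : CovRep h V) (n : ℤ) (ξ : V) : ‖R.vp n ξ‖ = ‖ξ‖ :=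
  (R.v ^ n).norm_map ξ

lemma CovRep.vp_add (R : CovRep h V) (m n : ℤ) (ξ : V) : R.vp (m + n) ξ = R.vp m (R.vp n ξ) := by
  simp only [CovRep.vp_apply, zpow_add, LinearIsometryEquiv.coe_mul, Function.comp_apply]

lemma CovRep.vp_zero (R : CovRep h V) (ξ : V) : R.vp 0 ξ = ξ := by
  simp only [CovRep.vp_apply, zpow_zero, LinearIsometryEquiv.coe_one, id]

lemma CovRep.cov1 (R : CovRep h V) (f : C(X, ℂ)) (ξ : V) :
    R.v (R.rep.1 f ξ) = R.rep.1 (alpha h 1 f) (R.v ξ) := by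
  have := DFunLike.congr_fun (R.cov f) (R.v ξ)
  refine Eq.trans ?_ this
  show _ = (R.v ^ (1 : ℤ)) (R.rep.1 f ((R.v ^ (-1 : ℤ)) (R.v ξ)))
  rw [zpow_one, zpow_neg_one, LinearIsometryEquiv.coe_inv, LinearIsometryEquiv.symm_apply_apply]

lemma CovRep.cov_pow (R : CovRep h V) (n : ℤ) (f : C(X, ℂ)) (ξ : V) :
    R.vp n (R.rep.1 f ξ) = R.rep.1 (alpha h n f) (R.vp n ξ) := by
  have h1 : ∀ ξ, R.vp 1 ξ = R.v ξ := fun ξ => by rw [CovRep.vp_apply, zpow_one]
  have hm : ∀ (f : C(X, ℂ)) ξ, R.vp (-1) (R.rep.1 f ξ) = R.rep.1 (alpha h (-1) f) (R.vp (-1) ξ) := by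
    intro f ξ
    apply R.v.injective
    rw [R.cov1, ← alpha_add, ← h1, ← h1, ← R.vp_add, ← R.vp_add, add_neg_cancel, alpha_zero,
      R.vp_zero, R.vp_zero]
  induction n using Int.induction_on generalizing f ξ with
  | zero => rw [R.vp_zero, R.vp_zero, alpha_zero]
  | succ n ih => rw [R.vp_add, R.vp_add, h1, h1, R.cov1, ih, ← alpha_add]
  | pred n ih => rw [sub_eq_add_neg, R.vp_add, R.vp_add, hm, ih, ← alpha_add]

/-- powers of `v` as a monoid homomorphism -/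
noncomputable def CovRep.vHom (R : CovRep h V) : Multiplicative ℤ →* (V →L[ℂ] V) where
  toFun m := R.vp m.toAdd
  map_one' := ContinuousLinearMap.ext fun ξ => R.vp_zero ξ
  map_mul' m n := ContinuousLinearMap.ext fun ξ => R.vp_add m.toAdd n.toAdd ξ

/-- the integrated form as an algebra homomorphism -/
noncomputable def intHom (R : CovRep h V) : Alg h →ₐ[ℂ] (V →L[ℂ] V) :=
  SkewMonoidAlgebra.liftNCAlgHom (A := Coef h) R.rep.1 R.vHom fun {f m} =>
    ContinuousLinearMap.ext fun ξ => (R.cov_pow m.toAdd f ξ).symm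

lemma intHom_sg (R : CovRep h V) (n : ℤ) (f : C(X, ℂ)) :
    intHom R (sg h n f) = R.rep.1 f * R.vp n :=
  SkewMonoidAlgebra.liftNC_single (k := Coef h) _ _ _ _

lemma intHom_eq (R : CovRep h V) (a : Alg h) : intHom R a = intForm R a := by
  conv_lhs => rw [eq_sum_sg h a, map_sum]
  exact Finset.sum_congr rfl fun m _ => intHom_sg R _ _

lemma intHom_apply (R : CovRep h V) (a : Alg h) (ξ : V) :
    intHom R a ξ = ∑ m ∈ a.support, R.rep.1 (a.coeff m) (R.vp m.toAdd ξ) := by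
  rw [intHom_eq, intForm, _root_.sum_apply]
  rfl

lemma norm_intHom_sg (R : CovRep h V) (n : ℤ) (f : C(X, ℂ)) : ‖intHom R (sg h n f)‖ ≤ ‖f‖ := by
  refine ContinuousLinearMap.opNorm_le_bound _ (norm_nonneg _) fun ξ => ?_
  rw [intHom_sg]
  have := (R.rep.1 f).le_of_opNorm_le (R.rep.2 f) (R.vp n ξ)
  rw [R.norm_vp_apply] at this
  exact this

lemma norm_intHom_le (R : CovRep h V) (a : Alg h) :
    ‖intHom R a‖ ≤ ∑ m ∈ a.support, ‖(show C(X, ℂ) from a.coeff m)‖ := by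
  conv_lhs => rw [eq_sum_sg h a, map_sum]
  exact norm_sum_le_of_le _ fun m _ => norm_intHom_sg R _ _

lemma intNorm_eq (R : CovRep h V) (a : Alg h) : intNorm R a = ‖intHom R a‖ := by
  rw [intHom_eq]; rfl

end generic

section shift

variable (V : Type) [NormedAddCommGroup V] [NormedSpace ℂ V] (p : ℝ≥0∞) [Fact (1 ≤ p)]

omit [NormedSpace ℂ V] [Fact (1 ≤ p)] in
lemma memℓp_shift (m : ℤ) (ξ : lp (fun _ : ℤ => V) p) : Memℓp (fun n : ℤ => ξ (n - m)) p := by
  have h := lp.memℓp ξ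
  unfold Memℓp at h ⊢
  split_ifs at h ⊢
  · exact h.preimage (f := fun n : ℤ => n - m) (sub_left_injective.injOn)
  · exact h.mono (by rintro _ ⟨n, rfl⟩; exact ⟨n - m, rfl⟩)
  · exact (Equiv.subRight m).summable_iff.mpr h

omit [NormedSpace ℂ V] in
lemma norm_shift (m : ℤ) (ξ : lp (fun _ : ℤ => V) p) :
    ‖(⟨fun n : ℤ => ξ (n - m), memℓp_shift V p m ξ⟩ : lp (fun _ : ℤ => V) p)‖ = ‖ξ‖ := by
  have hp0 : p ≠ 0 := (zero_lt_one.trans_le Fact.out).ne'
  rcases p.trichotomy with (rfl | rfl | hp)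
  · exact absurd rfl hp0
  · rw [lp.norm_eq_ciSup, lp.norm_eq_ciSup]
    exact (Equiv.subRight m).iSup_comp (g := fun n => ‖ξ n‖)
  · rw [lp.norm_eq_tsum_rpow hp, lp.norm_eq_tsum_rpow hp]
    exact congrArg (· ^ (1 / p.toReal)) ((Equiv.subRight m).tsum_eq fun n => ‖ξ n‖ ^ p.toReal)

/-- The shift `(v ξ)(n) = ξ(n - 1)` on `ℓ^p(ℤ, V)`. -/
noncomputable def shiftEquiv : lp (fun _ : ℤ => V) p ≃ₗᵢ[ℂ] lp (fun _ : ℤ => V) p where
  toFun ξ := ⟨fun n : ℤ => ξ (n - 1), memℓp_shift V p 1 ξ⟩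
  invFun ξ := ⟨fun n : ℤ => ξ (n - (-1)), memℓp_shift V p (-1) ξ⟩
  map_add' _ _ := rfl
  map_smul' _ _ := rfl
  left_inv ξ := lp.ext (funext fun n => congrArg ξ (by ring))
  right_inv ξ := lp.ext (funext fun n => congrArg ξ (by ring))
  norm_map' ξ := norm_shift V p 1 ξ

lemma shift_pow_apply (m : ℤ) (ξ : lp (fun _ : ℤ => V) p) (n : ℤ) :
    (shiftEquiv V p ^ m) ξ n = ξ (n - m) := by
  induction m using Int.induction_on generalizing ξ n with
  | zero => simp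
  | succ m ih =>
    rw [zpow_add_one, LinearIsometryEquiv.coe_mul, Function.comp_apply, ih]
    exact congrArg ξ (by ring)
  | pred m ih =>
    rw [zpow_sub_one, LinearIsometryEquiv.coe_mul, Function.comp_apply, ih]
    exact congrArg ξ (by ring)

end shift

section reg

variable {V : Type} [NormedAddCommGroup V] [NormedSpace ℂ V]
  (p : ℝ≥0∞) [Fact (1 ≤ p)] (π : Rep X V) (h : X ≃ₜ X)

/-- `(π(f) ξ)(n) = π₀(α^{-n}(f)) ξ(n)` on `ℓ^p(ℤ, V)`. -/
noncomputable def diagOp (f : C(X, ℂ)) :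
    lp (fun _ : ℤ => V) p →L[ℂ] lp (fun _ : ℤ => V) p :=
  lp.mapCLM p (fun n : ℤ => π.1 (alpha h (-n) f)) (norm_nonneg f)
    fun n => (π.2 _).trans (norm_alpha_le h (-n) f)

/-- `f ↦ π(f)` as an algebra homomorphism. -/
noncomputable def diagHom :
    C(X, ℂ) →ₐ[ℂ] (lp (fun _ : ℤ => V) p →L[ℂ] lp (fun _ : ℤ => V) p) where
  toFun f := diagOp p π h f
  map_one' := ContinuousLinearMap.ext fun ξ => lp.ext (funext fun n =>
    DFunLike.congr_fun (map_one π.1) (ξ n))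
  map_mul' f g := ContinuousLinearMap.ext fun ξ => lp.ext (funext fun n =>
    DFunLike.congr_fun (map_mul π.1 (alpha h (-n) f) (alpha h (-n) g)) (ξ n))
  map_zero' := ContinuousLinearMap.ext fun ξ => lp.ext (funext fun n =>
    DFunLike.congr_fun (map_zero π.1) (ξ n))
  map_add' f g := ContinuousLinearMap.ext fun ξ => lp.ext (funext fun n =>
    DFunLike.congr_fun (map_add π.1 (alpha h (-n) f) (alpha h (-n) g)) (ξ n))
  commutes' c := ContinuousLinearMap.ext fun ξ => lp.ext (funext fun n =>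
    DFunLike.congr_fun (π.1.commutes c) (ξ n))

/-- the regular covariant representation -/
noncomputable def regCov : CovRep h (lp (fun _ : ℤ => V) p) where
  rep := ⟨diagHom p π h, fun f => lp.norm_mapCLM_le p (fun n : ℤ => π.1 (alpha h (-n) f))
    (norm_nonneg f) fun n => (π.2 _).trans (norm_alpha_le h (-n) f)⟩
  v := shiftEquiv V p
  cov f := ContinuousLinearMap.ext fun ξ => lp.ext (funext fun n => by
    show (shiftEquiv V p ^ (1 : ℤ)) (diagOp p π h f ((shiftEquiv V p ^ (-1 : ℤ)) ξ)) n =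
      π.1 (alpha h (-n) (alpha h 1 f)) (ξ n)
    rw [shift_pow_apply]
    show π.1 (alpha h (-(n - 1)) f) ((shiftEquiv V p ^ (-1 : ℤ)) ξ (n - 1)) = _
    rw [shift_pow_apply, ← alpha_add, show -(n - 1) = -n + 1 by ring, show n - 1 - (-1) = n by ring])

lemma regCov_apply (a : Alg h) (ξ : lp (fun _ : ℤ => V) p) (n : ℤ) :
    intHom (regCov p π h) a ξ n = regApply π h a ξ n := by
  rw [intHom_apply, lp.coeFn_sum, Finset.sum_apply]
  refine Finset.sum_congr rfl fun m _ => ?_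
  rw [← shift_pow_apply V p m.toAdd ξ n]
  rfl

lemma regNorm_eq (a : Alg h) : regNorm p π h a = ‖intHom (regCov p π h) a‖ := by
  rw [← ContinuousLinearMap.sSup_unitClosedBall_eq_norm]
  unfold regNorm
  congr 1
  ext r
  constructor
  · rintro ⟨ξ, η, h1, h2, rfl⟩
    refine ⟨ξ, mem_closedBall_zero_iff.mpr h1, ?_⟩
    have : η = intHom (regCov p π h) a ξ :=
      lp.ext (funext fun n => (h2 n).trans (regCov_apply p π h a ξ n).symm)
    rw [this]
  · rintro ⟨ξ, h1, rfl⟩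
    exact ⟨ξ, _, mem_closedBall_zero_iff.mp h1, regCov_apply p π h a ξ, rfl⟩

end reg

end Pool.Agent.H907Z.LpX
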