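import Mathlib

set_option autoImplicit false

/-!
# Choices of signs: the parallelogram law and Riesz products
-/

namespace Pool.Agent.H907Z.LpX

open Finset

lemma norm_sign {e : ℂ} (h : e = 1 ∨ e = -1) : ‖e‖ = 1 := by
  rcases h with rfl | rfl <;> simp

section hilbert

variable {H : Type*} [NormedAddCommGroup H] [InnerProductSpace ℂ H] {ι : Type*}

lemma signs_aux (y : ι → H) (F : Finset ι) (s : ℝ) :
    ∃ ε : ι → ℂ, (∀ i, ε i = 1 ∨ ε i = -1) ∧
      s * ‖∑ i ∈ F, ε i • y i‖ ^ 2 ≤ s * ∑ i ∈ F, ‖y i‖ ^ 2 := by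
  classical
  induction F using Finset.induction_on with
  | empty => exact ⟨fun _ => 1, fun _ => Or.inl rfl, by simp⟩
  | insert j F hj ih =>
    obtain ⟨ε, hε, H1⟩ := ih
    have key : ∀ e : ℂ, ∑ i ∈ insert j F, Function.update ε j e i • y i =
        ∑ i ∈ F, ε i • y i + e • y j := by
      intro e
      rw [Finset.sum_insert hj, Function.update_self, add_comm]
      congr 1
      exact Finset.sum_congr rfl fun i hi => by
        rw [Function.update_of_ne (ne_of_mem_of_not_mem hi hj)]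
    have hu : ∀ e : ℂ, e = 1 ∨ e = -1 → ∀ i, Function.update ε j e i = 1 ∨
        Function.update ε j e i = -1 := by
      intro e he i
      by_cases h : i = j
      · subst h; simpa using he
      · rw [Function.update_of_ne h]; exact hε i
    have par := parallelogram_law_with_norm ℂ (∑ i ∈ F, ε i • y i) (y j)
    rw [Finset.sum_insert hj]
    by_cases h : s * ‖∑ i ∈ F, ε i • y i + y j‖ ^ 2 ≤ s * ‖∑ i ∈ F, ε i • y i - y j‖ ^ 2
    · refine ⟨Function.update ε j 1, hu 1 (Or.inl rfl), ?_⟩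
      rw [key, one_smul]
      have : s * ‖∑ i ∈ F, ε i • y i + y j‖ ^ 2 + s * ‖∑ i ∈ F, ε i • y i - y j‖ ^ 2 =
        2 * (s * ‖∑ i ∈ F, ε i • y i‖ ^ 2 + s * ‖y j‖ ^ 2) := by linear_combination s * par
      linarith
    · refine ⟨Function.update ε j (-1), hu (-1) (Or.inr rfl), ?_⟩
      rw [key, neg_one_smul, ← sub_eq_add_neg]
      have : s * ‖∑ i ∈ F, ε i • y i + y j‖ ^ 2 + s * ‖∑ i ∈ F, ε i • y i - y j‖ ^ 2 =
        2 * (s * ‖∑ i ∈ F, ε i • y i‖ ^ 2 + s * ‖y j‖ ^ 2) := by linear_combination s * par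
      linarith

lemma signs_le (y : ι → H) (F : Finset ι) :
    ∃ ε : ι → ℂ, (∀ i, ε i = 1 ∨ ε i = -1) ∧ ‖∑ i ∈ F, ε i • y i‖ ^ 2 ≤ ∑ i ∈ F, ‖y i‖ ^ 2 := by
  simpa using signs_aux y F 1

lemma signs_ge (y : ι → H) (F : Finset ι) :
    ∃ ε : ι → ℂ, (∀ i, ε i = 1 ∨ ε i = -1) ∧ ∑ i ∈ F, ‖y i‖ ^ 2 ≤ ‖∑ i ∈ F, ε i • y i‖ ^ 2 := by
  simpa using signs_aux y F (-1)

end hilbert

/-- all sign vectors of length `N` -/
noncomputable def sgns (N : ℕ) : Finset (Fin N → ℂ) :=
  Fintype.piFinset fun _ => ({1, -1} : Finset ℂ)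

lemma mem_sgns {N : ℕ} {ε : Fin N → ℂ} (h : ε ∈ sgns N) (i : Fin N) : ε i = 1 ∨ ε i = -1 := by
  have := Fintype.mem_piFinset.mp h i
  simpa using this

lemma one_ne_neg_one_complex : (1 : ℂ) ≠ -1 := by norm_num

lemma card_sgns (N : ℕ) : (sgns N).card = 2 ^ N := by
  rw [sgns, Fintype.card_piFinset, Finset.prod_const, Finset.card_pair one_ne_neg_one_complex,
    Finset.card_univ, Fintype.card_fin]

/-- Riesz product -/
noncomputable def riesz {A : Type*} [CommRing A] [Algebra ℂ A] {N : ℕ} (w : Fin N → A) (t : ℂ)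
    (ε : Fin N → ℂ) : A := ∏ k, (1 + (t * ε k) • w k)

lemma riesz_avg {A : Type*} [CommRing A] [Algebra ℂ A] {N : ℕ} (w : Fin N → A) (t : ℂ)
    (j : Fin N) : ∑ ε ∈ sgns N, ε j • riesz w t ε = ((2 : ℂ) ^ N * t) • w j := by
  classical
  let f : Fin N → ℂ → A := fun k e => (if k = j then e else 1) • (1 + (t * e) • w k)
  have h1 : ∀ ε : Fin N → ℂ, ε j • riesz w t ε = ∏ k, f k (ε k) := by
    intro ε
    simp only [f, riesz]
    rw [Finset.prod_smul, Finset.prod_ite_eq', if_pos (Finset.mem_univ j)]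
  have h2 : ∀ k, ∑ e ∈ ({1, -1} : Finset ℂ), f k e =
      (2 : ℂ) • (if k = j then t • w j else 1) := by
    intro k
    rw [Finset.sum_pair one_ne_neg_one_complex]
    by_cases h : k = j
    · subst h
      simp only [f, if_true]
      module
    · simp only [f, if_neg h]
      module
  simp only [h1]
  rw [sgns, ← Finset.prod_univ_sum]
  simp only [h2]
  rw [Finset.prod_smul, Finset.prod_ite_eq', if_pos (Finset.mem_univ j), Finset.prod_const,
    Finset.card_univ, Fintype.card_fin, smul_smul]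

lemma norm_one_add_I (a : ℝ) : ‖1 + Complex.I * a‖ ≤ Real.exp (a ^ 2 / 2) := by
  have h1 : ‖1 + Complex.I * a‖ ^ 2 = 1 + a ^ 2 := by
    rw [Complex.sq_norm, Complex.normSq_apply]
    simp
    ring
  have h2 : Real.exp (a ^ 2 / 2) ^ 2 = Real.exp (a ^ 2) := by
    rw [← Real.exp_nat_mul]; congr 1; push_cast; ring
  refine (pow_le_pow_iff_left₀ (norm_nonneg _) (Real.exp_pos _).le two_ne_zero).mp ?_
  rw [h1, h2]
  linarith [Real.add_one_le_exp (a ^ 2)]

lemma norm_riesz_le {X : Type} [TopologicalSpace X] [CompactSpace X] {N : ℕ} (hN : 1 ≤ N)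
    (w : Fin N → C(X, ℂ)) (hw : ∀ k x, (w k x).im = 0) (hw1 : ∀ k x, ‖w k x‖ ≤ 1)
    {ε : Fin N → ℂ} (hε : ε ∈ sgns N) :
    ‖riesz w (Complex.I * ((N : ℝ) ^ (-(1 / 2) : ℝ) : ℝ)) ε‖ ≤ 2 := by
  refine (ContinuousMap.norm_le _ zero_le_two).mpr fun x => ?_
  have hN0 : (0 : ℝ) < N := by exact_mod_cast hN
  set s : ℝ := (N : ℝ) ^ (-(1 / 2) : ℝ) with hs
  have hs2 : s ^ 2 = 1 / N := by
    rw [hs, ← Real.rpow_natCast, ← Real.rpow_mul hN0.le]
    norm_num
    exact Real.rpow_neg_one _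
  have h1 : ∀ k, ‖(1 + (Complex.I * s * ε k) • w k) x‖ ≤ Real.exp (1 / N / 2) := by
    intro k
    have hr : w k x = ((w k x).re : ℂ) := Complex.ext rfl (by simp [hw k x])
    have hb : |(w k x).re| ≤ 1 := (Complex.abs_re_le_norm _).trans (hw1 k x)
    have hb2 : (w k x).re ^ 2 ≤ 1 := by rw [← sq_abs]; nlinarith [abs_nonneg (w k x).re]
    have hle : ∀ a : ℝ, a ^ 2 = (s * (w k x).re) ^ 2 → ‖1 + Complex.I * a‖ ≤ Real.exp (1 / N / 2) := by
      intro a ha
      refine (norm_one_add_I a).trans (Real.exp_le_exp.mpr ?_)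
      rw [ha, mul_pow, hs2]
      have : (0 : ℝ) ≤ 1 / N := by positivity
      nlinarith
    simp only [ContinuousMap.add_apply, ContinuousMap.one_apply, ContinuousMap.smul_apply,
      smul_eq_mul]
    rw [hr]
    rcases mem_sgns hε k with h | h
    · rw [h]
      convert hle (s * (w k x).re) rfl using 2
      push_cast; ring
    · rw [h]
      convert hle (-(s * (w k x).re)) (by ring) using 2
      push_cast; ring
  rw [riesz, ContinuousMap.prod_apply, norm_prod]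
  refine (Finset.prod_le_prod (fun _ _ => norm_nonneg _) fun k _ => h1 k).trans ?_
  rw [Finset.prod_const, Finset.card_univ, Fintype.card_fin, ← Real.exp_nat_mul,
    show (N : ℝ) * (1 / N / 2) = 1 / 2 by field_simp]
  have h3 : Real.exp (1 / 2) ^ 2 = Real.exp 1 := by rw [← Real.exp_nat_mul]; norm_num
  have h4 := Real.exp_one_lt_d9
  nlinarith [Real.exp_pos (1 / 2)]

lemma norm_le_of_avg {E : Type*} [NormedAddCommGroup E] [NormedSpace ℂ E] {N : ℕ}
    (u : (Fin N → ℂ) → E) (v : E) {B : ℝ} (H : ∑ ε ∈ sgns N, u ε = ((2 : ℂ) ^ N) • v)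
    (hB : ∀ ε ∈ sgns N, ‖u ε‖ ≤ B) : ‖v‖ ≤ B := by
  have h1 := norm_sum_le_of_le (sgns N) hB
  rw [H, norm_smul, Finset.sum_const, card_sgns, nsmul_eq_mul, norm_pow, Complex.norm_two] at h1
  push_cast at h1
  exact le_of_mul_le_mul_left h1 (by positivity)

end Pool.Agent.H907Z.LpX
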