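import Mathlib
import Pool.Agent.H907Z.LpX.Reg
import Pool.Agent.H907Z.LpX.Hump
import Pool.Agent.H907Z.LpX.Signs

set_option autoImplicit false

/-!
# Bounded representations of `C_c(ℤ, C(X))` with `ℓ^p`-type column and row estimates
-/

namespace Pool.Agent.H907Z.LpX

open Filter Topology Finset

section top

variable {X : Type} [TopologicalSpace X]

/-- the translates `α^i g`, `i ∈ F`, have pairwise zero products -/
def Free (h : X ≃ₜ X) (F : Finset ℤ) (g : C(X, ℂ)) : Prop :=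
  ∀ i ∈ F, ∀ j ∈ F, i ≠ j → alpha h i g * alpha h j g = 0

/-- `∑ a_i u^i g` -/
noncomputable def col (h : X ≃ₜ X) (F : Finset ℤ) (a : ℤ → ℂ) (g : C(X, ℂ)) : Alg h :=
  ∑ i ∈ F, sg h i (a i • alpha h i g)

/-- `∑ b_i g u^{-i}` -/
noncomputable def row (h : X ≃ₜ X) (F : Finset ℤ) (b : ℤ → ℂ) (g : C(X, ℂ)) : Alg h :=
  ∑ i ∈ F, sg h (-i) (b i • g)

lemma alpha_smul (h : X ≃ₜ X) (n : ℤ) (c : ℂ) (f : C(X, ℂ)) :
    alpha h n (c • f) = c • alpha h n f := rfl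

/-- no periodic points -/
def Aper (h : X ≃ₜ X) : Prop := ∀ x, ∀ n : ℤ, n ≠ 0 → (h ^ n) x ≠ x

lemma aper_of_minimal [T1Space X] [Infinite X] {h : X ≃ₜ X} (hm : IsMinimal h) : Aper h := by
  intro x n hn hx
  have hk : ∀ k : ℤ, (h ^ (n * k)) x = x := by
    intro k
    have hx' : (h ^ (-n)) x = x := by
      conv_lhs => rw [← hx]
      rw [← Homeomorph.mul_apply, ← zpow_add, neg_add_cancel, zpow_zero, Homeomorph.one_apply]
    induction k using Int.induction_on with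
    | zero => rw [mul_zero, zpow_zero, Homeomorph.one_apply]
    | succ k ih => rw [mul_add, mul_one, zpow_add, Homeomorph.mul_apply, hx, ih]
    | pred k ih => rw [mul_sub, mul_one, sub_eq_add_neg, zpow_add, Homeomorph.mul_apply, hx', ih]
  have hfin : (Set.range fun m : ℤ => (h ^ m) x).Finite := by
    refine ((Set.finite_Ico (0 : ℤ) |n|).image fun m : ℤ => (h ^ m) x).subset ?_
    rintro _ ⟨m, rfl⟩
    refine ⟨m % n, ⟨Int.emod_nonneg _ hn, Int.emod_lt_abs _ hn⟩, ?_⟩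
    conv_rhs => rw [← Int.emod_add_mul_ediv m n]
    simp only
    rw [zpow_add, Homeomorph.mul_apply, hk]
  have h1 := hfin.isClosed.closure_eq
  rw [(hm x).closure_eq] at h1
  rw [← h1] at hfin
  exact Set.infinite_univ hfin

end top

section bd

variable {X : Type} [TopologicalSpace X] [CompactSpace X] {h : X ≃ₜ X}
  {E : Type} [NormedAddCommGroup E] [NormedSpace ℂ E]

/-- the estimates satisfied by a bounded representation of `F^p(ℤ, X, h)`, with `θ = 1 / p` -/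
structure Bd (ψ : Alg h →ₙₐ[ℂ] (E →L[ℂ] E)) (θ C : ℝ) : Prop where
  pos : 0 < C
  sgl : ∀ n f, ‖ψ (sg h n f)‖ ≤ C * ‖f‖
  col : ∀ F a g, (∀ i, ‖a i‖ = 1) → ‖g‖ ≤ 1 → Free h F g →
    ‖ψ (col h F a g)‖ ≤ C * (F.card : ℝ) ^ θ
  row : ∀ F a g, (∀ i, ‖a i‖ = 1) → ‖g‖ ≤ 1 → Free h F g →
    ‖ψ (row h F a g)‖ ≤ C * (F.card : ℝ) ^ (1 - θ)

variable (ψ : Alg h →ₙₐ[ℂ] (E →L[ℂ] E))

/-- `π(f)` -/
noncomputable def piOp (f : C(X, ℂ)) : E →L[ℂ] E := ψ (sg h 0 f)

omit [CompactSpace X] in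
lemma piOp_mul (f g : C(X, ℂ)) (ξ : E) : piOp ψ (f * g) ξ = piOp ψ f (piOp ψ g ξ) := by
  have : sg h 0 (f * g) = sg h 0 f * sg h 0 g := by rw [sg_mul, add_zero, alpha_zero]
  rw [piOp, this, map_mul]
  rfl

omit [CompactSpace X] in
lemma piOp_add (f g : C(X, ℂ)) (ξ : E) : piOp ψ (f + g) ξ = piOp ψ f ξ + piOp ψ g ξ := by
  rw [piOp, sg_add, map_add]
  rfl

omit [CompactSpace X] in
lemma piOp_smul (c : ℂ) (f : C(X, ℂ)) (ξ : E) : piOp ψ (c • f) ξ = c • piOp ψ f ξ := by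
  rw [piOp, sg_smul, map_smul]
  rfl

/-- `f ↦ π(f) ξ` as a linear map -/
noncomputable def orb (ξ : E) : C(X, ℂ) →ₗ[ℂ] E where
  toFun f := piOp ψ f ξ
  map_add' f g := piOp_add ψ f g ξ
  map_smul' c f := piOp_smul ψ c f ξ

omit [CompactSpace X] in
lemma orb_apply (ξ : E) (f : C(X, ℂ)) : orb ψ ξ f = piOp ψ f ξ := rfl

omit [CompactSpace X] in
lemma orb_mul (ξ : E) (f g : C(X, ℂ)) : orb ψ ξ (f * g) = piOp ψ f (orb ψ ξ g) := piOp_mul ψ f g ξ

variable {ψ} {θ C : ℝ}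

lemma Bd.norm_piOp (B : Bd ψ θ C) (f : C(X, ℂ)) (ξ : E) : ‖piOp ψ f ξ‖ ≤ C * ‖f‖ * ‖ξ‖ :=
  (piOp ψ f).le_of_opNorm_le (B.sgl 0 f) ξ

lemma Bd.norm_piOp_one (B : Bd ψ θ C) {f : C(X, ℂ)} (hf : ‖f‖ ≤ 1) (ξ : E) :
    ‖piOp ψ f ξ‖ ≤ C * ‖ξ‖ :=
  (B.norm_piOp f ξ).trans (mul_le_mul_of_nonneg_right
    (mul_le_of_le_one_right B.pos.le hf) (norm_nonneg _))

lemma Bd.est (B : Bd ψ θ C) {F : Finset ℤ} {g : C(X, ℂ)} (hg : ‖g‖ ≤ 1) (hF : Free h F g)
    {η : E} (hη : piOp ψ g η = η) (a : ℤ → ℂ) (ha : ∀ i, ‖a i‖ = 1) :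
    ‖∑ i ∈ F, a i • ψ (sg h i 1) η‖ ≤ C * (F.card : ℝ) ^ θ * ‖η‖ ∧
      (F.card : ℝ) * ‖η‖ ≤ C * (F.card : ℝ) ^ (1 - θ) * ‖∑ i ∈ F, a i • ψ (sg h i 1) η‖ := by
  have h1 : ∀ i, ψ (sg h i 1) η = ψ (sg h i (alpha h i g)) η := by
    intro i
    have : sg h i (alpha h i g) = sg h i 1 * sg h 0 g := by rw [sg_mul, add_zero, one_mul]
    rw [this, map_mul]
    conv_lhs => rw [← hη]
    rfl
  have h2 : ∑ i ∈ F, a i • ψ (sg h i 1) η = ψ (LpX.col h F a g) η := by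
    rw [LpX.col, map_sum, _root_.sum_apply]
    exact Finset.sum_congr rfl fun i _ => by rw [sg_smul, map_smul, h1]; rfl
  have hb : ∀ i, ‖(a i)⁻¹‖ = 1 := fun i => by rw [norm_inv, ha, inv_one]
  have h3 : LpX.row h F (fun i => (a i)⁻¹) g * LpX.col h F a g = F.card • sg h 0 (g * g) := by
    rw [LpX.row, LpX.col, Finset.sum_mul_sum]
    have : ∀ i ∈ F, ∑ j ∈ F, sg h (-i) ((a i)⁻¹ • g) * sg h j (a j • alpha h j g) =
        sg h 0 (g * g) := by
      intro i hi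
      rw [Finset.sum_eq_single_of_mem i hi]
      · have h0 : a i ≠ 0 := norm_ne_zero_iff.mp (by rw [ha]; exact one_ne_zero)
        rw [sg_mul, alpha_smul, smul_mul_smul_comm, inv_mul_cancel₀ h0, one_smul, ← alpha_add,
          neg_add_cancel, alpha_zero]
      · intro j hj hji
        have : g * alpha h (-i) (alpha h j g) = 0 := by
          have h4 := congrArg (alpha h (-i)) (hF i hi j hj hji.symm)
          rwa [alpha_mul, ← alpha_add, neg_add_cancel, alpha_zero, alpha_zero'] at h4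
        rw [sg_mul, alpha_smul, smul_mul_smul_comm, this, smul_zero, sg_zero]
    rw [Finset.sum_congr rfl this, Finset.sum_const]
  constructor
  · rw [h2]
    exact (ψ _).le_of_opNorm_le (B.col F a g ha hg hF) η
  · have h4 : ψ (LpX.row h F (fun i => (a i)⁻¹) g) (ψ (LpX.col h F a g) η) = (F.card : ℂ) • η := by
      have h6 : ψ (LpX.row h F (fun i => (a i)⁻¹) g * LpX.col h F a g) =
          ψ (LpX.row h F (fun i => (a i)⁻¹) g) * ψ (LpX.col h F a g) := map_mul ψ _ _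
      refine (DFunLike.congr_fun h6 η).symm.trans ?_
      rw [h3, map_nsmul, Nat.cast_smul_eq_nsmul]
      show F.card • piOp ψ (g * g) η = _
      rw [piOp_mul, hη, hη]
    have h5 := (ψ _).le_of_opNorm_le (B.row F _ g hb hg hF) (ψ (LpX.col h F a g) η)
    rw [h4, norm_smul, Complex.norm_natCast] at h5
    rw [h2]
    exact h5

lemma Bd.est' (B : Bd ψ θ C) {F : Finset ℤ} (hne : F.Nonempty) {g : C(X, ℂ)} (hg : ‖g‖ ≤ 1)
    (hF : Free h F g) {η : E} (hη : piOp ψ g η = η) (a : ℤ → ℂ) (ha : ∀ i, ‖a i‖ = 1) :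
    (F.card : ℝ) ^ θ * ‖η‖ ≤ C * ‖∑ i ∈ F, a i • ψ (sg h i 1) η‖ := by
  have h1 := (B.est hg hF hη a ha).2
  have h0 : (0 : ℝ) < F.card := by exact_mod_cast hne.card_pos
  have h2 : (F.card : ℝ) = (F.card : ℝ) ^ (1 - θ) * (F.card : ℝ) ^ θ := by
    rw [← Real.rpow_add h0]; simp
  have h3 : 0 < (F.card : ℝ) ^ (1 - θ) := Real.rpow_pos_of_pos h0 _
  refine le_of_mul_le_mul_left ?_ h3
  rw [← mul_assoc, ← h2]
  linarith

omit [CompactSpace X] in
lemma exists_fixed (hψ : ∃ a, ψ a ≠ 0) : ∃ ξ : E, ξ ≠ 0 ∧ piOp ψ 1 ξ = ξ := by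
  obtain ⟨a, ha⟩ := hψ
  obtain ⟨v, hv⟩ : ∃ v, ψ a v ≠ 0 := by
    by_contra hcon
    push Not at hcon
    exact ha (ContinuousLinearMap.ext hcon)
  refine ⟨ψ a v, hv, ?_⟩
  have : ψ (1 * a) = ψ 1 * ψ a := map_mul ψ 1 a
  have e : (1 : Alg h) * a = a := @one_mul (Alg h) (inferInstance : Ring (Alg h)).toMulOneClass a
  rw [e] at this
  exact (DFunLike.congr_fun this v).symm

lemma exists_support_pt {ξ : E} (h0 : ξ ≠ 0) (h1 : piOp ψ 1 ξ = ξ) :
    ∃ y : X, ∀ g : C(X, ℂ), g y ≠ 0 → piOp ψ g ξ ≠ 0 := by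
  by_contra hcon
  push Not at hcon
  choose g hg hg0 using hcon
  obtain ⟨t, ht⟩ := isCompact_univ.elim_finite_subcover (fun y => {x | g y x ≠ 0})
    (fun y => isOpen_ne_fun (g y).continuous continuous_const)
    fun x _ => Set.mem_iUnion.mpr ⟨x, hg x⟩
  let G : C(X, ℂ) := ∑ y ∈ t, star (g y) * g y
  have hG : ∀ x, G x ≠ 0 := by
    intro x
    obtain ⟨y, hy, hx⟩ := Set.mem_iUnion₂.mp (ht (Set.mem_univ x))
    have e : G x = ((∑ y ∈ t, Complex.normSq (g y x) : ℝ) : ℂ) := by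
      simp only [G, ContinuousMap.sum_apply, ContinuousMap.mul_apply, ContinuousMap.star_apply,
        Complex.ofReal_sum]
      exact Finset.sum_congr rfl fun y _ => by
        rw [Complex.normSq_eq_conj_mul_self]; rfl
    rw [e, Complex.ofReal_ne_zero]
    exact (Finset.sum_pos' (f := fun y => Complex.normSq (g y x)) (fun _ _ => Complex.normSq_nonneg _)
      ⟨y, hy, Complex.normSq_pos.mpr hx⟩).ne'
  let Gi : C(X, ℂ) := ⟨fun x => (G x)⁻¹, G.continuous.inv₀ hG⟩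
  have h2 : (1 : C(X, ℂ)) = ∑ y ∈ t, (Gi * star (g y)) * g y := by
    simp only [mul_assoc, ← Finset.mul_sum]
    ext x
    exact (inv_mul_cancel₀ (hG x)).symm
  apply h0
  rw [← h1, ← orb_apply, h2, map_sum]
  exact Finset.sum_eq_zero fun y _ => by
    rw [orb_mul, orb_apply, hg0, map_zero]

end bd

section metric

variable {X : Type} [MetricSpace X]

/-- a real bump function: `1` on `dist x y ≤ a`, `0` on `b ≤ dist x y` -/
noncomputable def bump (y : X) (a b : ℝ) : C(X, ℂ) :=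
  ⟨fun x => ((max 0 (min 1 ((b - dist x y) / (b - a))) : ℝ) : ℂ), by fun_prop⟩

lemma bump_one {y x : X} {a b : ℝ} (hab : a < b) (hx : dist x y ≤ a) : bump y a b x = 1 := by
  have : 1 ≤ (b - dist x y) / (b - a) := by rw [le_div_iff₀ (sub_pos.mpr hab)]; linarith
  simp [bump, min_eq_left this]

lemma bump_zero {y x : X} {a b : ℝ} (hab : a < b) (hx : b ≤ dist x y) : bump y a b x = 0 := by
  have : (b - dist x y) / (b - a) ≤ 0 := div_nonpos_of_nonpos_of_nonneg (by linarith) (by linarith)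
  have h2 : min 1 ((b - dist x y) / (b - a)) ≤ 0 := (min_le_right _ _).trans this
  show ((max 0 (min 1 ((b - dist x y) / (b - a))) : ℝ) : ℂ) = 0
  rw [max_eq_left h2, Complex.ofReal_zero]

/-- real-valued with values in `[0, 1]` -/
def Unit01 (f : C(X, ℂ)) : Prop := ∀ x, ∃ t : ℝ, 0 ≤ t ∧ t ≤ 1 ∧ f x = t

lemma bump_unit (y : X) (a b : ℝ) : Unit01 (bump y a b) := fun _ =>
  ⟨_, le_max_left _ _, max_le zero_le_one (min_le_left _ _), rfl⟩

lemma Unit01.norm_apply_le {f : C(X, ℂ)} (hf : Unit01 f) (x : X) : ‖f x‖ ≤ 1 := by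
  obtain ⟨t, h0, h1, ht⟩ := hf x
  rw [ht, Complex.norm_real, Real.norm_eq_abs, abs_of_nonneg h0]
  exact h1

lemma Unit01.norm_le [CompactSpace X] {f : C(X, ℂ)} (hf : Unit01 f) : ‖f‖ ≤ 1 :=
  (ContinuousMap.norm_le _ zero_le_one).mpr hf.norm_apply_le

lemma Unit01.mul {f g : C(X, ℂ)} (hf : Unit01 f) (hg : Unit01 g) : Unit01 (f * g) := fun x => by
  obtain ⟨s, h0, h1, hs⟩ := hf x
  obtain ⟨t, h2, h3, ht⟩ := hg x
  exact ⟨s * t, mul_nonneg h0 h2, mul_le_one₀ h1 h2 h3, by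
    rw [ContinuousMap.mul_apply, hs, ht, Complex.ofReal_mul]⟩

lemma Unit01.one_sub {f : C(X, ℂ)} (hf : Unit01 f) : Unit01 (1 - f) := fun x => by
  obtain ⟨s, h0, h1, hs⟩ := hf x
  exact ⟨1 - s, by linarith, by linarith, by
    rw [ContinuousMap.sub_apply, hs, ContinuousMap.one_apply]; push_cast; rfl⟩

lemma free_small {h : X ≃ₜ X} (hA : Aper h) (y : X) (F : Finset ℤ) :
    ∃ r > 0, ∀ g : C(X, ℂ), (∀ x, r ≤ dist x y → g x = 0) → Free h F g := by
  have key : ∀ i j : ℤ, i ≠ j → ∀ᶠ r in 𝓝[>] (0 : ℝ),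
      ∀ a b, dist a y < r → dist b y < r → (h ^ i) a ≠ (h ^ j) b := by
    intro i j hij
    have hne : (h ^ i) y ≠ (h ^ j) y := by
      intro he
      apply hA y (-j + i) (by omega)
      rw [zpow_add, Homeomorph.mul_apply, he, ← Homeomorph.mul_apply, ← zpow_add, neg_add_cancel,
        zpow_zero, Homeomorph.one_apply]
    have ho : IsOpen {z : X × X | (h ^ i) z.1 ≠ (h ^ j) z.2} :=
      isOpen_ne_fun (by fun_prop) (by fun_prop)
    obtain ⟨ε, hε, hb⟩ := Metric.isOpen_iff.mp ho (y, y) hne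
    filter_upwards [Ioo_mem_nhdsGT hε] with r hr a b ha hb'
    refine hb (a := (a, b)) ?_
    rw [Metric.mem_ball, Prod.dist_eq]
    exact max_lt (ha.trans hr.2) (hb'.trans hr.2)
  have h1 : ∀ᶠ r in 𝓝[>] (0 : ℝ), ∀ i ∈ F, ∀ j ∈ F, i ≠ j →
      ∀ a b, dist a y < r → dist b y < r → (h ^ i) a ≠ (h ^ j) b := by
    rw [eventually_all_finset]
    intro i _
    rw [eventually_all_finset]
    intro j _
    by_cases hij : i = j
    · exact Eventually.of_forall fun _ hne => absurd hij hne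
    · exact (key i j hij).mono fun _ H _ => H
  obtain ⟨r, hr, hr0⟩ := (h1.and self_mem_nhdsWithin).exists
  refine ⟨r, hr0, fun g hg i hi j hj hij => ?_⟩
  ext x
  rw [ContinuousMap.mul_apply, alpha_apply, alpha_apply, ContinuousMap.zero_apply]
  by_contra hne
  rw [mul_eq_zero, not_or] at hne
  refine hr i hi j hj hij ((h ^ (-i)) x) ((h ^ (-j)) x) (not_le.mp fun H => hne.1 (hg _ H))
    (not_le.mp fun H => hne.2 (hg _ H)) ?_
  rw [← Homeomorph.mul_apply, ← Homeomorph.mul_apply, ← zpow_add, ← zpow_add, add_neg_cancel,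
    add_neg_cancel]

variable [CompactSpace X] {h : X ≃ₜ X}

/-- No bounded representation on a Hilbert space when `p ≠ 2`. -/
theorem core_hilbert {E : Type} [NormedAddCommGroup E] [InnerProductSpace ℂ E]
    {ψ : Alg h →ₙₐ[ℂ] (E →L[ℂ] E)} {θ C : ℝ} (hA : Aper h) (B : Bd ψ θ C) (hθ0 : 0 ≤ θ)
    (hθ : θ ≠ 1 / 2) (a : Alg h) : ψ a = 0 := by
  by_contra hne
  obtain ⟨ξ, h0, h1⟩ := exists_fixed ⟨a, hne⟩
  obtain ⟨y, hy⟩ := exists_support_pt h0 h1
  have hC := B.pos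
  have key : ∀ N : ℕ, 1 ≤ N → (N : ℝ) ^ (1 : ℝ) ≤ C ^ 4 * (N : ℝ) ^ (2 * θ) ∧
      (N : ℝ) ^ (2 * θ) ≤ C ^ 4 * (N : ℝ) ^ (1 : ℝ) := by
    intro N hN
    let F : Finset ℤ := Finset.Ico 0 N
    have hc : F.card = N := by simp [F]
    have hFne : F.Nonempty := Finset.card_pos.mp (by omega)
    obtain ⟨r, hr, hF⟩ := free_small hA y F
    have hfree : Free h F (bump y (r / 2) r) := hF _ fun x hx => bump_zero (by linarith) hx
    have hg := (bump_unit y (r / 2) r).norm_le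
    let η := piOp ψ (bump y (r / 4) (r / 2)) ξ
    have hη0 : 0 < ‖η‖ := norm_pos_iff.mpr (hy _ (by
      rw [bump_one (by linarith) (by rw [dist_self]; linarith)]; exact one_ne_zero))
    have hη : piOp ψ (bump y (r / 2) r) η = η := by
      rw [← piOp_mul]
      congr 2
      ext x
      rw [ContinuousMap.mul_apply]
      rcases le_total (dist x y) (r / 2) with hx | hx
      · rw [bump_one (by linarith) hx, one_mul]
      · rw [bump_zero (a := r / 4) (by linarith) hx, mul_zero]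
    have hs : ∀ i : ℤ, ‖ψ (sg h i 1) η‖ ≤ C * ‖η‖ ∧ ‖η‖ ≤ C * ‖ψ (sg h i 1) η‖ := by
      intro i
      have hf1 : Free h {i} (bump y (r / 2) r) := fun j hj k hk hjk =>
        absurd ((Finset.mem_singleton.mp hj).trans (Finset.mem_singleton.mp hk).symm) hjk
      simpa using B.est hg hf1 hη (fun _ => 1) fun _ => norm_one
    have hN0 : (0 : ℝ) < N := by exact_mod_cast hN
    have e2 : (N : ℝ) ^ (2 * θ) = ((N : ℝ) ^ θ) ^ 2 := by
      rw [mul_comm, Real.rpow_mul hN0.le, Real.rpow_two]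
    have hp : 0 < (N : ℝ) ^ θ := Real.rpow_pos_of_pos hN0 _
    rw [Real.rpow_one, e2]
    constructor
    · obtain ⟨ε, hε, H⟩ := signs_ge (fun i => ψ (sg h i 1) η) F
      have h2 := (B.est hg hfree hη ε fun i => norm_sign (hε i)).1
      rw [hc] at h2
      have h3 : (N : ℝ) * ‖η‖ ^ 2 ≤ C ^ 2 * ∑ i ∈ F, ‖ψ (sg h i 1) η‖ ^ 2 := by
        rw [Finset.mul_sum, ← hc, ← nsmul_eq_mul, ← Finset.sum_const]
        exact Finset.sum_le_sum fun i _ => by
          rw [← mul_pow]; exact pow_le_pow_left₀ hη0.le (hs i).2 2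
      have h4 := pow_le_pow_left₀ (norm_nonneg _) h2 2
      have h5 : (N : ℝ) * ‖η‖ ^ 2 ≤ (C ^ 4 * ((N : ℝ) ^ θ) ^ 2) * ‖η‖ ^ 2 := by
        have := mul_le_mul_of_nonneg_left (H.trans h4) (sq_nonneg C)
        nlinarith
      exact le_of_mul_le_mul_right h5 (by positivity)
    · obtain ⟨ε, hε, H⟩ := signs_le (fun i => ψ (sg h i 1) η) F
      have h2 := B.est' hFne hg hfree hη ε fun i => norm_sign (hε i)
      rw [hc] at h2
      have h3 : ∑ i ∈ F, ‖ψ (sg h i 1) η‖ ^ 2 ≤ (N : ℝ) * (C * ‖η‖) ^ 2 := by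
        rw [← hc, ← nsmul_eq_mul, ← Finset.sum_const]
        exact Finset.sum_le_sum fun i _ => pow_le_pow_left₀ (norm_nonneg _) (hs i).1 2
      have h4 := pow_le_pow_left₀ (by positivity) h2 2
      have h5 : ((N : ℝ) ^ θ) ^ 2 * ‖η‖ ^ 2 ≤ (C ^ 4 * N) * ‖η‖ ^ 2 := by
        have := mul_le_mul_of_nonneg_left (H.trans h3) (sq_nonneg C)
        nlinarith
      exact le_of_mul_le_mul_right h5 (by positivity)
  rcases lt_or_gt_of_ne hθ with hlt | hlt
  · exact grow (a := 1) (b := 2 * θ) (A := 1) (B := C ^ 4) (D := 0) (by linarith) (by linarith)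
      one_pos fun N hN => by linarith [(key N hN).1]
  · exact grow (a := 2 * θ) (b := 1) (A := 1) (B := C ^ 4) (D := 0) (by linarith) zero_le_one
      one_pos fun N hN => by linarith [(key N hN).2]

end metric

end Pool.Agent.H907Z.LpX
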