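import Mathlib
import Pool.Agent.H907Z.LpX.Sys

set_option autoImplicit false

/-!
# Representations on `ℓ^q(ℤ)`: nested bumps and the atomic case
-/

namespace Pool.Agent.H907Z.LpX

open Filter Topology Finset
open scoped ENNReal

lemma norm_sum_le_one {ι : Type*} (F : Finset ι) (a : ι → ℂ) (h1 : ∀ i ∈ F, ‖a i‖ ≤ 1)
    (H : ∀ i ∈ F, ∀ j ∈ F, i ≠ j → a i = 0 ∨ a j = 0) : ‖∑ i ∈ F, a i‖ ≤ 1 := by
  by_cases h : ∃ i ∈ F, a i ≠ 0
  · obtain ⟨i, hi, hai⟩ := h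
    rw [Finset.sum_eq_single_of_mem i hi fun j hj hji => (H j hj i hi hji).resolve_right hai]
    exact h1 i hi
  · push Not at h
    rw [Finset.sum_eq_zero h, norm_zero]
    exact zero_le_one

lemma norm_sum_smul_le_one {X : Type} [TopologicalSpace X] [CompactSpace X] {ι : Type*}
    (F : Finset ι) (g : ι → C(X, ℂ)) (h1 : ∀ i ∈ F, ∀ x, ‖g i x‖ ≤ 1)
    (H : ∀ i ∈ F, ∀ j ∈ F, i ≠ j → g i * g j = 0) (a : ι → ℂ) (ha : ∀ i, ‖a i‖ = 1) (x : X) :
    ‖(∑ i ∈ F, a i • g i) x‖ ≤ 1 := by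
  rw [ContinuousMap.sum_apply]
  refine norm_sum_le_one F _ (fun i hi => ?_) fun i hi j hj hij => ?_
  · rw [ContinuousMap.smul_apply, norm_smul, ha, one_mul]
    exact h1 i hi x
  · have := DFunLike.congr_fun (H i hi j hj hij) x
    rw [ContinuousMap.mul_apply, ContinuousMap.zero_apply, mul_eq_zero] at this
    simp only [ContinuousMap.smul_apply]
    exact this.imp (fun h => by rw [h, smul_zero]) fun h => by rw [h, smul_zero]

variable {q : ℝ≥0∞} [Fact (1 ≤ q)]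

lemma sum_coord_le {ι : Type*} (F : Finset ι) (y : ι → Ell q) {M : ℝ}
    (H : ∀ a : ι → ℂ, (∀ i, ‖a i‖ = 1) → ‖∑ i ∈ F, a i • y i‖ ≤ M) (k : ℤ) :
    ∑ i ∈ F, ‖y i k‖ ≤ M := by
  have hex : ∀ j, ∃ a : ℂ, ‖a‖ = 1 ∧ a * y j k = (‖y j k‖ : ℝ) := fun j => by
    by_cases h0 : y j k = 0
    · exact ⟨1, norm_one, by simp [h0]⟩
    · refine ⟨(‖y j k‖ : ℝ) / y j k, ?_, div_mul_cancel₀ _ h0⟩
      rw [norm_div, Complex.norm_real, norm_norm, div_self (norm_ne_zero_iff.mpr h0)]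
  choose a ha ha' using hex
  have h1 := (lp.norm_apply_le_norm q_ne_zero (∑ i ∈ F, a i • y i) k).trans (H a ha)
  rw [lp.coeFn_sum, Finset.sum_apply] at h1
  simp only [lp.coeFn_smul, Pi.smul_apply, smul_eq_mul, ha'] at h1
  rw [← Complex.ofReal_sum, Complex.norm_real] at h1
  exact (le_abs_self _).trans h1

variable {X : Type} [MetricSpace X] [CompactSpace X] {h : X ≃ₜ X}
  {ψ : Alg h →ₙₐ[ℂ] (Ell q →L[ℂ] Ell q)} {θ C : ℝ}

lemma Bd.norm_sum_disj {E : Type} [NormedAddCommGroup E] [NormedSpace ℂ E]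
    {ψ : Alg h →ₙₐ[ℂ] (E →L[ℂ] E)} (B : Bd ψ θ C) {ι : Type*} (F : Finset ι) (g : ι → C(X, ℂ))
    (h1 : ∀ i ∈ F, ∀ x, ‖g i x‖ ≤ 1) (H : ∀ i ∈ F, ∀ j ∈ F, i ≠ j → g i * g j = 0) (ξ : E)
    (a : ι → ℂ) (ha : ∀ i, ‖a i‖ = 1) : ‖∑ i ∈ F, a i • piOp ψ (g i) ξ‖ ≤ C * ‖ξ‖ := by
  have : ∑ i ∈ F, a i • piOp ψ (g i) ξ = piOp ψ (∑ i ∈ F, a i • g i) ξ := by
    rw [← orb_apply, map_sum]
    exact Finset.sum_congr rfl fun i _ => by rw [map_smul, orb_apply]
  rw [this]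
  exact B.norm_piOp_one ((ContinuousMap.norm_le _ zero_le_one).mpr
    (norm_sum_smul_le_one F g h1 H a ha)) ξ

lemma nested_cauchy (hq : q ≠ ⊤) (B : Bd ψ θ C) (ξ : Ell q) (g : ℕ → C(X, ℂ))
    (hg : ∀ n, Unit01 (g n)) (hn : ∀ n m, n < m → g n * g m = g m) :
    CauchySeq fun n => piOp ψ (g n) ξ := by
  rw [Metric.cauchySeq_iff']
  by_contra hcon
  push Not at hcon
  obtain ⟨ε, hε, H⟩ := hcon
  choose M hM hM' using H
  let n : ℕ → ℕ := fun j => Nat.rec 0 (fun _ k => M k + 1) j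
  have hn1 : ∀ j, n (j + 1) = M (n j) + 1 := fun _ => rfl
  have hmono : StrictMono n := strictMono_nat_of_lt_succ fun j => by
    rw [hn1]; exact Nat.lt_succ_of_le (hM _)
  have hlt : ∀ i j, i < j → M (n i) < n j := fun i j hij => by
    have := hmono.monotone (Nat.succ_le_of_lt hij)
    rw [hn1] at this
    omega
  let s : ℕ → C(X, ℂ) := fun j => g (M (n j)) - g (n j)
  have hs : ∀ i j, i < j → s i * s j = 0 := by
    intro i j hij
    have h1 := hlt i j hij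
    have h2 := hM (n i)
    have h3 := hM (n j)
    simp only [s, sub_mul, mul_sub]
    rw [hn _ _ (h1.trans_le h3), hn _ _ h1, hn _ _ ((h2.trans_lt h1).trans_le h3),
      hn _ _ (h2.trans_lt h1)]
    ring
  refine not_wuc hq (fun j => piOp ψ (s j) ξ) hε (M := C * ‖ξ‖) (fun j => ?_) fun F a ha => ?_
  · have := hM' (n j)
    rwa [dist_eq_norm, ← orb_apply, ← orb_apply, ← map_sub] at this
  · refine B.norm_sum_disj F s (fun i _ x => ?_) (fun i _ j _ hij => ?_) ξ a ha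
    · obtain ⟨u, h0, h1, hu⟩ := hg (M (n i)) x
      obtain ⟨v, h2, h3, hv⟩ := hg (n i) x
      simp only [s, ContinuousMap.sub_apply]
      rw [hu, hv, ← Complex.ofReal_sub, Complex.norm_real, Real.norm_eq_abs, abs_le]
      constructor <;> linarith
    · rcases lt_or_gt_of_ne hij with h | h
      · exact hs i j h
      · rw [mul_comm]; exact hs j i h

lemma core_atom (hq : q ≠ ⊤) (hA : Aper h) (B : Bd ψ θ C) (hθ0 : 0 ≤ θ) (hθ : θ ≠ 1 / q.toReal)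
    {ζ : Ell q} (hζ : ζ ≠ 0) (y : X)
    (H : ∀ r > 0, ∃ g : C(X, ℂ), Unit01 g ∧ (∀ x, r ≤ dist x y → g x = 0) ∧ piOp ψ g ζ = ζ) :
    False := by
  classical
  have hC := B.pos
  have hζ0 : 0 < ‖ζ‖ := norm_pos_iff.mpr hζ
  have est : ∀ (s : Finset (ℕ ⊕ ℕ)) (m : ℕ ⊕ ℕ → ℤ), Function.Injective m → s.Nonempty →
      ∀ a : ℕ ⊕ ℕ → ℂ, (∀ i, ‖a i‖ = 1) →
      ‖∑ i ∈ s, a i • ψ (sg h (m i) 1) ζ‖ ≤ C * (s.card : ℝ) ^ θ * ‖ζ‖ ∧
      (s.card : ℝ) ^ θ * ‖ζ‖ ≤ C * ‖∑ i ∈ s, a i • ψ (sg h (m i) 1) ζ‖ := by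
    intro s m hm hs a ha
    obtain ⟨r, hr, hF⟩ := free_small hA y (s.map ⟨m, hm⟩)
    obtain ⟨g, hg, hg0, hgζ⟩ := H r hr
    have ha' : ∀ i, ‖Function.extend m a 1 i‖ = 1 := by
      intro i
      by_cases hi : ∃ j, m j = i
      · obtain ⟨j, rfl⟩ := hi
        rw [hm.extend_apply, ha]
      · rw [Function.extend_apply' _ _ _ hi]; simp
    have h1 := (B.est hg.norm_le (hF g hg0) hgζ _ ha').1
    have h2 := B.est' (Finset.map_nonempty.mpr hs) hg.norm_le (hF g hg0) hgζ _ ha'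
    rw [Finset.sum_map, Finset.card_map] at h1 h2
    simp only [Function.Embedding.coeFn_mk, hm.extend_apply] at h1 h2
    exact ⟨h1, h2⟩
  let Y : ℕ → Ell q := fun i => ψ (sg h (i : ℤ) 1) ζ
  have hY : ∀ i, ‖Y i‖ ≤ C * ‖ζ‖ := fun i =>
    ((ψ _).le_of_opNorm_le (B.sgl i 1) ζ).trans (mul_le_mul_of_nonneg_right
      (mul_le_of_le_one_right hC.le ((ContinuousMap.norm_le _ zero_le_one).mpr fun _ => by simp))
      (norm_nonneg _))
  have hK : IsCompact (Set.pi Set.univ fun _ : ℤ => Metric.closedBall (0 : ℂ) (C * ‖ζ‖)) :=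
    isCompact_univ_pi fun _ => isCompact_closedBall _ _
  obtain ⟨l, -, φ, hφ, hl⟩ := hK.tendsto_subseq (x := fun i => (Y i : ℤ → ℂ)) fun i k _ =>
    mem_closedBall_zero_iff.mpr ((lp.norm_apply_le_norm q_ne_zero (Y i) k).trans (hY i))
  let d : ℕ → Ell q := fun j => Y (φ (2 * j)) - Y (φ (2 * j + 1))
  have hd0 : ∀ k, Tendsto (fun j => d j k) atTop (𝓝 0) := by
    intro k
    have h1 := tendsto_pi_nhds.mp hl k
    have h2 : Tendsto (fun j : ℕ => 2 * j) atTop atTop := tendsto_id.const_mul_atTop' two_pos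
    have h3 : Tendsto (fun j : ℕ => 2 * j + 1) atTop atTop := (tendsto_add_atTop_nat 1).comp h2
    have := (h1.comp h2).sub (h1.comp h3)
    rw [sub_self] at this
    exact this
  have est2 : ∀ (n : ℕ → ℕ), Function.Injective n → ∀ N : ℕ, 1 ≤ N →
      ‖∑ i ∈ range N, d (n i)‖ ≤ C * (2 * N : ℝ) ^ θ * ‖ζ‖ ∧
      (2 * N : ℝ) ^ θ * ‖ζ‖ ≤ C * ‖∑ i ∈ range N, d (n i)‖ := by
    intro n hn N hN
    have hm : Function.Injective
        (Sum.elim (fun i => (φ (2 * n i) : ℤ)) (fun i => (φ (2 * n i + 1) : ℤ))) := by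
      rintro (i | i) (j | j) hij
      all_goals
        simp only [Sum.elim_inl, Sum.elim_inr, Nat.cast_inj, hφ.injective.eq_iff] at hij
      · rw [hn (by omega : n i = n j)]
      · omega
      · omega
      · rw [hn (by omega : n i = n j)]
    have := est ((range N).disjSum (range N)) _ hm
      (Finset.card_pos.mp (by rw [Finset.card_disjSum, card_range]; omega))
      (Sum.elim (fun _ => 1) fun _ => -1) (by rintro (i | i) <;> simp)
    rw [Finset.sum_disjSum, Finset.card_disjSum, card_range, ← Finset.sum_add_distrib] at this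
    simp only [Sum.elim_inl, Sum.elim_inr, one_smul, neg_one_smul, ← sub_eq_add_neg] at this
    push_cast at this
    rw [← two_mul] at this
    exact this
  have hlo : ∀ j, ‖ζ‖ / C ≤ ‖d j‖ := by
    intro j
    have := (est2 (fun i => i + j) (add_left_injective j) 1 le_rfl).2
    simp only [range_one, sum_singleton, zero_add, Nat.cast_one, mul_one] at this
    have h2 : 1 ≤ (2 : ℝ) ^ θ := Real.one_le_rpow one_le_two hθ0
    rw [div_le_iff₀ hC]
    nlinarith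
  have hhi : ∀ j, ‖d j‖ ≤ 2 * (C * ‖ζ‖) := fun j =>
    (norm_sub_le _ _).trans (by linarith [hY (φ (2 * j)), hY (φ (2 * j + 1))])
  have key : ∀ N : ℕ, 1 ≤ N →
      ‖ζ‖ / C / 2 * (N : ℝ) ^ (1 / q.toReal) ≤ (C * 2 ^ θ * ‖ζ‖) * (N : ℝ) ^ θ + 1 ∧
      (2 ^ θ * ‖ζ‖) * (N : ℝ) ^ θ ≤ (C * (2 * (C * ‖ζ‖))) * (N : ℝ) ^ (1 / q.toReal) + C := by
    intro N hN
    obtain ⟨n, hn, S, -, -, h3⟩ := hump_est hq d hd0 (div_pos hζ0 hC) hlo hhi N
    obtain ⟨h4, h5⟩ := h3 (fun _ => 1) fun _ => norm_one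
    simp only [one_smul] at h4 h5
    obtain ⟨h6, h7⟩ := est2 n hn.injective N hN
    rw [Real.mul_rpow zero_le_two (Nat.cast_nonneg N)] at h6 h7
    have h8 := mul_le_mul_of_nonneg_left h5 hC.le
    constructor <;> linarith
  rcases lt_or_gt_of_ne hθ with hlt | hlt
  · exact grow hlt hθ0 (by positivity) fun N hN => (key N hN).1
  · exact grow hlt (one_div_pos.mpr (toReal_pos hq)).le (by positivity) fun N hN => (key N hN).2

end Pool.Agent.H907Z.LpX
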