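import Mathlib
import Pool.Agent.H907Z.LpX.Alg
import Pool.Agent.H907Z.LpX.Reg

set_option autoImplicit false

/-!
# The full and the reduced `L^p` crossed products `F^p(ℤ, X, h)` and `F^p_r(ℤ, X, h)`
-/

namespace Pool.Agent.H907Z.LpX

open MeasureTheory
open scoped ENNReal

variable {X : Type} [TopologicalSpace X] [CompactSpace X]

section norms

variable (p : ℝ≥0∞) [Fact (1 ≤ p)] (h : X ≃ₜ X)

/-- The full norm: the supremum of `‖∑ π(a_n) v^n‖` over all σ-finite measure spaces `(Y, μ)` and all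
contractive covariant representations `(π, v)` on `L^p(Y, μ)`. -/
noncomputable def fullNorm (a : Alg h) : ℝ :=
  sSup {r : ℝ | ∃ (Y : Type) (_ : MeasurableSpace Y) (μ : Measure Y), SigmaFinite μ ∧
    ∃ R : CovRep h (Lp ℂ p μ), r = intNorm R a}

/-- The reduced norm: the supremum of the norms in the regular representations on
`ℓ^p(ℤ, L^p(Y, μ))`, over all σ-finite `(Y, μ)` and all `π₀ : C(X) → L(L^p(Y, μ))`. -/
noncomputable def redNorm (a : Alg h) : ℝ :=
  sSup {r : ℝ | ∃ (Y : Type) (_ : MeasurableSpace Y) (μ : Measure Y), SigmaFinite μ ∧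
    ∃ π : Rep X (Lp ℂ p μ), r = regNorm p π h a}

lemma fullNorm_le (a : Alg h) {C : ℝ} (hC : 0 ≤ C)
    (H : ∀ (Y : Type) (_ : MeasurableSpace Y) (μ : Measure Y), SigmaFinite μ →
      ∀ R : CovRep h (Lp ℂ p μ), ‖intHom R a‖ ≤ C) : fullNorm p h a ≤ C := by
  refine Real.sSup_le ?_ hC
  rintro _ ⟨Y, _, μ, hμ, R, rfl⟩
  rw [intNorm_eq]
  exact H Y _ μ hμ R

lemma le_fullNorm (a : Alg h) {Y : Type} [MeasurableSpace Y] (μ : Measure Y) (hμ : SigmaFinite μ)
    (R : CovRep h (Lp ℂ p μ)) : ‖intHom R a‖ ≤ fullNorm p h a := by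
  refine le_csSup ⟨∑ m ∈ a.support, ‖(show C(X, ℂ) from a.coeff m)‖, ?_⟩
    ⟨Y, _, μ, hμ, R, (intNorm_eq R a).symm⟩
  rintro _ ⟨Y, _, μ, hμ, R, rfl⟩
  rw [intNorm_eq]
  exact norm_intHom_le R a

lemma fullNorm_nonneg (a : Alg h) : 0 ≤ fullNorm p h a := by
  refine Real.sSup_nonneg ?_
  rintro _ ⟨Y, _, μ, hμ, R, rfl⟩
  exact norm_nonneg _

lemma redNorm_le (a : Alg h) {C : ℝ} (hC : 0 ≤ C)
    (H : ∀ (Y : Type) (_ : MeasurableSpace Y) (μ : Measure Y), SigmaFinite μ →
      ∀ π : Rep X (Lp ℂ p μ), ‖intHom (regCov p π h) a‖ ≤ C) : redNorm p h a ≤ C := by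
  refine Real.sSup_le ?_ hC
  rintro _ ⟨Y, _, μ, hμ, π, rfl⟩
  rw [regNorm_eq]
  exact H Y _ μ hμ π

lemma le_redNorm (a : Alg h) {Y : Type} [MeasurableSpace Y] (μ : Measure Y) (hμ : SigmaFinite μ)
    (π : Rep X (Lp ℂ p μ)) : ‖intHom (regCov p π h) a‖ ≤ redNorm p h a := by
  refine le_csSup ⟨∑ m ∈ a.support, ‖(show C(X, ℂ) from a.coeff m)‖, ?_⟩
    ⟨Y, _, μ, hμ, π, (regNorm_eq p π h a).symm⟩
  rintro _ ⟨Y, _, μ, hμ, π, rfl⟩
  rw [regNorm_eq]
  exact norm_intHom_le _ a

lemma redNorm_nonneg (a : Alg h) : 0 ≤ redNorm p h a := by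
  refine Real.sSup_nonneg ?_
  rintro _ ⟨Y, _, μ, hμ, π, rfl⟩
  rw [regNorm_eq]
  exact norm_nonneg _

/-- The full norm as a submultiplicative seminorm on the ring `C_c(ℤ, C(X))`. -/
noncomputable def fullSeminorm : RingSeminorm (Alg h) where
  toFun := fullNorm p h
  map_zero' := le_antisymm (fullNorm_le p h 0 le_rfl fun _ _ _ _ _ => by rw [map_zero, norm_zero])
    (fullNorm_nonneg p h 0)
  add_le' a b := fullNorm_le p h _ (add_nonneg (fullNorm_nonneg p h a) (fullNorm_nonneg p h b))
    fun _ _ μ hμ R => by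
      rw [map_add]
      exact (norm_add_le _ _).trans (add_le_add (le_fullNorm p h a μ hμ R) (le_fullNorm p h b μ hμ R))
  neg' a := by
    have H : ∀ a, fullNorm p h (-a) ≤ fullNorm p h a := fun a =>
      fullNorm_le p h _ (fullNorm_nonneg p h a) fun _ _ μ hμ R => by
        rw [map_neg, norm_neg]
        exact le_fullNorm p h a μ hμ R
    exact le_antisymm (H a) (by simpa using H (-a))
  mul_le' a b := fullNorm_le p h _ (mul_nonneg (fullNorm_nonneg p h a) (fullNorm_nonneg p h b))
    fun _ _ μ hμ R => by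
      rw [map_mul]
      exact (norm_mul_le _ _).trans (mul_le_mul (le_fullNorm p h a μ hμ R)
        (le_fullNorm p h b μ hμ R) (norm_nonneg _) (fullNorm_nonneg p h a))

/-- The reduced norm as a submultiplicative seminorm on the ring `C_c(ℤ, C(X))`. -/
noncomputable def redSeminorm : RingSeminorm (Alg h) where
  toFun := redNorm p h
  map_zero' := le_antisymm (redNorm_le p h 0 le_rfl fun _ _ _ _ _ => by rw [map_zero, norm_zero])
    (redNorm_nonneg p h 0)
  add_le' a b := redNorm_le p h _ (add_nonneg (redNorm_nonneg p h a) (redNorm_nonneg p h b))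
    fun _ _ μ hμ R => by
      rw [map_add]
      exact (norm_add_le _ _).trans (add_le_add (le_redNorm p h a μ hμ R) (le_redNorm p h b μ hμ R))
  neg' a := by
    have H : ∀ a, redNorm p h (-a) ≤ redNorm p h a := fun a =>
      redNorm_le p h _ (redNorm_nonneg p h a) fun _ _ μ hμ R => by
        rw [map_neg, norm_neg]
        exact le_redNorm p h a μ hμ R
    exact le_antisymm (H a) (by simpa using H (-a))
  mul_le' a b := redNorm_le p h _ (mul_nonneg (redNorm_nonneg p h a) (redNorm_nonneg p h b))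
    fun _ _ μ hμ R => by
      rw [map_mul]
      exact (norm_mul_le _ _).trans (mul_le_mul (le_redNorm p h a μ hμ R)
        (le_redNorm p h b μ hμ R) (norm_nonneg _) (redNorm_nonneg p h a))

end norms

section completion

variable {h : X ≃ₜ X}

/-- The algebra `C_c(ℤ, C(X))` carrying the seminorm `N`. -/
def Normed (_N : RingSeminorm (Alg h)) : Type := Alg h

noncomputable instance instSeminormed (N : RingSeminorm (Alg h)) : SeminormedRing (Normed N) :=
  RingSeminorm.toSeminormedRing (R := Alg h) N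

noncomputable instance instAlgebraNormed (N : RingSeminorm (Alg h)) : Algebra ℂ (Normed N) :=
  (inferInstance : Algebra ℂ (Alg h))

instance instConstSMul (N : RingSeminorm (Alg h)) : UniformContinuousConstSMul ℂ (Normed N) :=
  ⟨fun c => by
    have : (fun a : Normed N => c • a) = fun a => algebraMap ℂ (Normed N) c * a :=
      funext fun a => Algebra.smul_def c a
    rw [this]
    exact uniformContinuous_of_continuousAt_zero (AddMonoidHom.mulLeft (algebraMap ℂ (Normed N) c))
      (continuous_const_mul _).continuousAt⟩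

/-- The completion of `C_c(ℤ, C(X))` in the seminorm `N`. -/
def Compl (N : RingSeminorm (Alg h)) : Type := UniformSpace.Completion (Normed N)

noncomputable instance instNormedRingCompl (N : RingSeminorm (Alg h)) : NormedRing (Compl N) :=
  (inferInstance : NormedRing (UniformSpace.Completion (Normed N)))

noncomputable instance instAlgebraCompl (N : RingSeminorm (Alg h)) : Algebra ℂ (Compl N) :=
  (inferInstance : Algebra ℂ (UniformSpace.Completion (Normed N)))

end completion

/-- The full `L^p` crossed product `F^p(ℤ, X, h)`: the completion in the full norm. -/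
abbrev FpFull (p : ℝ≥0∞) [Fact (1 ≤ p)] (h : X ≃ₜ X) : Type := Compl (fullSeminorm p h)

/-- The reduced `L^p` crossed product `F^p_r(ℤ, X, h)`: the completion in the reduced norm. -/
abbrev FpRed (p : ℝ≥0∞) [Fact (1 ≤ p)] (h : X ≃ₜ X) : Type := Compl (redSeminorm p h)

/-- Every continuous (not necessarily unital) complex-algebra homomorphism `A → B` is zero. -/
def NoHom (A B : Type) [NormedRing A] [Algebra ℂ A] [NormedRing B] [Algebra ℂ B] : Prop :=
  ∀ φ : A →ₙₐ[ℂ] B, Continuous φ → ∀ a, φ a = 0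

end Pool.Agent.H907Z.LpX
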