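import Mathlib
import Pool.Agent.H907Z.LpX.Atoms

set_option autoImplicit false

/-!
# Representations on `ℓ^q(ℤ)`: the diffuse case, and the conclusion
-/

namespace Pool.Agent.H907Z.LpX

open Filter Topology Finset
open scoped ENNReal

variable {q : ℝ≥0∞} [Fact (1 ≤ q)] {X : Type} [MetricSpace X] [CompactSpace X] {h : X ≃ₜ X}
  {ψ : Alg h →ₙₐ[ℂ] (Ell q →L[ℂ] Ell q)} {θ C : ℝ}

omit [CompactSpace X] in
lemma bump_nested (y : X) (t : ℕ → ℝ) (ht : StrictAnti t) (n m : ℕ) (hnm : n < m) :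
    bump y (t (n + 1)) (t n) * bump y (t (m + 1)) (t m) = bump y (t (m + 1)) (t m) := by
  ext x
  rw [ContinuousMap.mul_apply]
  rcases le_total (dist x y) (t m) with hx | hx
  · rw [bump_one (ht (Nat.lt_succ_self n)) (hx.trans (ht.antitone hnm)), one_mul]
  · rw [bump_zero (ht (Nat.lt_succ_self m)) hx, mul_zero]

lemma shell (hq : q ≠ ⊤) (B : Bd ψ θ C) (ξ : Ell q) (y : X) {r η : ℝ} (hr : 0 < r) (hη : 0 < η) :
    ∃ c c' e : C(X, ℂ), Unit01 c ∧ Unit01 c' ∧ Unit01 e ∧ ‖piOp ψ e ξ‖ ≤ η ∧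
      (∀ x, c x = 0 ∨ c' x = 1) ∧ (∀ x, r ≤ dist x y → c x = 0) ∧
      ∀ x, e x = 1 ∨ (c x = 1 ∧ c' x = 1) ∨ (c x = 0 ∧ c' x = 0 ∧ r / 2 ≤ dist x y) := by
  let t : ℕ → ℝ := fun n => r / 2 + r / 2 * (1 / ((n : ℝ) + 1))
  have ht : StrictAnti t := strictAnti_nat_of_succ_lt fun n => by
    have : (1 : ℝ) / (((n + 1 : ℕ) : ℝ) + 1) < 1 / ((n : ℝ) + 1) :=
      one_div_lt_one_div_of_lt (by positivity) (by push_cast; linarith)
    simp only [t]
    nlinarith
  have ht0 : ∀ n, r / 2 ≤ t n := fun n => le_add_of_nonneg_right (by positivity)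
  have ht1 : ∀ n, t n ≤ r := fun n => (ht.antitone (Nat.zero_le n)).trans (by simp [t])
  let g : ℕ → C(X, ℂ) := fun n => bump y (t (n + 1)) (t n)
  have hc := nested_cauchy hq B ξ g (fun n => bump_unit _ _ _) (bump_nested y t ht)
  obtain ⟨n, hn⟩ := Metric.cauchySeq_iff'.mp hc η hη
  have hlt : ∀ k, t (k + 1) < t k := fun k => ht (Nat.lt_succ_self k)
  refine ⟨g (n + 2), g (n + 1), g n * (1 - g (n + 3)), bump_unit _ _ _, bump_unit _ _ _,
    (bump_unit _ _ _).mul (bump_unit _ _ _).one_sub, ?_, fun x => ?_, fun x hx => ?_, fun x => ?_⟩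
  · have := hn (n + 3) (by omega)
    rw [dist_comm, dist_eq_norm, ← orb_apply, ← orb_apply, ← map_sub] at this
    rw [mul_sub, mul_one, bump_nested y t ht n (n + 3) (by omega)]
    exact this.le
  · rcases le_total (dist x y) (t (n + 2)) with hx | hx
    · exact Or.inr (bump_one (hlt _) hx)
    · exact Or.inl (bump_zero (hlt _) hx)
  · exact bump_zero (hlt _) ((ht1 _).trans hx)
  · rcases le_total (dist x y) (t (n + 3)) with hx | hx
    · exact Or.inr (Or.inl ⟨bump_one (hlt _) hx, bump_one (hlt _) (hx.trans (hlt _).le)⟩)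
    · rcases le_total (dist x y) (t (n + 1)) with hx' | hx'
      · left
        rw [ContinuousMap.mul_apply, ContinuousMap.sub_apply, ContinuousMap.one_apply,
          bump_one (hlt _) hx', bump_zero (hlt _) hx, sub_zero, one_mul]
      · exact Or.inr (Or.inr ⟨bump_zero (hlt _) ((hlt _).le.trans hx'), bump_zero (hlt _) hx',
          (ht0 _).trans hx'⟩)

lemma partition (hq : q ≠ ⊤) (B : Bd ψ θ C) (ξ : Ell q) (r : X → ℝ) (hr : ∀ y, 0 < r y)
    (t : Finset X) : ∀ η > 0, ∃ (g : X → C(X, ℂ)) (e : C(X, ℂ)), (∀ y, Unit01 (g y)) ∧ Unit01 e ∧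
      ‖piOp ψ e ξ‖ ≤ η ∧ (∀ y ∈ t, ∀ z ∈ t, y ≠ z → g y * g z = 0) ∧
      (∀ y ∈ t, ∀ x, r y ≤ dist x y → g y x = 0) ∧
      ∀ x, e x = 1 ∨ ((∀ y ∈ t, g y x = 0 ∨ g y x = 1) ∧
        ((∃ y ∈ t, dist x y < r y / 2) → ∃ y ∈ t, g y x = 1)) := by
  classical
  have hC := B.pos
  have h0 : Unit01 (0 : C(X, ℂ)) := fun _ => ⟨0, le_rfl, zero_le_one, by simp⟩
  induction t using Finset.induction_on with
  | empty =>
    intro η hη
    refine ⟨fun _ => 0, 0, fun _ => h0, h0, ?_, by simp, by simp, by simp⟩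
    rw [← orb_apply, map_zero, norm_zero]
    exact hη.le
  | insert y t hy ih =>
    intro η hη
    obtain ⟨g, e, hg, he, heξ, hdis, hsupp, hx⟩ := ih (η / 2 / C) (by positivity)
    obtain ⟨c, c', e', hc, hc', he', he'ξ, hcc, hcs, hx'⟩ := shell hq B ξ y (hr y) (half_pos hη)
    have hne : ∀ z ∈ t, z ≠ y := fun z hz => ne_of_mem_of_not_mem hz hy
    let g' : X → C(X, ℂ) := fun z => if z = y then c else g z * (1 - c')
    have g'y : g' y = c := if_pos rfl
    have g'z : ∀ z ∈ t, g' z = g z * (1 - c') := fun z hz => if_neg (hne z hz)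
    have hcz : ∀ z, c * (g z * (1 - c')) = 0 := by
      intro z
      ext x
      simp only [ContinuousMap.mul_apply, ContinuousMap.sub_apply, ContinuousMap.one_apply,
        ContinuousMap.zero_apply]
      rcases hcc x with h | h <;> simp [h]
    refine ⟨g', 1 - (1 - e') * (1 - e), fun z => ?_, (he'.one_sub.mul he.one_sub).one_sub, ?_, ?_, ?_,
      fun x => ?_⟩
    · simp only [g']
      split_ifs
      · exact hc
      · exact (hg z).mul hc'.one_sub
    · rw [show 1 - (1 - e') * (1 - e) = e' + (1 - e') * e by ring, piOp_add, piOp_mul]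
      have h1 := B.norm_piOp_one he'.one_sub.norm_le (piOp ψ e ξ)
      have h2 := mul_le_mul_of_nonneg_left heξ hC.le
      rw [mul_div_cancel₀ _ hC.ne'] at h2
      exact (norm_add_le _ _).trans (by linarith)
    · intro z hz w hw hzw
      rcases Finset.mem_insert.mp hz with rfl | hz'
      · rw [g'y, g'z w ((Finset.mem_insert.mp hw).resolve_left hzw.symm), hcz]
      · rcases Finset.mem_insert.mp hw with rfl | hw'
        · rw [g'y, g'z z hz', mul_comm, hcz]
        · rw [g'z z hz', g'z w hw', mul_mul_mul_comm, hdis z hz' w hw' hzw, zero_mul]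
    · intro z hz x hzx
      rcases Finset.mem_insert.mp hz with rfl | hz
      · rw [g'y]; exact hcs x hzx
      · rw [g'z z hz, ContinuousMap.mul_apply, hsupp z hz x hzx, zero_mul]
    · have ev : ∀ z ∈ t, g' z x = g z x * (1 - c' x) := fun z hz => by rw [g'z z hz]; rfl
      have ee : (1 - (1 - e') * (1 - e) : C(X, ℂ)) x = 1 - (1 - e' x) * (1 - e x) := rfl
      rcases hx x with h1 | ⟨h1, h2⟩
      · left; rw [ee, h1]; ring
      rcases hx' x with h3 | ⟨h3, h4⟩ | ⟨h3, h4, h5⟩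
      · left; rw [ee, h3]; ring
      · refine Or.inr ⟨fun z hz => ?_, fun _ => ⟨y, Finset.mem_insert_self _ _, by rw [g'y, h3]⟩⟩
        rcases Finset.mem_insert.mp hz with rfl | hz
        · right; rw [g'y, h3]
        · left; rw [ev z hz, h4, sub_self, mul_zero]
      · refine Or.inr ⟨fun z hz => ?_, ?_⟩
        · rcases Finset.mem_insert.mp hz with rfl | hz
          · left; rw [g'y, h3]
          · rw [ev z hz, h4, sub_zero, mul_one]; exact h1 z hz
        · rintro ⟨w, hw, hwx⟩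
          rcases Finset.mem_insert.mp hw with rfl | hw
          · linarith
          · obtain ⟨z, hz, hzx⟩ := h2 ⟨w, hw, hwx⟩
            exact ⟨z, Finset.mem_insert_of_mem hz, by rw [ev z hz, h4, sub_zero, mul_one, hzx]⟩

lemma exists_w (hq : q ≠ ⊤) (B : Bd ψ θ C) (ξ : Ell q)
    (H : ∀ y : X, ∀ δ > 0, ∃ r > 0, ∃ b : C(X, ℂ), (∀ x, dist x y < r → b x = 1) ∧ ‖piOp ψ b ξ‖ ≤ δ)
    (S : Finset ℤ) {ε : ℝ} (hε : 0 < ε) :
    ∃ w : C(X, ℂ), (∀ x, (w x).im = 0) ∧ (∀ x, ‖w x‖ ≤ 1) ∧ ‖piOp ψ (1 - w * w) ξ‖ ≤ ε ∧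
      ∀ k ∈ S, ‖piOp ψ w ξ k‖ ≤ ε := by
  have hC := B.pos
  set δ : ℝ := ε ^ 2 / ((S.card + 1) * (C * (C * ‖ξ‖) + 1)) with hδ
  have hδ0 : 0 < δ := by positivity
  choose r hr b hb hbξ using fun y => H y δ hδ0
  obtain ⟨t, ht⟩ := isCompact_univ.elim_finite_subcover (fun y => Metric.ball y (r y / 2))
    (fun y => Metric.isOpen_ball) fun x _ => Set.mem_iUnion.mpr ⟨x, Metric.mem_ball_self (half_pos (hr x))⟩
  obtain ⟨g, e, hg, he, heξ, hdis, hsupp, hx⟩ := partition hq B ξ r hr t (ε / 2 / C) (by positivity)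
  let Y : X → EuclideanSpace ℂ S := fun y => WithLp.toLp 2 fun k => piOp ψ (g y) ξ k
  obtain ⟨σ, hσ, hY⟩ := signs_le Y t
  have hσ1 : ∀ y, ‖σ y‖ = 1 := fun y => norm_sign (hσ y)
  let w : C(X, ℂ) := ∑ y ∈ t, σ y • g y
  have hw1 : ∀ x, ‖w x‖ ≤ 1 :=
    norm_sum_smul_le_one t g (fun y _ => (hg y).norm_apply_le) hdis σ hσ1
  refine ⟨w, fun x => ?_, hw1, ?_, fun k hk => ?_⟩
  · simp only [w, ContinuousMap.sum_apply, ContinuousMap.smul_apply, smul_eq_mul, Complex.im_sum]
    refine Finset.sum_eq_zero fun y _ => ?_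
    obtain ⟨u, -, -, hu⟩ := hg y x
    rcases hσ y with h | h <;> simp [h, hu]
  · have e1 : 1 - w * w = (1 - w * w) * e := by
      ext x
      simp only [ContinuousMap.mul_apply, ContinuousMap.sub_apply, ContinuousMap.one_apply]
      rcases hx x with h1 | ⟨-, h2⟩
      · rw [h1, mul_one]
      · obtain ⟨y, hy, hxy⟩ := Set.mem_iUnion₂.mp (ht (Set.mem_univ x))
        obtain ⟨z, hz, hzx⟩ := h2 ⟨y, hy, hxy⟩
        have : w x = σ z := by
          simp only [w, ContinuousMap.sum_apply, ContinuousMap.smul_apply, smul_eq_mul]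
          rw [Finset.sum_eq_single_of_mem z hz, hzx, mul_one]
          intro v hv hvz
          have := DFunLike.congr_fun (hdis v hv z hz hvz) x
          rw [ContinuousMap.mul_apply, hzx, mul_one, ContinuousMap.zero_apply] at this
          rw [this, mul_zero]
        rw [this]
        rcases hσ z with h | h <;> simp [h]
    have e2 : ‖1 - w * w‖ ≤ 2 := (ContinuousMap.norm_le _ zero_le_two).mpr fun x => by
      simp only [ContinuousMap.mul_apply, ContinuousMap.sub_apply, ContinuousMap.one_apply]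
      refine (norm_sub_le _ _).trans ?_
      rw [norm_one, norm_mul]
      nlinarith [hw1 x, norm_nonneg (w x)]
    rw [e1, piOp_mul]
    refine (B.norm_piOp _ _).trans ?_
    calc C * ‖1 - w * w‖ * ‖piOp ψ e ξ‖ ≤ C * 2 * (ε / 2 / C) := by gcongr
      _ = ε := by field_simp
  · have h1 : ∀ y ∈ t, ∀ j : ℤ, ‖piOp ψ (g y) ξ j‖ ≤ C * δ := by
      intro y hy j
      have e1 : g y = g y * b y := by
        ext x
        rw [ContinuousMap.mul_apply]
        rcases lt_or_ge (dist x y) (r y) with h | h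
        · rw [hb y x h, mul_one]
        · rw [hsupp y hy x h, zero_mul]
      refine (lp.norm_apply_le_norm q_ne_zero _ j).trans ?_
      rw [e1, piOp_mul]
      exact (B.norm_piOp_one (hg y).norm_le _).trans (mul_le_mul_of_nonneg_left (hbξ y) hC.le)
    have h2 : ∀ j : ℤ, ∑ y ∈ t, ‖piOp ψ (g y) ξ j‖ ≤ C * ‖ξ‖ :=
      sum_coord_le t _ (B.norm_sum_disj t g (fun y _ => (hg y).norm_apply_le) hdis ξ)
    have h3 : ∑ y ∈ t, ‖Y y‖ ^ 2 ≤ S.card * (C * δ * (C * ‖ξ‖)) := by
      simp only [EuclideanSpace.norm_sq_eq, Y]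
      rw [Finset.sum_comm]
      refine (Finset.sum_le_card_nsmul _ _ (C * δ * (C * ‖ξ‖)) fun j _ => ?_).trans ?_
      · refine le_trans (Finset.sum_le_sum fun y hy => ?_)
          ((Finset.mul_sum t (fun y => ‖piOp ψ (g y) ξ j‖) (C * δ)).symm.le.trans
            (mul_le_mul_of_nonneg_left (h2 j) (by positivity)))
        rw [sq]
        exact mul_le_mul_of_nonneg_right (h1 y hy j) (norm_nonneg _)
      · simp
    have h4 : ‖piOp ψ w ξ k‖ ≤ ‖∑ y ∈ t, σ y • Y y‖ := by
      refine le_trans (le_of_eq ?_) (PiLp.norm_apply_le (∑ y ∈ t, σ y • Y y) ⟨k, hk⟩)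
      congr 1
      rw [← orb_apply, map_sum, lp.coeFn_sum, Finset.sum_apply, WithLp.ofLp_sum, Finset.sum_apply]
      exact Finset.sum_congr rfl fun y _ => by rw [map_smul]; rfl
    have h5 : (S.card : ℝ) * (C * δ * (C * ‖ξ‖)) ≤ ε ^ 2 := by
      have : ε ^ 2 = δ * ((S.card + 1) * (C * (C * ‖ξ‖) + 1)) := by rw [hδ]; field_simp
      rw [this]
      have h6 : 0 ≤ C * (C * ‖ξ‖) := by positivity
      have h7 : (0 : ℝ) ≤ S.card := Nat.cast_nonneg _
      nlinarith [mul_nonneg hδ0.le h6, mul_nonneg hδ0.le h7]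
    exact h4.trans ((pow_le_pow_iff_left₀ (norm_nonneg _) hε.le two_ne_zero).mp
      (hY.trans (h3.trans h5)))

lemma core_diffuse (hq : q ≠ ⊤) (hq2 : q.toReal ≠ 2) (B : Bd ψ θ C) {ξ : Ell q} (h0 : ξ ≠ 0)
    (h1 : piOp ψ 1 ξ = ξ)
    (H : ∀ y : X, ∀ δ > 0, ∃ r > 0, ∃ b : C(X, ℂ), (∀ x, dist x y < r → b x = 1) ∧ ‖piOp ψ b ξ‖ ≤ δ) :
    False := by
  have hC := B.pos
  have hξ : 0 < ‖ξ‖ := norm_pos_iff.mpr h0
  have hq0 := toReal_pos hq
  choose w hwr hw1 hw2 hw3 using fun j : ℕ => exists_w hq B ξ H (Finset.Icc (-(j : ℤ)) j)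
    (lt_min (half_pos hξ) (by positivity : (0 : ℝ) < 1 / ((j : ℝ) + 1)))
  have hwn : ∀ j, ‖w j‖ ≤ 1 := fun j => (ContinuousMap.norm_le _ zero_le_one).mpr (hw1 j)
  let y : ℕ → Ell q := fun j => piOp ψ (w j) ξ
  have hy0 : ∀ k, Tendsto (fun j => y j k) atTop (𝓝 0) := by
    intro k
    rw [tendsto_zero_iff_norm_tendsto_zero]
    refine squeeze_zero' (Eventually.of_forall fun _ => norm_nonneg _) ?_
      tendsto_one_div_add_atTop_nhds_zero_nat
    filter_upwards [eventually_ge_atTop k.natAbs] with j hj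
    exact (hw3 j k (Finset.mem_Icc.mpr (by omega))).trans (min_le_right _ _)
  have hsq : ∀ j, ‖ξ - orb ψ ξ (w j * w j)‖ ≤ ‖ξ‖ / 2 := fun j => by
    have := (hw2 j).trans (min_le_left _ _)
    rwa [← orb_apply, map_sub, orb_apply, h1] at this
  have hlo : ∀ j, ‖ξ‖ / 2 / C ≤ ‖y j‖ := fun j => by
    have h2 := norm_sub_norm_le ξ (orb ψ ξ (w j * w j))
    have h3 := B.norm_piOp_one (hwn j) (y j)
    rw [div_le_iff₀ hC]
    have h4 : orb ψ ξ (w j * w j) = piOp ψ (w j) (y j) := orb_mul ψ ξ _ _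
    rw [← h4] at h3
    linarith [hsq j]
  have hhi : ∀ j, ‖y j‖ ≤ C * ‖ξ‖ := fun j => B.norm_piOp_one (hwn j) ξ
  have key : ∀ N : ℕ, 1 ≤ N →
      ‖ξ‖ / 2 * (N : ℝ) ^ (1 / 2 : ℝ) ≤ (C * 2 * (C * ‖ξ‖)) * (N : ℝ) ^ (1 / q.toReal) + C * 2 ∧
      ‖ξ‖ / 2 / C / 2 * (N : ℝ) ^ (1 / q.toReal) ≤ (C * 2 * ‖ξ‖) * (N : ℝ) ^ (1 / 2 : ℝ) + 0 := by
    intro N hN
    have hN0 : (0 : ℝ) < N := by exact_mod_cast hN
    obtain ⟨n, -, S, hS, h2, h3⟩ := hump_est hq y hy0 (by positivity) hlo hhi N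
    let W : Fin N → C(X, ℂ) := fun k => w (n k)
    set s : ℝ := (N : ℝ) ^ (-(1 / 2) : ℝ) with hs
    have hs0 : 0 < s := Real.rpow_pos_of_pos hN0 _
    have hs1 : s * (N : ℝ) ^ (1 / 2 : ℝ) = 1 := by
      rw [hs, ← Real.rpow_add hN0, neg_add_cancel, Real.rpow_zero]
    have hs2 : (N : ℝ) ^ (1 / 2 : ℝ) * (N : ℝ) ^ (1 / 2 : ℝ) = N := by
      rw [← Real.rpow_add hN0]; norm_num
    have hs3 : s * N = (N : ℝ) ^ (1 / 2 : ℝ) := by
      conv_lhs => rw [← hs2, ← mul_assoc, hs1, one_mul]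
    have ht : ‖Complex.I * s‖ = s := by
      rw [norm_mul, Complex.norm_I, one_mul, Complex.norm_real, Real.norm_eq_abs, abs_of_pos hs0]
    have hR : ∀ ε ∈ sgns N, ‖riesz W (Complex.I * s) ε‖ ≤ 2 := fun ε hε =>
      norm_riesz_le hN W (fun k => hwr _) (fun k => hw1 _) hε
    constructor
    · have h4 := norm_le_of_avg
        (fun ε => piOp ψ (riesz W (Complex.I * s) ε) (∑ k : Fin N, ε k • y (n k)))
        ((Complex.I * s) • ∑ k : Fin N, orb ψ ξ (W k * W k))
        (B := C * 2 * (C * ‖ξ‖ * (N : ℝ) ^ (1 / q.toReal) + 1)) ?_ ?_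
      · have h5 : ‖∑ _k : Fin N, ξ - ∑ k : Fin N, orb ψ ξ (W k * W k)‖ ≤ N * (‖ξ‖ / 2) := by
          rw [← Finset.sum_sub_distrib]
          refine (norm_sum_le_of_le _ (n := fun _ => ‖ξ‖ / 2) fun k _ => hsq _).trans ?_
          simp
        have h6 := norm_sub_norm_le (∑ _k : Fin N, ξ) (∑ k : Fin N, orb ψ ξ (W k * W k))
        have h7 : ‖∑ _k : Fin N, ξ‖ = N * ‖ξ‖ := by
          rw [Finset.sum_const, Finset.card_univ, Fintype.card_fin, ← Nat.cast_smul_eq_nsmul ℂ,
            norm_smul, Complex.norm_natCast]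
        rw [norm_smul, ht] at h4
        have h8 : s * (N * (‖ξ‖ / 2)) ≤ s * ‖∑ k : Fin N, orb ψ ξ (W k * W k)‖ :=
          mul_le_mul_of_nonneg_left (by linarith) hs0.le
        rw [← mul_assoc, hs3] at h8
        linarith
      · have : ∀ ε : Fin N → ℂ, piOp ψ (riesz W (Complex.I * s) ε) (∑ k : Fin N, ε k • y (n k)) =
            ∑ k : Fin N, orb ψ ξ ((ε k • riesz W (Complex.I * s) ε) * W k) := by
          intro ε
          rw [map_sum]
          exact Finset.sum_congr rfl fun k _ => by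
            rw [map_smul, smul_mul_assoc, map_smul, orb_mul]; rfl
        simp only [this]
        rw [Finset.sum_comm, smul_smul, Finset.smul_sum]
        refine Finset.sum_congr rfl fun k _ => ?_
        rw [← map_sum, ← Finset.sum_mul, riesz_avg, smul_mul_assoc, map_smul]
      · intro ε hε
        have h5 := (h3 (fun i => if hi : i < N then ε ⟨i, hi⟩ else 1) fun i => by
          split_ifs with hi
          · exact norm_sign (mem_sgns hε _)
          · exact norm_one).2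
        rw [Finset.sum_range] at h5
        simp only [Fin.is_lt, dite_true, Fin.eta] at h5
        refine (B.norm_piOp _ _).trans ?_
        gcongr
        exact hR ε hε
    · have h4 := norm_le_of_avg
        (fun ε => ∑ k : Fin N, ε k • res (S k) (orb ψ ξ (riesz W (Complex.I * s) ε)))
        ((Complex.I * s) • ∑ k : Fin N, res (S k) (y (n k))) (B := C * 2 * ‖ξ‖) ?_ ?_
      · rw [Finset.sum_range] at h2
        rw [norm_smul, ht] at h4
        have h5 := (mul_le_mul_of_nonneg_left h2 hs0.le).trans h4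
        have h6 := mul_le_mul_of_nonneg_right h5 (Real.rpow_nonneg hN0.le (1 / 2 : ℝ))
        rw [mul_right_comm, hs1, one_mul] at h6
        linarith
      · rw [Finset.sum_comm, smul_smul, Finset.smul_sum]
        refine Finset.sum_congr rfl fun k _ => ?_
        simp only [← map_smul]
        rw [← map_sum, ← map_sum, riesz_avg, map_smul]
        rfl
      · intro ε hε
        refine le_trans (norm_le_of_pt (y := orb ψ ξ (riesz W (Complex.I * s) ε)) fun j => ?_) ?_
        · rw [lp.coeFn_sum, Finset.sum_apply]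
          simp only [lp.coeFn_smul, Pi.smul_apply, res_apply]
          by_cases hj : ∃ k : Fin N, j ∈ S k
          · obtain ⟨k, hk⟩ := hj
            rw [Finset.sum_eq_single k, if_pos hk, norm_smul, norm_sign (mem_sgns hε k), one_mul]
            · intro l _ hlk
              rw [if_neg (Finset.disjoint_left.mp (hS k l fun e => hlk (Fin.ext e).symm) hk), smul_zero]
            · exact fun h => absurd (Finset.mem_univ k) h
          · push Not at hj
            rw [Finset.sum_eq_zero fun k _ => by rw [if_neg (hj k), smul_zero], norm_zero]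
            exact norm_nonneg _
        · refine (B.norm_piOp _ _).trans ?_
          gcongr
          exact hR ε hε
  rcases lt_or_gt_of_ne hq2 with hlt | hlt
  · exact grow (one_div_lt_one_div_of_lt hq0 hlt) (by norm_num) (by positivity)
      fun N hN => (key N hN).2
  · exact grow (one_div_lt_one_div_of_lt two_pos hlt) (one_div_pos.mpr hq0).le (by positivity)
      fun N hN => (key N hN).1

/-- No bounded representation on `ℓ^q(ℤ)` when `q ≠ 2` and `q ≠ p`. -/
theorem core_ell (hq : q ≠ ⊤) (hq2 : q.toReal ≠ 2) (hA : Aper h) (B : Bd ψ θ C) (hθ0 : 0 ≤ θ)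
    (hθ : θ ≠ 1 / q.toReal) (a : Alg h) : ψ a = 0 := by
  by_contra hne
  obtain ⟨ξ, h0, h1⟩ := exists_fixed ⟨a, hne⟩
  let t : ℕ → ℝ := fun n => 1 / ((n : ℝ) + 1)
  have ht : StrictAnti t := strictAnti_nat_of_succ_lt fun n =>
    one_div_lt_one_div_of_lt (by positivity) (by push_cast; linarith)
  have hlt : ∀ k, t (k + 1) < t k := fun k => ht (Nat.lt_succ_self k)
  let g : X → ℕ → C(X, ℂ) := fun y n => bump y (t (n + 1)) (t n)
  have hc : ∀ y, ∃ ζ, Tendsto (fun n => piOp ψ (g y n) ξ) atTop (𝓝 ζ) := fun y =>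
    cauchySeq_tendsto_of_complete
      (nested_cauchy hq B ξ (g y) (fun n => bump_unit _ _ _) (bump_nested y t ht))
  choose ζ hζ using hc
  by_cases hz : ∃ y, ζ y ≠ 0
  · obtain ⟨y, hy⟩ := hz
    refine core_atom hq hA B hθ0 hθ hy y fun r hr => ?_
    obtain ⟨n, hn⟩ := exists_nat_one_div_lt hr
    refine ⟨g y n, bump_unit _ _ _, fun x hx => bump_zero (hlt _) (hn.le.trans hx), ?_⟩
    refine tendsto_nhds_unique (((piOp ψ (g y n)).continuous.tendsto _).comp (hζ y))
      ((hζ y).congr' ?_)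
    filter_upwards [eventually_gt_atTop n] with m hm
    rw [Function.comp_apply, ← piOp_mul, bump_nested y t ht n m hm]
  · push Not at hz
    refine core_diffuse hq hq2 B h0 h1 fun y δ hδ => ?_
    have := hζ y
    rw [hz y, tendsto_zero_iff_norm_tendsto_zero] at this
    obtain ⟨n, hn⟩ := (this.eventually (gt_mem_nhds hδ)).exists
    exact ⟨t (n + 1), by positivity, g y n, fun x hx => bump_one (hlt _) hx.le, hn.le⟩

end Pool.Agent.H907Z.LpX
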