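import Mathlib
import Pool.Agent.H907Z.LpX.Reg
import Pool.Agent.H907Z.LpX.Hump

set_option autoImplicit false

/-!
# Contractive representations of `C(X)` on `L^p`, `p ≠ 2`, are pointwise bounded (Lamperti)
-/

namespace Pool.Agent.H907Z.LpX

open Filter Topology Finset MeasureTheory
open scoped ENNReal

/-- the Clarkson defect -/
noncomputable def clark (r : ℝ) (a b : ℂ) : ℝ :=
  ‖a + b‖ ^ r + ‖a - b‖ ^ r - 2 * ‖a‖ ^ r - 2 * ‖b‖ ^ r

lemma clark_zero {r : ℝ} (hr : 0 < r) {a b : ℂ} (h : a = 0 ∨ b = 0) : clark r a b = 0 := by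
  rcases h with rfl | rfl <;> simp [clark, Real.zero_rpow hr.ne'] <;> ring

lemma clark_pos {r : ℝ} (hr : 0 < r) (hr2 : r ≠ 2) :
    ∃ σ : ℝ, ∀ a b : ℂ, a ≠ 0 → b ≠ 0 → 0 < σ * clark r a b := by
  have e : ∀ z : ℂ, ‖z‖ ^ r = (‖z‖ ^ 2) ^ (r / 2) := fun z => by
    rw [← Real.rpow_two, ← Real.rpow_mul (norm_nonneg z)]
    congr 1; ring
  have par : ∀ a b : ℂ, (1 / 2 : ℝ) • ‖a + b‖ ^ 2 + (1 / 2 : ℝ) • ‖a - b‖ ^ 2 = ‖a‖ ^ 2 + ‖b‖ ^ 2 := by
    intro a b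
    have := parallelogram_law_with_norm ℂ a b
    simp only [smul_eq_mul]
    linarith
  have e2 : ∀ x : ℝ, 0 < x → x ^ (r / 2) = x * x ^ (r / 2 - 1) := fun x hx => by
    rw [Real.rpow_sub_one hx.ne']; field_simp
  rcases lt_or_gt_of_ne hr2 with hlt | hlt
  · refine ⟨-1, fun a b ha hb => ?_⟩
    have hA : 0 < ‖a‖ ^ 2 := by positivity
    have hB : 0 < ‖b‖ ^ 2 := by positivity
    have h1 := (Real.concaveOn_rpow (p := r / 2) (by linarith) (by linarith)).2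
      (show ‖a + b‖ ^ 2 ∈ Set.Ici (0 : ℝ) from Set.mem_Ici.mpr (sq_nonneg _))
      (show ‖a - b‖ ^ 2 ∈ Set.Ici (0 : ℝ) from Set.mem_Ici.mpr (sq_nonneg _))
      (show (0 : ℝ) ≤ 1 / 2 by norm_num) (show (0 : ℝ) ≤ 1 / 2 by norm_num) (by norm_num)
    rw [par] at h1
    simp only [smul_eq_mul] at h1
    have h2 := Real.rpow_lt_rpow_of_neg hA (lt_add_of_pos_right _ hB) (by linarith : r / 2 - 1 < 0)
    have h3 := Real.rpow_lt_rpow_of_neg hB (lt_add_of_pos_left _ hA) (by linarith : r / 2 - 1 < 0)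
    rw [clark, e, e, e a, e b, e2 _ hA, e2 _ hB]
    rw [e2 _ (add_pos hA hB)] at h1
    nlinarith [mul_lt_mul_of_pos_left h2 hA, mul_lt_mul_of_pos_left h3 hB]
  · refine ⟨1, fun a b ha hb => ?_⟩
    have hA : 0 < ‖a‖ ^ 2 := by positivity
    have hB : 0 < ‖b‖ ^ 2 := by positivity
    have h1 := (convexOn_rpow (p := r / 2) (by linarith)).2
      (show ‖a + b‖ ^ 2 ∈ Set.Ici (0 : ℝ) from Set.mem_Ici.mpr (sq_nonneg _))
      (show ‖a - b‖ ^ 2 ∈ Set.Ici (0 : ℝ) from Set.mem_Ici.mpr (sq_nonneg _))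
      (show (0 : ℝ) ≤ 1 / 2 by norm_num) (show (0 : ℝ) ≤ 1 / 2 by norm_num) (by norm_num)
    rw [par] at h1
    simp only [smul_eq_mul] at h1
    have h2 := Real.rpow_lt_rpow hA.le (lt_add_of_pos_right _ hB) (by linarith : 0 < r / 2 - 1)
    have h3 := Real.rpow_lt_rpow hB.le (lt_add_of_pos_left _ hA) (by linarith : 0 < r / 2 - 1)
    rw [clark, e, e, e a, e b, e2 _ hA, e2 _ hB]
    rw [e2 _ (add_pos hA hB)] at h1
    nlinarith [mul_lt_mul_of_pos_left h2 hA, mul_lt_mul_of_pos_left h3 hB]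

variable {Y : Type} [MeasurableSpace Y] {μ : Measure Y} {p : ℝ≥0∞} [Fact (1 ≤ p)]

lemma integrable_rpow (hp : p ≠ ⊤) (x : Lp ℂ p μ) : Integrable (fun ω => ‖x ω‖ ^ p.toReal) μ :=
  (Lp.memLp x).integrable_norm_rpow q_ne_zero hp

lemma norm_rpow_eq (hp : p ≠ ⊤) (x : Lp ℂ p μ) : ‖x‖ ^ p.toReal = ∫ ω, ‖x ω‖ ^ p.toReal ∂μ := by
  have h0 : 0 ≤ ∫ ω, ‖x ω‖ ^ p.toReal ∂μ := integral_nonneg fun _ => by positivity
  rw [Lp.norm_def, (Lp.memLp x).eLpNorm_eq_integral_rpow_norm q_ne_zero hp,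
    ENNReal.toReal_ofReal (by positivity), Real.rpow_inv_rpow h0 (toReal_pos hp).ne']

/-- disjoint supports -/
def Disj (x y : Lp ℂ p μ) : Prop := ∀ᵐ ω ∂μ, x ω = 0 ∨ y ω = 0

lemma disj_iff (hp : p ≠ ⊤) (hp2 : p.toReal ≠ 2) (x y : Lp ℂ p μ) : Disj x y ↔
    ‖x + y‖ ^ p.toReal + ‖x - y‖ ^ p.toReal - 2 * ‖x‖ ^ p.toReal - 2 * ‖y‖ ^ p.toReal = 0 := by
  have hr := toReal_pos hp
  have i1 := integrable_rpow hp (x + y)
  have i2 := integrable_rpow hp (x - y)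
  have i3 := (integrable_rpow hp x).const_mul 2
  have i4 := (integrable_rpow hp y).const_mul 2
  have ae : (fun ω => ‖(x + y) ω‖ ^ p.toReal + ‖(x - y) ω‖ ^ p.toReal - 2 * ‖x ω‖ ^ p.toReal -
      2 * ‖y ω‖ ^ p.toReal) =ᵐ[μ] fun ω => clark p.toReal (x ω) (y ω) := by
    filter_upwards [Lp.coeFn_add x y, Lp.coeFn_sub x y] with ω h1 h2
    rw [h1, h2]
    rfl
  have hi : Integrable (fun ω => clark p.toReal (x ω) (y ω)) μ :=
    (((i1.add i2).sub i3).sub i4).congr ae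
  have e : ‖x + y‖ ^ p.toReal + ‖x - y‖ ^ p.toReal - 2 * ‖x‖ ^ p.toReal - 2 * ‖y‖ ^ p.toReal =
      ∫ ω, clark p.toReal (x ω) (y ω) ∂μ := by
    have j1 : Integrable (fun ω => ‖(x + y) ω‖ ^ p.toReal + ‖(x - y) ω‖ ^ p.toReal) μ := i1.add i2
    have j2 : Integrable (fun ω => ‖(x + y) ω‖ ^ p.toReal + ‖(x - y) ω‖ ^ p.toReal -
      2 * ‖x ω‖ ^ p.toReal) μ := j1.sub i3
    rw [← integral_congr_ae ae, integral_sub j2 i4, integral_sub j1 i3,
      integral_add i1 i2, integral_const_mul, integral_const_mul]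
    simp only [norm_rpow_eq hp]
  rw [e]
  constructor
  · intro H
    refine integral_eq_zero_of_ae ?_
    filter_upwards [H] with ω hω
    exact clark_zero hr hω
  · intro H
    obtain ⟨σ, hσ⟩ := clark_pos hr hp2
    have h0 : 0 ≤ fun ω => σ * clark p.toReal (x ω) (y ω) := fun ω => by
      by_cases h : x ω = 0 ∨ y ω = 0
      · simp [clark_zero hr h]
      · push Not at h
        exact (hσ _ _ h.1 h.2).le
    have h1 := (integral_eq_zero_iff_of_nonneg h0 (hi.const_mul σ)).mp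
      (by rw [integral_const_mul, H, mul_zero])
    filter_upwards [h1] with ω hω
    by_contra h
    push Not at h
    exact (hσ _ _ h.1 h.2).ne' hω

lemma Disj.map (hp : p ≠ ⊤) (hp2 : p.toReal ≠ 2) (U : Lp ℂ p μ →L[ℂ] Lp ℂ p μ)
    (hU : ∀ x, ‖U x‖ = ‖x‖) {x y : Lp ℂ p μ} (H : Disj x y) : Disj (U x) (U y) := by
  rw [disj_iff hp hp2] at H ⊢
  rwa [← map_add, ← map_sub, hU, hU, hU, hU]

/-- restriction to a measurable set -/
noncomputable def ind {A : Set Y} (hA : MeasurableSet A) (x : Lp ℂ p μ) : Lp ℂ p μ :=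
  ((Lp.memLp x).indicator hA).toLp _

omit [Fact (1 ≤ p)] in
lemma ind_ae {A : Set Y} (hA : MeasurableSet A) (x : Lp ℂ p μ) :
    ∀ᵐ ω ∂μ, (ω ∈ A → ind hA x ω = x ω) ∧ (ω ∉ A → ind hA x ω = 0) := by
  filter_upwards [((Lp.memLp x).indicator hA).coeFn_toLp] with ω hω
  exact ⟨fun h => hω.trans (Set.indicator_of_mem h _), fun h => hω.trans (Set.indicator_of_notMem h _)⟩

/-- local operators -/
def Loc (T : Lp ℂ p μ →L[ℂ] Lp ℂ p μ) : Prop :=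
  ∀ A, MeasurableSet A → ∀ x : Lp ℂ p μ, (∀ᵐ ω ∂μ, ω ∈ A → x ω = 0) → ∀ᵐ ω ∂μ, ω ∈ A → T x ω = 0

lemma Loc.add {S T : Lp ℂ p μ →L[ℂ] Lp ℂ p μ} (hS : Loc S) (hT : Loc T) : Loc (S + T) := by
  intro A hA x hx
  filter_upwards [hS A hA x hx, hT A hA x hx, Lp.coeFn_add (S x) (T x)] with ω h1 h2 h3 hω
  refine h3.trans ?_
  rw [Pi.add_apply, h1 hω, h2 hω, add_zero]

lemma Loc.smul {T : Lp ℂ p μ →L[ℂ] Lp ℂ p μ} (hT : Loc T) (c : ℂ) : Loc (c • T) := by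
  intro A hA x hx
  filter_upwards [hT A hA x hx, Lp.coeFn_smul c (T x)] with ω h1 h3 hω
  refine h3.trans ?_
  rw [Pi.smul_apply, h1 hω, smul_zero]

lemma loc_of_iso (hp : p ≠ ⊤) (hp2 : p.toReal ≠ 2) (U U' : Lp ℂ p μ →L[ℂ] Lp ℂ p μ)
    (h1 : ∀ x, U (U' x) = x) (h2 : ∀ x, U' (U x) = x) (hU : ∀ x, ‖U x‖ ≤ ‖x‖)
    (hU' : ∀ x, ‖U' x‖ ≤ ‖x‖) (h3 : ‖U - 1‖ < 1) : Loc U := by
  intro A hA x hx
  have hiso : ∀ x, ‖U' x‖ = ‖x‖ := fun x => le_antisymm (hU' x) (by simpa [h1] using hU (U' x))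
  set z := ind hA (U x) with hz
  have hd : Disj (U x - z) z := by
    filter_upwards [ind_ae hA (U x), Lp.coeFn_sub (U x) z] with ω h4 h5
    by_cases hω : ω ∈ A
    · left; rw [h5, Pi.sub_apply, h4.1 hω, sub_self]
    · right; exact h4.2 hω
  have hd2 := hd.map hp hp2 U' hiso
  rw [map_sub, h2] at hd2
  have h6 : ‖U' z‖ ≤ ‖z - U' z‖ := by
    refine Lp.norm_le_norm_of_ae_le ?_
    filter_upwards [hd2, hx, ind_ae hA (U x), Lp.coeFn_sub x (U' z), Lp.coeFn_sub z (U' z)]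
      with ω h4 h5 h6 h7 h8
    by_cases hω : ω ∈ A
    · rw [h7, Pi.sub_apply, h5 hω, zero_sub, neg_eq_zero, or_self] at h4
      rw [h4, norm_zero]
      exact norm_nonneg _
    · rw [h8, Pi.sub_apply, h6.2 hω, zero_sub, norm_neg]
  have h7 : z - U' z = (U - 1) (U' z) := by
    rw [_root_.sub_apply, h1, one_apply_eq_self]
  have h8 := (U - 1).le_opNorm (U' z)
  rw [← h7] at h8
  have h9 : ‖U' z‖ = 0 := by nlinarith [norm_nonneg (U' z)]
  rw [hiso, norm_eq_zero] at h9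
  filter_upwards [ind_ae hA (U x), Lp.eq_zero_iff_ae_eq_zero.mp h9] with ω h4 h5 hω
  rw [← h4.1 hω]
  exact h5

lemma pb_of_loc (hp : p ≠ ⊤) {T : Lp ℂ p μ →L[ℂ] Lp ℂ p μ} (hT : Loc T) {K : ℝ} (hK : ‖T‖ ≤ K)
    (x : Lp ℂ p μ) : ∀ᵐ ω ∂μ, ‖T x ω‖ ≤ K * ‖x ω‖ := by
  have hr := toReal_pos hp
  have hK0 : 0 ≤ K := (norm_nonneg _).trans hK
  have hA : MeasurableSet {ω | K * ‖x ω‖ < ‖T x ω‖} :=
    measurableSet_lt ((Lp.stronglyMeasurable x).measurable.norm.const_mul K)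
      (Lp.stronglyMeasurable (T x)).measurable.norm
  set z := ind hA x with hz
  have h1 := hT _ hA (x - z) (by
    filter_upwards [ind_ae hA x, Lp.coeFn_sub x z] with ω h4 h5 hω
    rw [h5, Pi.sub_apply, h4.1 hω, sub_self])
  have h2 := hT _ hA.compl z (by
    filter_upwards [ind_ae hA x] with ω h4 hω
    exact h4.2 hω)
  rw [map_sub] at h1
  have h3 : ∀ᵐ ω ∂μ, 0 ≤ ‖T z ω‖ ^ p.toReal - K ^ p.toReal * ‖z ω‖ ^ p.toReal ∧
      (‖T z ω‖ ^ p.toReal - K ^ p.toReal * ‖z ω‖ ^ p.toReal = 0 → ‖T x ω‖ ≤ K * ‖x ω‖) := by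
    filter_upwards [h1, h2, ind_ae hA x, Lp.coeFn_sub (T x) (T z)] with ω h4 h5 h6 h7
    by_cases hω : K * ‖x ω‖ < ‖T x ω‖
    · have h8 := h4 hω
      rw [h7, Pi.sub_apply, sub_eq_zero] at h8
      have h9 := Real.rpow_lt_rpow (by positivity) hω hr
      rw [Real.mul_rpow hK0 (norm_nonneg _)] at h9
      rw [← h8, h6.1 hω]
      exact ⟨by linarith, fun h => by linarith⟩
    · rw [h5 hω, h6.2 hω, norm_zero, Real.zero_rpow hr.ne']
      exact ⟨by simp, fun _ => not_lt.mp hω⟩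
  have i1 := integrable_rpow hp (T z)
  have i2 := (integrable_rpow hp z).const_mul (K ^ p.toReal)
  have h4 : ∫ ω, (‖T z ω‖ ^ p.toReal - K ^ p.toReal * ‖z ω‖ ^ p.toReal) ∂μ = 0 := by
    refine le_antisymm ?_ (integral_nonneg_of_ae (h3.mono fun _ h => h.1))
    rw [integral_sub i1 i2, integral_const_mul, ← norm_rpow_eq hp, ← norm_rpow_eq hp,
      ← Real.mul_rpow hK0 (norm_nonneg _), sub_nonpos]
    exact Real.rpow_le_rpow (norm_nonneg _) (T.le_of_opNorm_le hK z) hr.le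
  have h5 := (integral_eq_zero_iff_of_nonneg_ae (h3.mono fun _ h => h.1) (i1.sub i2)).mp h4
  filter_upwards [h3, h5] with ω h6 h7
  exact h6.2 h7

variable {X : Type} [TopologicalSpace X] [CompactSpace X]

lemma Rep.norm_apply_le {V : Type} [NormedAddCommGroup V] [NormedSpace ℂ V] (π : Rep X V)
    {f : C(X, ℂ)} (hf : ∀ x, ‖f x‖ ≤ 1) (ξ : V) : ‖π.1 f ξ‖ ≤ ‖ξ‖ := by
  have := (π.1 f).le_of_opNorm_le ((π.2 f).trans ((ContinuousMap.norm_le _ zero_le_one).mpr hf)) ξ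
  rwa [one_mul] at this

lemma Rep.loc_unit (hp : p ≠ ⊤) (hp2 : p.toReal ≠ 2) (π : Rep X (Lp ℂ p μ)) (u u' : C(X, ℂ))
    (h1 : u * u' = 1) (hu : ∀ x, ‖u x‖ ≤ 1) (hu' : ∀ x, ‖u' x‖ ≤ 1) (h2 : ∀ x, ‖u x - 1‖ ≤ 3 / 4) :
    Loc (π.1 u) := by
  refine loc_of_iso hp hp2 _ (π.1 u') (fun x => ?_) (fun x => ?_) (π.norm_apply_le hu)
    (π.norm_apply_le hu') ?_
  · rw [← mul_apply_eq_comp, ← map_mul, h1, map_one, one_apply_eq_self]
  · rw [← mul_apply_eq_comp, ← map_mul, mul_comm, h1, map_one,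
      one_apply_eq_self]
  · rw [← map_one π.1, ← map_sub]
    have : ‖u - 1‖ ≤ 3 / 4 := (ContinuousMap.norm_le _ (by norm_num)).mpr h2
    linarith [π.2 (u - 1)]

lemma Rep.loc_real (hp : p ≠ ⊤) (hp2 : p.toReal ≠ 2) (π : Rep X (Lp ℂ p μ)) (g : C(X, ℝ))
    (hg : ∀ x, |g x| ≤ 1 / 2) : Loc (π.1 ⟨fun x => (g x : ℂ), by fun_prop⟩) := by
  let u : ℝ → C(X, ℂ) := fun e => ⟨fun x => (√(1 - g x ^ 2) : ℝ) + Complex.I * (e * g x : ℝ), by fun_prop⟩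
  have hg2 : ∀ x, g x ^ 2 ≤ 1 / 4 := fun x => by
    rw [← sq_abs]; nlinarith [hg x, abs_nonneg (g x)]
  have hs : ∀ x, √(1 - g x ^ 2) ^ 2 = 1 - g x ^ 2 := fun x => Real.sq_sqrt (by linarith [hg2 x])
  have hs0 : ∀ x, 3 / 4 ≤ √(1 - g x ^ 2) := fun x => Real.le_sqrt_of_sq_le (by linarith [hg2 x])
  have hmul : ∀ e : ℝ, e ^ 2 = 1 → u e * u (-e) = 1 := by
    intro e he
    ext x
    have h1 : ((√(1 - g x ^ 2) : ℝ) : ℂ) ^ 2 = 1 - (g x : ℂ) ^ 2 := by exact_mod_cast hs x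
    have h2 : (e : ℂ) ^ 2 = 1 := by exact_mod_cast he
    simp only [u, ContinuousMap.mul_apply, ContinuousMap.coe_mk, ContinuousMap.one_apply]
    push_cast
    linear_combination h1 - (e : ℂ) ^ 2 * (g x : ℂ) ^ 2 * Complex.I_sq + (g x : ℂ) ^ 2 * h2
  have hn : ∀ e : ℝ, e ^ 2 = 1 → ∀ x, ‖u e x‖ ≤ 1 ∧ ‖u e x - 1‖ ≤ 3 / 4 := by
    intro e he x
    have h1 := hs x
    have h2 := hs0 x
    constructor
    · refine (pow_le_pow_iff_left₀ (norm_nonneg _) zero_le_one two_ne_zero).mp ?_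
      rw [Complex.sq_norm, Complex.normSq_apply]
      simp only [u, ContinuousMap.coe_mk, Complex.add_re, Complex.ofReal_re, Complex.mul_re,
        Complex.I_re, Complex.I_im, Complex.ofReal_im, Complex.add_im, Complex.mul_im]
      nlinarith
    · refine (pow_le_pow_iff_left₀ (norm_nonneg _) (by norm_num) two_ne_zero).mp ?_
      rw [Complex.sq_norm, Complex.normSq_apply]
      simp only [u, ContinuousMap.coe_mk, Complex.add_re, Complex.ofReal_re, Complex.mul_re,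
        Complex.I_re, Complex.I_im, Complex.ofReal_im, Complex.add_im, Complex.mul_im,
        Complex.sub_re, Complex.sub_im, Complex.one_re, Complex.one_im]
      nlinarith
  have hl : ∀ e : ℝ, e ^ 2 = 1 → Loc (π.1 (u e)) := fun e he =>
    π.loc_unit hp hp2 (u e) (u (-e)) (hmul e he) (fun x => (hn e he x).1)
      (fun x => (hn (-e) (by rw [neg_sq, he]) x).1) fun x => (hn e he x).2
  have e : (⟨fun x => (g x : ℂ), by fun_prop⟩ : C(X, ℂ)) =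
      (-Complex.I / 2) • u 1 + (Complex.I / 2) • u (-1) := by
    ext x
    simp only [u, ContinuousMap.add_apply, ContinuousMap.smul_apply, ContinuousMap.coe_mk,
      smul_eq_mul]
    push_cast
    linear_combination (g x : ℂ) * Complex.I_sq
  rw [e, map_add, map_smul, map_smul]
  exact ((hl 1 (by norm_num)).smul _).add ((hl (-1) (by norm_num)).smul _)

lemma Rep.loc (hp : p ≠ ⊤) (hp2 : p.toReal ≠ 2) (π : Rep X (Lp ℂ p μ)) (f : C(X, ℂ)) :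
    Loc (π.1 f) := by
  set c : ℝ := 2 * (‖f‖ + 1) with hc
  have hc0 : 0 < c := by positivity
  have hb : ∀ t : ℝ, |t| ≤ ‖f‖ → |t / c| ≤ 1 / 2 := fun t ht => by
    rw [abs_div, abs_of_pos hc0, div_le_iff₀ hc0]
    linarith
  have h1 := π.loc_real hp hp2 ⟨fun x => (f x).re / c, by fun_prop⟩ fun x =>
    hb _ ((Complex.abs_re_le_norm _).trans (f.norm_coe_le_norm x))
  have h2 := π.loc_real hp hp2 ⟨fun x => (f x).im / c, by fun_prop⟩ fun x =>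
    hb _ ((Complex.abs_im_le_norm _).trans (f.norm_coe_le_norm x))
  have h3 := (h1.smul c).add (h2.smul (c * Complex.I))
  rw [← map_smul, ← map_smul, ← map_add] at h3
  convert h3 using 2
  ext x
  simp only [ContinuousMap.add_apply, ContinuousMap.smul_apply, ContinuousMap.coe_mk, smul_eq_mul]
  have : (c : ℂ) ≠ 0 := by exact_mod_cast hc0.ne'
  conv_lhs => rw [← Complex.re_add_im (f x)]
  push_cast
  field_simp

lemma Rep.pb (hp : p ≠ ⊤) (hp2 : p.toReal ≠ 2) (π : Rep X (Lp ℂ p μ)) (f : C(X, ℂ))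
    (ξ : Lp ℂ p μ) : ∀ᵐ ω ∂μ, ‖π.1 f ξ ω‖ ≤ ‖f‖ * ‖ξ ω‖ :=
  pb_of_loc hp (π.loc hp hp2 f) (π.2 f) ξ

end Pool.Agent.H907Z.LpX
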