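import Mathlib
import Pool.Agent.H907Z.LpX.Lamperti

set_option autoImplicit false

/-!
# Pointwise, a contractive representation on `L^p`, `p ≠ 2`, is evaluation at a point of `X`
-/

namespace Pool.Agent.H907Z.LpX

open Filter Topology Finset MeasureTheory
open scoped ENNReal

variable {Y : Type} [MeasurableSpace Y] {μ : Measure Y} {p : ℝ≥0∞} [Fact (1 ≤ p)]
  {X : Type} [TopologicalSpace X] [CompactSpace X]

lemma bezout {ι : Type} [Fintype ι] (f : ι → C(X, ℂ)) (c : ι → ℂ) {d : ℝ} (hd : 0 < d)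
    (H : ∀ x, d ≤ ‖(fun i => f i x) - c‖) :
    ∃ g : ι → C(X, ℂ), (∀ i, ‖g i‖ ≤ 1 / d) ∧ ∑ i, g i * (f i - c i • 1) = 1 := by
  let G : X → ℝ := fun x => ∑ i, ‖f i x - c i‖ ^ 2
  have hGc : Continuous G := by fun_prop
  have h1 : ∀ x i, ‖f i x - c i‖ ≤ √(G x) := fun x i => Real.le_sqrt_of_sq_le
    (Finset.single_le_sum (f := fun i => ‖f i x - c i‖ ^ 2) (fun _ _ => sq_nonneg _)
      (Finset.mem_univ i))
  have h2 : ∀ x, d ≤ √(G x) := fun x => (H x).trans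
    ((pi_norm_le_iff_of_nonneg (Real.sqrt_nonneg _)).mpr (h1 x))
  have h3 : ∀ x, 0 < G x := fun x => Real.sqrt_pos.mp (hd.trans_le (h2 x))
  have h4 : ∀ x, ((G x : ℝ) : ℂ) ≠ 0 := fun x => by exact_mod_cast (h3 x).ne'
  refine ⟨fun i => ⟨fun x => (starRingEnd ℂ) (f i x - c i) / (G x : ℝ),
    Continuous.div (by fun_prop) (by fun_prop) h4⟩, fun i => ?_, ?_⟩
  · refine (ContinuousMap.norm_le _ (by positivity)).mpr fun x => ?_
    simp only [ContinuousMap.coe_mk]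
    rw [norm_div, Complex.norm_conj, Complex.norm_real, Real.norm_eq_abs, abs_of_pos (h3 x),
      div_le_div_iff₀ (h3 x) hd, one_mul]
    conv_rhs => rw [← Real.mul_self_sqrt (h3 x).le]
    exact mul_le_mul (h1 x i) (h2 x) hd.le (Real.sqrt_nonneg _)
  · ext x
    simp only [ContinuousMap.sum_apply, ContinuousMap.mul_apply, ContinuousMap.coe_mk,
      ContinuousMap.sub_apply, ContinuousMap.smul_apply, ContinuousMap.one_apply, smul_eq_mul,
      mul_one, div_mul_eq_mul_div]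
    rw [← Finset.sum_div, div_eq_one_iff_eq (h4 x)]
    simp only [G, Complex.ofReal_sum]
    exact Finset.sum_congr rfl fun i _ => by
      rw [Complex.conj_mul']; push_cast; rfl

lemma pt_one [Nonempty X] (hp : p ≠ ⊤) (hp2 : p.toReal ≠ 2) (π : Rep X (Lp ℂ p μ))
    {ι : Type} [Fintype ι] (f : ι → C(X, ℂ)) (k : Lp ℂ p μ) :
    ∀ᵐ ω ∂μ, k ω ≠ 0 → ∃ x, ∀ i, π.1 (f i) k ω = f i x * k ω := by
  let K : Set (ι → ℂ) := Set.range fun x i => f i x
  have hK : IsClosed K := (isCompact_range (by fun_prop)).isClosed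
  have key : ∀ c : ι → ℂ, ∀ᵐ ω ∂μ,
      Metric.infDist c K * ‖k ω‖ ≤ ∑ i, ‖π.1 (f i) k ω - c i * k ω‖ := by
    intro c
    rcases (Metric.infDist_nonneg (x := c) (s := K)).eq_or_lt with h0 | h0
    · exact Eventually.of_forall fun ω => by
        rw [← h0, zero_mul]; exact Finset.sum_nonneg fun _ _ => norm_nonneg _
    obtain ⟨g, hg, hg1⟩ := bezout f c h0 fun x => by
      rw [← dist_eq_norm, dist_comm]; exact Metric.infDist_le_dist_of_mem ⟨x, rfl⟩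
    have e : k = ∑ i, π.1 (g i) (π.1 (f i) k - c i • k) := by
      have := DFunLike.congr_fun (congrArg π.1 hg1) k
      rw [map_one, one_apply_eq_self, map_sum, _root_.sum_apply] at this
      refine this.symm.trans (Finset.sum_congr rfl fun i _ => ?_)
      rw [map_mul, map_sub, map_smul, map_one]
      rfl
    have h1 := Lp.coeFn_fun_finsetSum Finset.univ fun i => π.1 (g i) (π.1 (f i) k - c i • k)
    rw [← e] at h1
    have h2 := ae_all_iff.mpr fun i => π.pb hp hp2 (g i) (π.1 (f i) k - c i • k)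
    have h3 := ae_all_iff.mpr fun i => Lp.coeFn_sub (π.1 (f i) k) (c i • k)
    have h4 := ae_all_iff.mpr fun i => Lp.coeFn_smul (c i) k
    filter_upwards [h1, h2, h3, h4] with ω h1 h2 h3 h4
    rw [← le_div_iff₀' h0, Finset.sum_div]
    conv_lhs => rw [h1]
    refine norm_sum_le_of_le _ fun i _ => (h2 i).trans ?_
    rw [h3, Pi.sub_apply, h4, Pi.smul_apply, smul_eq_mul, div_eq_inv_mul, ← one_div]
    exact mul_le_mul_of_nonneg_right (hg i) (norm_nonneg _)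
  obtain ⟨D, hD, hD'⟩ := TopologicalSpace.exists_countable_dense (ι → ℂ)
  filter_upwards [(ae_ball_iff hD).mpr fun c _ => key c] with ω hω hk
  have h1 : ∀ c : ι → ℂ, Metric.infDist c K * ‖k ω‖ ≤ ∑ i, ‖π.1 (f i) k ω - c i * k ω‖ := fun c =>
    hD'.induction (P := fun c => Metric.infDist c K * ‖k ω‖ ≤ ∑ i, ‖π.1 (f i) k ω - c i * k ω‖)
      hω (isClosed_le ((Metric.continuous_infDist_pt K).mul continuous_const) (by fun_prop)) c
  have h2 := h1 fun i => π.1 (f i) k ω / k ω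
  simp only [div_mul_cancel₀ _ hk, sub_self, norm_zero, Finset.sum_const_zero] at h2
  have h3 : Metric.infDist (fun i => π.1 (f i) k ω / k ω) K = 0 :=
    le_antisymm (nonpos_of_mul_nonpos_left h2 (norm_pos_iff.mpr hk)) Metric.infDist_nonneg
  obtain ⟨x, hx⟩ := (hK.mem_iff_infDist_zero (Set.range_nonempty _)).mpr h3
  exact ⟨x, fun i => by rw [show f i x = _ from congrFun hx i, div_mul_cancel₀ _ hk]⟩

lemma pt_two (hp : p ≠ ⊤) (hp2 : p.toReal ≠ 2) (π : Rep X (Lp ℂ p μ)) (f : C(X, ℂ))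
    (k ξ : Lp ℂ p μ) : ∀ᵐ ω ∂μ, k ω ≠ 0 → π.1 f ξ ω = ξ ω / k ω * π.1 f k ω := by
  have key : ∀ c : ℂ, ∀ᵐ ω ∂μ, ‖π.1 f ξ ω - c * π.1 f k ω‖ ≤ ‖f‖ * ‖ξ ω - c * k ω‖ := by
    intro c
    have h1 := π.pb hp hp2 f (ξ - c • k)
    rw [map_sub, map_smul] at h1
    filter_upwards [h1, Lp.coeFn_sub (π.1 f ξ) (c • π.1 f k), Lp.coeFn_smul c (π.1 f k),
      Lp.coeFn_sub ξ (c • k), Lp.coeFn_smul c k] with ω h1 h2 h3 h4 h5
    rwa [h2, h4, Pi.sub_apply, Pi.sub_apply, h3, h5] at h1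
  obtain ⟨D, hD, hD'⟩ := TopologicalSpace.exists_countable_dense ℂ
  filter_upwards [(ae_ball_iff hD).mpr fun c _ => key c] with ω hω hk
  have h1 : ∀ c : ℂ, ‖π.1 f ξ ω - c * π.1 f k ω‖ ≤ ‖f‖ * ‖ξ ω - c * k ω‖ := fun c =>
    hD'.induction (P := fun c => ‖π.1 f ξ ω - c * π.1 f k ω‖ ≤ ‖f‖ * ‖ξ ω - c * k ω‖)
      hω (isClosed_le (by fun_prop) (by fun_prop)) c
  have h2 := h1 (ξ ω / k ω)
  rw [div_mul_cancel₀ _ hk, sub_self, norm_zero, mul_zero, norm_le_zero_iff, sub_eq_zero] at h2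
  exact h2

theorem pt_transfer [Nonempty X] (hp : p ≠ ⊤) (hp2 : p.toReal ≠ 2) (π : Rep X (Lp ℂ p μ))
    {ι κ : Type} (s : Finset ι) (t : Finset κ) (f : ι → C(X, ℂ)) (ξ : κ → Lp ℂ p μ) :
    ∀ᵐ ω ∂μ, ∃ x, ∀ i ∈ s, ∀ j ∈ t, π.1 (f i) (ξ j) ω = f i x * ξ j ω := by
  have hk : MemLp (fun ω => ((∑ j ∈ t, ‖ξ j ω‖ : ℝ) : ℂ)) p μ :=
    (memLp_finsetSum t fun j _ => (Lp.memLp (ξ j)).norm).ofReal
  have h1 := pt_one hp hp2 π (fun i : s => f i) (hk.toLp _)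
  have h2 := ae_all_iff.mpr fun i : s => ae_all_iff.mpr fun j : t =>
    pt_two hp hp2 π (f i) (hk.toLp _) (ξ j)
  have h3 := ae_all_iff.mpr fun i : s => ae_all_iff.mpr fun j : t => π.pb hp hp2 (f i) (ξ j)
  filter_upwards [h1, h2, h3, hk.coeFn_toLp] with ω h1 h2 h3 h4
  by_cases h0 : hk.toLp _ ω = 0
  · refine ⟨Classical.arbitrary X, fun i hi j hj => ?_⟩
    rw [h4, Complex.ofReal_eq_zero,
      Finset.sum_eq_zero_iff_of_nonneg fun _ _ => norm_nonneg _] at h0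
    have h5 := h3 ⟨i, hi⟩ ⟨j, hj⟩
    rw [h0 j hj, mul_zero, norm_le_zero_iff] at h5
    rw [h5, norm_eq_zero.mp (h0 j hj), mul_zero]
  · obtain ⟨x, hx⟩ := h1 h0
    refine ⟨x, fun i hi j hj => ?_⟩
    rw [h2 ⟨i, hi⟩ ⟨j, hj⟩ h0, hx ⟨i, hi⟩]
    field_simp

end Pool.Agent.H907Z.LpX
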