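import Mathlib
import Pool.Agent.H907Z.LpX.Transfer
import Pool.Agent.H907Z.LpX.Sys
import Pool.Agent.H907Z.LpX.Atoms
import Pool.Agent.H907Z.LpX.Defs

set_option autoImplicit false

/-!
# Column and row estimates in `F^p(ℤ, X, h)`
-/

namespace Pool.Agent.H907Z.LpX

open Filter Topology Finset MeasureTheory
open scoped ENNReal InnerProductSpace

variable {X : Type} [TopologicalSpace X] [CompactSpace X]

/-- `r`-additivity of the norm on vectors cut by functions with zero products -/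
def PAdd {V : Type} [NormedAddCommGroup V] [NormedSpace ℂ V] (r : ℝ) (π : Rep X V) : Prop :=
  ∀ (F : Finset ℤ) (g : ℤ → C(X, ℂ)) (w : ℤ → V), (∀ i ∈ F, ∀ j ∈ F, i ≠ j → g i * g j = 0) →
    ‖∑ i ∈ F, π.1 (g i) (w i)‖ ^ r = ∑ i ∈ F, ‖π.1 (g i) (w i)‖ ^ r

section hilbert

variable {V : Type} [NormedAddCommGroup V] [InnerProductSpace ℂ V]

lemma Rep.symm_real (π : Rep X V) (u : C(X, ℂ)) (hu : ∀ x, (u x).im = 0) (x y : V) :
    ⟪π.1 u x, y⟫_ℂ = ⟪x, π.1 u y⟫_ℂ := by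
  refine (LinearMap.isSymmetric_iff_inner_map_self_real
    (π.1 u : V →ₗ[ℂ] V)).mpr (fun v => ?_) x y
  rw [Complex.conj_eq_iff_im]
  show (⟪π.1 u v, v⟫_ℂ).im = 0
  set b := (⟪π.1 u v, v⟫_ℂ).im with hb
  set n := ‖v‖ ^ 2 with hn
  have key : ∀ t : ℝ, (b - t * n) ^ 2 ≤ (‖u‖ ^ 2 + t ^ 2) * n ^ 2 := by
    intro t
    have h1 : ‖u + (Complex.I * t) • (1 : C(X, ℂ))‖ ≤ √(‖u‖ ^ 2 + t ^ 2) := by
      refine (ContinuousMap.norm_le _ (Real.sqrt_nonneg _)).mpr fun x => Real.le_sqrt_of_sq_le ?_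
      have h2 := pow_le_pow_left₀ (norm_nonneg _) (u.norm_coe_le_norm x) 2
      rw [Complex.sq_norm, Complex.normSq_apply] at h2 ⊢
      simp [hu x] at h2 ⊢
      nlinarith
    have h2 := (π.1 _).le_of_opNorm_le ((π.2 _).trans h1) v
    have h3 := norm_inner_le_norm (𝕜 := ℂ) (π.1 (u + (Complex.I * t) • (1 : C(X, ℂ))) v) v
    have h4 : (⟪π.1 (u + (Complex.I * t) • (1 : C(X, ℂ))) v, v⟫_ℂ).im = b - t * n := by
      rw [map_add, map_smul, map_one, _root_.add_apply, _root_.smul_apply, one_apply_eq_self,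
        inner_add_left, inner_smul_left, inner_self_eq_norm_sq_to_K, Complex.add_im, ← hb, hn]
      simp [← Complex.ofReal_pow]
      ring
    have h5 := (Complex.abs_im_le_norm _).trans (h3.trans
      (mul_le_mul_of_nonneg_right h2 (norm_nonneg v)))
    rw [h4, mul_assoc, ← sq, ← hn] at h5
    have h6 := pow_le_pow_left₀ (abs_nonneg _) h5 2
    rwa [sq_abs, mul_pow, Real.sq_sqrt (by positivity)] at h6
  by_cases hv : v = 0
  · simp [hb, hv]
  · have hn0 : 0 < n := by positivity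
    by_contra hb0
    have h1 := key (-(‖u‖ ^ 2 * n + 1) / b)
    have h2 : b * (-(‖u‖ ^ 2 * n + 1) / b) = -(‖u‖ ^ 2 * n + 1) := by field_simp
    set t := -(‖u‖ ^ 2 * n + 1) / b
    have h3 : b ^ 2 - 2 * (b * t) * n ≤ ‖u‖ ^ 2 * n ^ 2 := by nlinarith
    rw [h2] at h3
    have h4 : 0 ≤ ‖u‖ ^ 2 * n ^ 2 := by positivity
    nlinarith [sq_nonneg b]

lemma Rep.inner_zero (π : Rep X V) {f g : C(X, ℂ)} (hfg : f * g = 0) (x y : V) :
    ⟪π.1 f x, π.1 g y⟫_ℂ = 0 := by
  have key : ∀ u : C(X, ℂ), (∀ z, (u z).im = 0) → (∀ z, f z = 0 → u z = 0) →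
      ⟪π.1 u x, π.1 g y⟫_ℂ = 0 := by
    intro u hu hu0
    have : u * g = 0 := by
      ext z
      have h1 := DFunLike.congr_fun hfg z
      rw [ContinuousMap.mul_apply, ContinuousMap.zero_apply, mul_eq_zero] at h1 ⊢
      exact h1.imp_left (hu0 z)
    rw [π.symm_real u hu, ← mul_apply_eq_comp, ← map_mul, this, map_zero, _root_.zero_apply,
      inner_zero_right]
  have e : f = (⟨fun z => ((f z).re : ℂ), by fun_prop⟩ : C(X, ℂ)) +
      Complex.I • (⟨fun z => ((f z).im : ℂ), by fun_prop⟩ : C(X, ℂ)) := by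
    ext z
    simp only [ContinuousMap.add_apply, ContinuousMap.smul_apply, ContinuousMap.coe_mk, smul_eq_mul]
    rw [mul_comm, Complex.re_add_im]
  rw [e, map_add, map_smul, _root_.add_apply, _root_.smul_apply, inner_add_left, inner_smul_left,
    key _ (fun z => by simp) (fun z hz => by simp [hz]),
    key _ (fun z => by simp) (fun z hz => by simp [hz]), mul_zero, add_zero]

lemma Rep.padd_hilbert (π : Rep X V) : PAdd 2 π := by
  intro F g w H
  simp only [Real.rpow_two]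
  rw [← inner_self_eq_norm_sq (𝕜 := ℂ), sum_inner, map_sum]
  refine Finset.sum_congr rfl fun i hi => ?_
  rw [inner_sum, Finset.sum_eq_single_of_mem i hi fun j hj hji =>
    π.inner_zero (H i hi j hj hji.symm) _ _, inner_self_eq_norm_sq]

end hilbert

lemma Rep.padd [Nonempty X] {Y : Type} [MeasurableSpace Y] {μ : Measure Y} {p : ℝ≥0∞} [Fact (1 ≤ p)]
    (hp : p ≠ ⊤) (π : Rep X (Lp ℂ p μ)) : PAdd p.toReal π := by
  by_cases hp2 : p.toReal = 2
  · obtain rfl : p = 2 := by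
      rw [← ENNReal.ofReal_toReal hp, hp2]; simp
    rw [hp2]
    exact π.padd_hilbert
  · intro F g w H
    rw [norm_rpow_eq hp]
    simp only [norm_rpow_eq hp]
    rw [← integral_finsetSum _ fun i _ => integrable_rpow hp _]
    refine integral_congr_ae ?_
    filter_upwards [pt_transfer hp hp2 π F F g w,
      Lp.coeFn_fun_finsetSum F fun i => π.1 (g i) (w i)] with ω ⟨x, hx⟩ h2
    rw [h2]
    refine norm_sum_rpow_of_disjoint F _ (toReal_pos hp) fun i hi j hj hij => ?_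
    have h1 := DFunLike.congr_fun (H i hi j hj hij) x
    rw [ContinuousMap.mul_apply, ContinuousMap.zero_apply, mul_eq_zero] at h1
    rw [hx i hi i hi, hx j hj j hj]
    exact h1.imp (fun h => by rw [h, zero_mul]) fun h => by rw [h, zero_mul]

section colrow

variable {V : Type} [NormedAddCommGroup V] [NormedSpace ℂ V] {h : X ≃ₜ X} {r : ℝ}

omit [CompactSpace X] in
lemma Free.smul {F : Finset ℤ} {g : C(X, ℂ)} (hF : Free h F g) (a : ℤ → ℂ) :
    ∀ i ∈ F, ∀ j ∈ F, i ≠ j → (a i • alpha h i g) * (a j • alpha h j g) = 0 := by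
  intro i hi j hj hij
  rw [smul_mul_smul_comm, hF i hi j hj hij]
  ext x
  simp

lemma norm_col_le (hr : 1 ≤ r) (R : CovRep h V) (hR : PAdd r R.rep) (F : Finset ℤ) (a : ℤ → ℂ)
    (g : C(X, ℂ)) (ha : ∀ i, ‖a i‖ = 1) (hg : ‖g‖ ≤ 1) (hF : Free h F g) :
    ‖intHom R (col h F a g)‖ ≤ (F.card : ℝ) ^ (1 / r) := by
  have hr0 : 0 < r := by linarith
  refine ContinuousLinearMap.opNorm_le_bound _ (by positivity) fun ζ => ?_
  have e : intHom R (col h F a g) ζ = ∑ i ∈ F, R.rep.1 (a i • alpha h i g) (R.vp i ζ) := by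
    rw [col, map_sum, _root_.sum_apply]
    exact Finset.sum_congr rfl fun i _ => by rw [intHom_sg]; rfl
  rw [e, ← Real.rpow_le_rpow_iff (norm_nonneg _) (by positivity) hr0, hR _ _ _ (hF.smul a),
    Real.mul_rpow (by positivity) (norm_nonneg _), ← Real.rpow_mul (Nat.cast_nonneg _),
    one_div_mul_cancel hr0.ne', Real.rpow_one, ← nsmul_eq_mul]
  refine Finset.sum_le_card_nsmul _ _ _ fun i _ => Real.rpow_le_rpow (norm_nonneg _) ?_ hr0.le
  refine (R.rep.norm_apply_le (fun x => ?_) _).trans (R.norm_vp_apply i ζ).le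
  rw [ContinuousMap.smul_apply, norm_smul, ha, one_mul]
  exact (g.norm_coe_le_norm _).trans hg

lemma norm_row_le (hr : 1 ≤ r) (R : CovRep h V) (hR : PAdd r R.rep) (F : Finset ℤ) (a : ℤ → ℂ)
    (g : C(X, ℂ)) (ha : ∀ i, ‖a i‖ = 1) (hg : ‖g‖ ≤ 1) (hF : Free h F g) :
    ‖intHom R (row h F a g)‖ ≤ (F.card : ℝ) ^ (1 - 1 / r) := by
  have hr0 : 0 < r := by linarith
  refine ContinuousLinearMap.opNorm_le_bound _ (by positivity) fun ζ => ?_
  have e : intHom R (row h F a g) ζ = ∑ i ∈ F, R.vp (-i) (R.rep.1 (a i • alpha h i g) ζ) := by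
    rw [row, map_sum, _root_.sum_apply]
    refine Finset.sum_congr rfl fun i _ => ?_
    rw [intHom_sg, R.cov_pow, alpha_smul, ← alpha_add, neg_add_cancel, alpha_zero]
    rfl
  have h1 : ‖intHom R (row h F a g) ζ‖ ≤ ∑ i ∈ F, ‖R.rep.1 (a i • alpha h i g) ζ‖ := by
    rw [e]
    exact norm_sum_le_of_le _ fun i _ => (R.norm_vp_apply _ _).le
  have h2 : ∑ i ∈ F, ‖R.rep.1 (a i • alpha h i g) ζ‖ ^ r ≤ ‖ζ‖ ^ r := by
    rw [← hR F _ (fun _ => ζ) (hF.smul a), ← _root_.sum_apply, ← map_sum]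
    refine Real.rpow_le_rpow (norm_nonneg _) (R.rep.norm_apply_le ?_ ζ) hr0.le
    exact norm_sum_smul_le_one F (fun i => alpha h i g)
      (fun i _ x => (g.norm_coe_le_norm _).trans hg) hF a ha
  refine h1.trans ?_
  rw [← Real.rpow_le_rpow_iff (Finset.sum_nonneg fun _ _ => norm_nonneg _) (by positivity) hr0,
    Real.mul_rpow (by positivity) (norm_nonneg _), ← Real.rpow_mul (Nat.cast_nonneg _),
    show (1 - 1 / r) * r = r - 1 by field_simp]
  exact (Real.rpow_sum_le_const_mul_sum_rpow_of_nonneg F hr fun _ _ => norm_nonneg _).trans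
    (mul_le_mul_of_nonneg_left h2 (by positivity))

end colrow

lemma bd_of_full [Nonempty X] {h : X ≃ₜ X} {E : Type} [NormedAddCommGroup E] [NormedSpace ℂ E]
    {p : ℝ≥0∞} [Fact (1 ≤ p)] (hp : p ≠ ⊤) (ψ : Alg h →ₙₐ[ℂ] (E →L[ℂ] E)) {C : ℝ} (hC : 0 < C)
    (H : ∀ a, ‖ψ a‖ ≤ C * fullNorm p h a) : Bd ψ (1 / p.toReal) C where
  pos := hC
  sgl n f := (H _).trans (mul_le_mul_of_nonneg_left
    (fullNorm_le p h _ (norm_nonneg _) fun _ _ _ _ R => norm_intHom_sg R n f) hC.le)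
  col F a g ha hg hF := (H _).trans (mul_le_mul_of_nonneg_left
    (fullNorm_le p h _ (by positivity) fun _ _ _ _ R =>
      norm_col_le (one_le_toReal hp) R (R.rep.padd hp) F a g ha hg hF) hC.le)
  row F a g ha hg hF := (H _).trans (mul_le_mul_of_nonneg_left
    (fullNorm_le p h _ (by positivity) fun _ _ _ _ R =>
      norm_row_le (one_le_toReal hp) R (R.rep.padd hp) F a g ha hg hF) hC.le)

end Pool.Agent.H907Z.LpX
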