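import Mathlib
import Pool.Agent.H907Z.LpX.Est

set_option autoImplicit false

/-!
# For `p ≠ 2` the full and the reduced norm are both the supremum over orbit representations
-/

namespace Pool.Agent.H907Z.LpX

open Filter Topology Finset MeasureTheory
open scoped ENNReal

variable {X : Type} [TopologicalSpace X] [CompactSpace X]

/-- evaluation at a point, acting by scalars -/
noncomputable def scalarRep (V : Type) [NormedAddCommGroup V] [NormedSpace ℂ V] (x : X) : Rep X V :=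
  ⟨(Algebra.ofId ℂ _).comp (ContinuousMap.evalAlgHom ℂ ℂ x), fun f => by
    show ‖algebraMap ℂ (V →L[ℂ] V) (f x)‖ ≤ _
    rw [Algebra.algebraMap_eq_smul_one, norm_smul]
    exact (mul_le_mul (f.norm_coe_le_norm x) ContinuousLinearMap.norm_id_le (norm_nonneg _)
      (norm_nonneg _)).trans (mul_one _).le⟩

lemma scalarRep_apply (V : Type) [NormedAddCommGroup V] [NormedSpace ℂ V] (x : X) (f : C(X, ℂ))
    (v : V) : (scalarRep V x).op f v = f x • v := rfl

variable (p : ℝ≥0∞) [Fact (1 ≤ p)] (h : X ≃ₜ X)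

/-- the orbit representation on `ℓ^p(ℤ)` -/
noncomputable def orbRep (x : X) : Alg h →ₐ[ℂ] (Ell p →L[ℂ] Ell p) :=
  intHom (regCov p (scalarRep ℂ x) h)

lemma orbRep_apply (x : X) (a : Alg h) (v : Ell p) (n : ℤ) :
    orbRep p h x a v n = ∑ m ∈ a.support, alpha h (-n) (a.coeff m) x * v (n - m.toAdd) :=
  regCov_apply p (scalarRep ℂ x) h a v n

variable {p h}

lemma transference [Nonempty X] (hp : p ≠ ⊤) (hp2 : p.toReal ≠ 2) {a : Alg h} {K : ℝ} (hK0 : 0 ≤ K)
    (hK : ∀ x, ‖orbRep p h x a‖ ≤ K) {Y : Type} [MeasurableSpace Y] {μ : Measure Y}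
    (π : Rep X (Lp ℂ p μ)) (S T : Finset ℤ) (hT : ∀ n ∈ S, ∀ m ∈ a.support, n - m.toAdd ∈ T)
    (ξ : ℤ → Lp ℂ p μ) :
    ∑ n ∈ S, ‖regApply π h a ξ n‖ ^ p.toReal ≤ K ^ p.toReal * ∑ j ∈ T, ‖ξ j‖ ^ p.toReal := by
  have hr := toReal_pos hp
  simp only [norm_rpow_eq hp]
  rw [← integral_finsetSum _ fun i _ => integrable_rpow hp _,
    ← integral_finsetSum _ fun i _ => integrable_rpow hp _, ← integral_const_mul]
  refine integral_mono_ae (integrable_finsetSum _ fun i _ => integrable_rpow hp _)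
    ((integrable_finsetSum _ fun i _ => integrable_rpow hp _).const_mul _) ?_
  have h1 := pt_transfer hp hp2 π (S ×ˢ a.support) T
    (fun z => alpha h (-z.1) (a.coeff z.2)) ξ
  have h2 := ae_all_iff.mpr fun n : ℤ => Lp.coeFn_fun_finsetSum a.support
    fun m => π.op (alpha h (-n) (a.coeff m)) (ξ (n - m.toAdd))
  filter_upwards [h1, h2] with ω ⟨x, hx⟩ h2
  let v : Ell p := ∑ j ∈ T, lp.single p j (ξ j ω)
  have hv : ∀ j ∈ T, v j = ξ j ω := fun j hj => by
    simp only [v]
    rw [lp.coeFn_sum, Finset.sum_apply]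
    simp [lp.single_apply, Pi.single_apply, hj]
  have h3 : ∀ n ∈ S, regApply π h a ξ n ω = orbRep p h x a v n := by
    intro n hn
    rw [orbRep_apply]
    refine (h2 n).trans (Finset.sum_congr rfl fun m hm => ?_)
    rw [hv _ (hT n hn m hm)]
    exact hx (n, m) (Finset.mem_product.mpr ⟨hn, hm⟩) _ (hT n hn m hm)
  show ∑ n ∈ S, ‖regApply π h a ξ n ω‖ ^ p.toReal ≤ K ^ p.toReal * ∑ j ∈ T, ‖ξ j ω‖ ^ p.toReal
  rw [Finset.sum_congr rfl fun n hn => by rw [h3 n hn], ← lp.norm_sum_single hr (fun j => ξ j ω) T,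
    ← Real.mul_rpow hK0 (norm_nonneg _)]
  exact (lp.sum_rpow_le_norm_rpow hr _ S).trans
    (Real.rpow_le_rpow (norm_nonneg _) ((orbRep p h x a).le_of_opNorm_le (hK x) v) hr.le)

lemma redNorm_le_orb [Nonempty X] (hp : p ≠ ⊤) (hp2 : p.toReal ≠ 2) {a : Alg h} {K : ℝ}
    (hK0 : 0 ≤ K) (hK : ∀ x, ‖orbRep p h x a‖ ≤ K) : redNorm p h a ≤ K := by
  classical
  have hr := toReal_pos hp
  refine redNorm_le p h a hK0 fun Y _ μ _ π => ?_
  refine ContinuousLinearMap.opNorm_le_bound _ hK0 fun ξ => ?_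
  refine lp.norm_le_of_forall_sum_le hr (by positivity) fun S => ?_
  simp only [regCov_apply]
  refine (transference hp hp2 hK0 hK π S (Finset.image₂ (fun n m => n - m.toAdd) S a.support)
    (fun n hn m hm => Finset.mem_image₂_of_mem hn hm) ξ).trans ?_
  rw [Real.mul_rpow hK0 (norm_nonneg _)]
  exact mul_le_mul_of_nonneg_left (lp.sum_rpow_le_norm_rpow hr ξ _) (by positivity)

lemma fullNorm_le_orb [Nonempty X] (hp : p ≠ ⊤) (hp2 : p.toReal ≠ 2) {a : Alg h} {K : ℝ}
    (hK0 : 0 ≤ K) (hK : ∀ x, ‖orbRep p h x a‖ ≤ K) : fullNorm p h a ≤ K := by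
  have hr := toReal_pos hp
  refine fullNorm_le p h a hK0 fun Y _ μ _ R => ?_
  refine ContinuousLinearMap.opNorm_le_bound _ hK0 fun ζ => ?_
  obtain ⟨M, hM⟩ : ∃ M : ℕ, ∀ m ∈ a.support, m.toAdd.natAbs ≤ M :=
    ⟨a.support.sup fun m => m.toAdd.natAbs, fun m hm =>
      Finset.le_sup (f := fun m : Multiplicative ℤ => m.toAdd.natAbs) hm⟩
  have h1 : ∀ n, regApply R.rep h a (fun j => R.vp (-j) ζ) n = R.vp (-n) (intHom R a ζ) := by
    intro n
    rw [intHom_apply, map_sum]
    refine Finset.sum_congr rfl fun m _ => ?_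
    rw [R.cov_pow, ← R.vp_add, show -n + m.toAdd = -(n - m.toAdd) by ring]
    rfl
  have key : ∀ N : ℕ, N * ‖intHom R a ζ‖ ^ p.toReal ≤ K ^ p.toReal * ((N + 2 * M) * ‖ζ‖ ^ p.toReal) := by
    intro N
    have h2 := transference hp hp2 hK0 hK R.rep (Finset.Ico 0 N) (Finset.Ico (-M) (N + M))
      (fun n hn m hm => by
        have := hM m hm
        rw [Finset.mem_Ico] at hn ⊢
        omega) fun j => R.vp (-j) ζ
    simp only [h1, R.norm_vp_apply, Finset.sum_const, Int.card_Ico, nsmul_eq_mul] at h2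
    have e1 : ((N : ℤ) - 0).toNat = N := by simp
    have e2 : ((N : ℤ) + M - -M).toNat = N + 2 * M := by omega
    rw [e1, e2] at h2
    push_cast at h2
    exact h2
  rw [← Real.rpow_le_rpow_iff (norm_nonneg _) (by positivity) hr, Real.mul_rpow hK0 (norm_nonneg _)]
  by_contra hcon
  refine grow (a := 1) (b := 0) (B := 0) (D := K ^ p.toReal * (2 * M * ‖ζ‖ ^ p.toReal)) one_pos le_rfl
    (sub_pos.mpr (not_le.mp hcon)) fun N _ => ?_
  rw [Real.rpow_one]
  linarith [key N]

lemma orb_le_redNorm (x : X) (a : Alg h) : ‖orbRep p h x a‖ ≤ redNorm p h a := by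
  refine le_trans ?_ (le_redNorm p h a (Measure.dirac ()) inferInstance (scalarRep _ x))
  let w : Lp ℂ p (Measure.dirac ()) := Lp.const p _ (1 : ℂ)
  have hw : ‖w‖ = 1 := by simp [w, Lp.norm_const p _ _ (q_ne_zero (q := p))]
  refine ContinuousLinearMap.opNorm_le_bound _ (norm_nonneg _) fun v => ?_
  have hn : ∀ c : ℂ, ‖c • w‖ = ‖c‖ := fun c => by rw [norm_smul, hw, mul_one]
  let v' : lp (fun _ : ℤ => Lp ℂ p (Measure.dirac ())) p :=
    ⟨fun n => v n • w, (lp.memℓp v).mono' fun n => (hn _).le⟩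
  have h1 : ‖v'‖ ≤ ‖v‖ := lp.norm_mono q_ne_zero fun n => (hn _).le
  have h2 : ‖orbRep p h x a v‖ ≤ ‖intHom (regCov p (scalarRep _ x) h) a v'‖ := by
    refine lp.norm_mono q_ne_zero fun n => le_of_eq ?_
    rw [regCov_apply, orbRep_apply, ← hn, Finset.sum_smul, regApply]
    congr 1
    exact Finset.sum_congr rfl fun m _ => by rw [scalarRep_apply, mul_smul]
  exact h2.trans ((ContinuousLinearMap.le_opNorm _ _).trans
    (mul_le_mul_of_nonneg_left h1 (norm_nonneg _)))

section transport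

variable {V W : Type} [NormedAddCommGroup V] [NormedSpace ℂ V] [NormedAddCommGroup W]
  [NormedSpace ℂ W]

/-- conjugation of operators by an isometric isomorphism -/
noncomputable def conjOp (e : V ≃ₗᵢ[ℂ] W) : (V →L[ℂ] V) →ₐ[ℂ] (W →L[ℂ] W) where
  toFun T := (e : V →L[ℂ] W).comp (T.comp (e.symm : W →L[ℂ] V))
  map_one' := ContinuousLinearMap.ext fun w => e.apply_symm_apply w
  map_mul' S T := ContinuousLinearMap.ext fun w =>
    congrArg (fun v => e (S v)) (e.symm_apply_apply (T (e.symm w))).symm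
  map_zero' := ContinuousLinearMap.ext fun _ => map_zero e
  map_add' S T := ContinuousLinearMap.ext fun w => map_add e _ _
  commutes' c := ContinuousLinearMap.ext fun w => by
    show e (c • e.symm w) = c • w
    rw [map_smul, e.apply_symm_apply]

lemma conjOp_apply (e : V ≃ₗᵢ[ℂ] W) (T : V →L[ℂ] V) (w : W) : conjOp e T w = e (T (e.symm w)) := rfl

lemma conj_pow (e : V ≃ₗᵢ[ℂ] W) (v : V ≃ₗᵢ[ℂ] V) (n : ℤ) (ξ : V) :
    ((e.symm.trans (v.trans e)) ^ n) (e ξ) = e ((v ^ n) ξ) := by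
  induction n using Int.induction_on generalizing ξ with
  | zero => simp
  | succ n ih =>
    rw [zpow_add_one, zpow_add_one, LinearIsometryEquiv.coe_mul, LinearIsometryEquiv.coe_mul,
      Function.comp_apply, Function.comp_apply, ← ih]
    simp
  | pred n ih =>
    rw [zpow_sub_one, zpow_sub_one, LinearIsometryEquiv.coe_mul, LinearIsometryEquiv.coe_mul,
      Function.comp_apply, Function.comp_apply, ← ih]
    simp

/-- transport of a covariant representation -/
noncomputable def CovRep.map (R : CovRep h V) (e : V ≃ₗᵢ[ℂ] W) : CovRep h W where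
  rep := ⟨(conjOp e).comp R.rep.1, fun f =>
    ContinuousLinearMap.opNorm_le_bound _ (norm_nonneg _) fun w => by
      show ‖e (R.rep.1 f (e.symm w))‖ ≤ _
      rw [e.norm_map, ← e.symm.norm_map w]
      exact (R.rep.1 f).le_of_opNorm_le (R.rep.2 f) _⟩
  v := e.symm.trans (R.v.trans e)
  cov f := ContinuousLinearMap.ext fun w => by
    obtain ⟨ξ, rfl⟩ := e.surjective w
    show ((e.symm.trans (R.v.trans e)) ^ (1 : ℤ)) (e (R.rep.1 f (e.symm
      (((e.symm.trans (R.v.trans e)) ^ (-1 : ℤ)) (e ξ))))) = e (R.rep.1 (alpha h 1 f) (e.symm (e ξ)))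
    rw [conj_pow, conj_pow, e.symm_apply_apply, e.symm_apply_apply]
    exact congrArg e (DFunLike.congr_fun (R.cov f) ξ)

lemma norm_le_map (R : CovRep h V) (e : V ≃ₗᵢ[ℂ] W) (a : Alg h) :
    ‖intHom R a‖ ≤ ‖intHom (R.map e) a‖ := by
  refine ContinuousLinearMap.opNorm_le_bound _ (norm_nonneg _) fun ξ => ?_
  have : intHom (R.map e) a (e ξ) = e (intHom R a ξ) := by
    rw [intHom_apply, intHom_apply, map_sum]
    refine Finset.sum_congr rfl fun m _ => ?_
    show e (R.rep.1 (a.coeff m) (e.symm (((e.symm.trans (R.v.trans e)) ^ m.toAdd) (e ξ)))) = _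
    rw [conj_pow, e.symm_apply_apply]
    rfl
  rw [← e.norm_map, ← this, ← e.norm_map ξ]
  exact ContinuousLinearMap.le_opNorm _ _

end transport

lemma memLp_count_iff (hp : p ≠ ⊤) (f : ℤ → ℂ) : MemLp f p Measure.count ↔ Memℓp f p := by
  rw [← integrable_norm_rpow_iff Measurable.of_discrete.aestronglyMeasurable q_ne_zero hp,
    integrable_count_iff, memℓp_gen_iff (toReal_pos hp)]
  simp only [Real.norm_eq_abs]
  exact summable_congr fun n => abs_of_nonneg (by positivity)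

/-- `ℓ^p(ℤ)` as `L^p` of counting measure -/
noncomputable def ellIso (hp : p ≠ ⊤) : Ell p →ₗᵢ[ℂ] Lp ℂ p (Measure.count : Measure ℤ) where
  toFun v := ((memLp_count_iff hp v).mpr (lp.memℓp v)).toLp v
  map_add' _ _ := MemLp.toLp_add _ _
  map_smul' _ _ := MemLp.toLp_const_smul _ _
  norm_map' v := by
    have hr := toReal_pos hp
    have h1 := Measure.ae_count_iff.mp ((memLp_count_iff hp v).mpr (lp.memℓp v)).coeFn_toLp
    refine Real.rpow_left_injOn hr.ne' (norm_nonneg _) (norm_nonneg _) ?_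
    simp only
    rw [norm_rpow_eq hp, integral_countable (integrable_rpow hp _), lp.norm_rpow_eq_tsum hr]
    refine tsum_congr fun n => ?_
    rw [count_real_singleton, one_smul]
    exact congrArg (fun z : ℂ => ‖z‖ ^ p.toReal) (h1 n)

lemma ellIso_surj (hp : p ≠ ⊤) : Function.Surjective (ellIso hp) := fun f =>
  ⟨⟨(f : ℤ → ℂ), (memLp_count_iff hp f).mp (Lp.memLp f)⟩, Lp.toLp_coeFn f (Lp.memLp f)⟩

lemma orb_le_fullNorm (hp : p ≠ ⊤) (x : X) (a : Alg h) : ‖orbRep p h x a‖ ≤ fullNorm p h a :=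
  (norm_le_map _ (LinearIsometryEquiv.ofSurjective _ (ellIso_surj hp)) a).trans
    (le_fullNorm p h a _ inferInstance _)

end Pool.Agent.H907Z.LpX
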