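import Mathlib
import Pool.Agent.H907Z.LpX.Orbit
import Pool.Agent.H907Z.LpX.Diffuse

set_option autoImplicit false

/-!
# No nonzero continuous homomorphisms between `L^p` crossed products for different exponents
-/

namespace Pool.Agent.H907Z.LpX

open Filter Topology Finset MeasureTheory
open scoped ENNReal

section ext

variable {X : Type} [TopologicalSpace X] [CompactSpace X] {h : X ≃ₜ X} (N : RingSeminorm (Alg h))

/-- the canonical map to the completion -/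
noncomputable def toCompl : Alg h →ₙₐ[ℂ] Compl N where
  toFun a := ((show Normed N from a : Normed N) : UniformSpace.Completion (Normed N))
  map_smul' c a := UniformSpace.Completion.coe_smul (X := Normed N) c a
  map_zero' := UniformSpace.Completion.coe_zero (α := Normed N)
  map_add' a b := UniformSpace.Completion.coe_add (α := Normed N) a b
  map_mul' a b := UniformSpace.Completion.coe_mul (α := Normed N) a b

lemma norm_toCompl (a : Alg h) : ‖toCompl N a‖ = N.toFun a :=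
  UniformSpace.Completion.norm_coe (E := Normed N) a

omit [CompactSpace X] in
lemma dense_toCompl : DenseRange (toCompl N) :=
  UniformSpace.Completion.denseRange_coe (α := Normed N)

lemma exists_ext {B : Type} [NormedRing B] [NormedAlgebra ℂ B] [CompleteSpace B]
    (ρ : Alg h →ₐ[ℂ] B) (hρ : ∀ a, ‖ρ a‖ ≤ N.toFun a) :
    ∃ ρ' : Compl N →ₙₐ[ℂ] B, (∀ a, ρ' (toCompl N a) = ρ a) ∧ ∀ b, ‖ρ' b‖ ≤ ‖b‖ := by
  let f : Normed N →+* B := ρ.toRingHom
  have hf : Continuous f :=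
    AddMonoidHomClass.continuous_of_bound f 1 fun a => (hρ a).trans_eq (one_mul _).symm
  let F : Compl N →+* B := UniformSpace.Completion.extensionHom f hf
  have hF : ∀ a, F (toCompl N a) = ρ a := fun a => UniformSpace.Completion.extensionHom_coe f hf a
  have hFc : Continuous F := UniformSpace.Completion.continuous_extension
  refine ⟨⟨⟨⟨F, fun c b => ?_⟩, map_zero F, map_add F⟩, map_mul F⟩, hF, fun b => ?_⟩
  · have e : algebraMap ℂ (Compl N) c = toCompl N (algebraMap ℂ (Alg h) c) := rfl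
    show F (c • b) = c • F b
    rw [Algebra.smul_def, map_mul, e, hF, AlgHom.commutes, Algebra.smul_def]
  · show ‖F b‖ ≤ ‖b‖
    refine (dense_toCompl N).induction_on b (isClosed_le hFc.norm continuous_norm) fun a => ?_
    rw [hF, norm_toCompl]
    exact hρ a

lemma eq_zero_of_family {b : Compl N}
    (H : ∀ a : Alg h, N.toFun a ≤ ‖toCompl N a - b‖) : b = 0 := by
  have : ∀ c : Compl N, ‖c‖ ≤ ‖c - b‖ := fun c =>
    (dense_toCompl N).induction_on c (isClosed_le continuous_norm (by fun_prop)) fun a => by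
      rw [norm_toCompl]; exact H a
  simpa using this b

end ext

lemma fullNorm_smul_le {X : Type} [TopologicalSpace X] [CompactSpace X] (p : ℝ≥0∞) [Fact (1 ≤ p)]
    (h : X ≃ₜ X) (c : ℂ) (a : Alg h) : fullNorm p h (c • a) ≤ ‖c‖ * fullNorm p h a :=
  fullNorm_le p h _ (mul_nonneg (norm_nonneg _) (fullNorm_nonneg p h a)) fun _ _ μ hμ R => by
    have e : intHom R (c • a) = c • intHom R a := (intHom R).toLinearMap.map_smul c a
    rw [e, norm_smul]
    exact mul_le_mul_of_nonneg_left (le_fullNorm p h a μ hμ R) (norm_nonneg _)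

section main

variable {X₁ X₂ : Type} [MetricSpace X₁] [CompactSpace X₁] [TopologicalSpace X₂] [CompactSpace X₂]
  {h₁ : X₁ ≃ₜ X₁} {h₂ : X₂ ≃ₜ X₂} {p₁ : ℝ≥0∞} [Fact (1 ≤ p₁)] {N : RingSeminorm (Alg h₂)}

lemma comp_bd [Nonempty X₁] (hp : p₁ ≠ ⊤) (φ : FpFull p₁ h₁ →ₙₐ[ℂ] Compl N) (hφ : Continuous φ)
    {E : Type} [NormedAddCommGroup E] [NormedSpace ℂ E] (ρ : Compl N →ₙₐ[ℂ] (E →L[ℂ] E))
    (hρ : ∀ b, ‖ρ b‖ ≤ ‖b‖) :
    ∃ C, Bd (ρ.comp (φ.comp (toCompl _))) (1 / p₁.toReal) C := by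
  obtain ⟨δ, hδ, H⟩ := Metric.continuousAt_iff.mp (hφ.continuousAt (x := 0)) 1 one_pos
  simp only [map_zero, dist_zero_right] at H
  refine ⟨1 / δ, bd_of_full hp _ (by positivity) fun a => ?_⟩
  refine le_of_forall_pos_le_add fun ε hε => ?_
  have h0 := fullNorm_nonneg p₁ h₁ a
  set t : ℝ := 1 / δ * fullNorm p₁ h₁ a + ε with ht
  have ht0 : 0 < t := by positivity
  have hn : ‖((1 / t : ℝ) : ℂ)‖ = 1 / t := by
    rw [Complex.norm_real, Real.norm_eq_abs, abs_of_pos (by positivity)]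
  have h1 : ‖toCompl (fullSeminorm p₁ h₁) (((1 / t : ℝ) : ℂ) • a)‖ < δ := by
    rw [norm_toCompl]
    refine (fullNorm_smul_le p₁ h₁ _ a).trans_lt ?_
    rw [hn, one_div_mul_eq_div, div_lt_iff₀ ht0, ht, mul_add, ← mul_assoc, mul_one_div_cancel hδ.ne',
      one_mul]
    linarith [mul_pos hδ hε]
  have h2 := (hρ _).trans_lt (H h1)
  have h3 : ρ (φ (toCompl (fullSeminorm p₁ h₁) (((1 / t : ℝ) : ℂ) • a))) =
      ((1 / t : ℝ) : ℂ) • (ρ.comp (φ.comp (toCompl _))) a :=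
    map_smul (ρ.comp (φ.comp (toCompl (fullSeminorm p₁ h₁)))) _ a
  rw [h3, norm_smul, hn, one_div_mul_eq_div, div_lt_one ht0] at h2
  exact h2.le

/-- If a contractive representation `ρ` of the target admits no compatible representation of the
source, it kills the image of `φ`. -/
lemma rep_le [Nonempty X₁] (hp : p₁ ≠ ⊤) (φ : FpFull p₁ h₁ →ₙₐ[ℂ] Compl N) (hφ : Continuous φ)
    {E : Type} [NormedAddCommGroup E] [NormedSpace ℂ E] [CompleteSpace E]
    (core : ∀ (ψ : Alg h₁ →ₙₐ[ℂ] (E →L[ℂ] E)) (C : ℝ), Bd ψ (1 / p₁.toReal) C → ∀ a, ψ a = 0)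
    (ρ : Alg h₂ →ₐ[ℂ] (E →L[ℂ] E)) (hρ : ∀ a, ‖ρ a‖ ≤ N.toFun a) (d : Alg h₁) (a : Alg h₂) :
    ‖ρ a‖ ≤ ‖toCompl N a - φ (toCompl _ d)‖ := by
  obtain ⟨ρ', h1, h2⟩ := exists_ext N ρ hρ
  obtain ⟨C, hC⟩ := comp_bd hp φ hφ ρ' h2
  have h3 : ρ' (φ (toCompl _ d)) = 0 := core _ C hC d
  have h4 := h2 (toCompl N a - φ (toCompl _ d))
  rwa [map_sub, h3, sub_zero, h1] at h4

lemma noHom_of (H : ∀ φ : FpFull p₁ h₁ →ₙₐ[ℂ] Compl N, Continuous φ → ∀ (d : Alg h₁) (a : Alg h₂),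
    N.toFun a ≤ ‖toCompl N a - φ (toCompl _ d)‖) : NoHom (FpFull p₁ h₁) (Compl N) := fun φ hφ b =>
  (dense_toCompl _).induction_on b (isClosed_eq hφ continuous_const) fun d =>
    eq_zero_of_family N (H φ hφ d)

theorem main [Nonempty X₁] [Nonempty X₂] {p₂ : ℝ≥0∞} [Fact (1 ≤ p₂)] (hp₁ : p₁ ≠ ⊤) (hp₂ : p₂ ≠ ⊤)
    (hne : p₁ ≠ p₂) (hA : Aper h₁) :
    NoHom (FpFull p₁ h₁) (FpFull p₂ h₂) ∧ NoHom (FpFull p₁ h₁) (FpRed p₂ h₂) := by
  have hθ0 : 0 ≤ 1 / p₁.toReal := by positivity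
  have hθ : 1 / p₁.toReal ≠ 1 / p₂.toReal := fun e => hne <| by
    rw [one_div, one_div, inv_inj] at e
    exact (ENNReal.toReal_eq_toReal_iff' hp₁ hp₂).mp e
  by_cases hq : p₂.toReal = 2
  · obtain rfl : p₂ = 2 := by
      rw [← ENNReal.ofReal_toReal hp₂, hq]; simp
    rw [hq] at hθ
    refine ⟨noHom_of fun φ hφ d a => ?_, noHom_of fun φ hφ d a => ?_⟩
    · exact fullNorm_le 2 h₂ a (norm_nonneg _) fun Y _ μ hμ R =>
        rep_le hp₁ φ hφ (fun ψ C B => core_hilbert hA B hθ0 hθ) (intHom R)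
          (fun a => le_fullNorm 2 h₂ a μ hμ R) d a
    · exact redNorm_le 2 h₂ a (norm_nonneg _) fun Y _ μ hμ π =>
        rep_le hp₁ φ hφ (fun ψ C B => core_hilbert hA B hθ0 hθ) (intHom (regCov 2 π h₂))
          (fun a => le_redNorm 2 h₂ a μ hμ π) d a
  · refine ⟨noHom_of fun φ hφ d a => ?_, noHom_of fun φ hφ d a => ?_⟩
    · exact fullNorm_le_orb hp₂ hq (norm_nonneg _) fun x =>
        rep_le hp₁ φ hφ (fun ψ C B => core_ell hp₂ hq hA B hθ0 hθ) (orbRep p₂ h₂ x)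
          (orb_le_fullNorm hp₂ x) d a
    · exact redNorm_le_orb hp₂ hq (norm_nonneg _) fun x =>
        rep_le hp₁ φ hφ (fun ψ C B => core_ell hp₂ hq hA B hθ0 hθ) (orbRep p₂ h₂ x)
          (orb_le_redNorm x) d a

end main

end Pool.Agent.H907Z.LpX
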